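import Pool.Agent.WAP.StmtsL
import Pool.Agent.Helper32_WAR.H26_CycAlg

/-!
# The group `E(k)/E[2]` is cyclic for `Y^2 = X^3 - d^2 X` over a finite field `k` in which `-1` is
not a square (from the torsion bound of squad WAP)
-/

namespace Pool.Agent.WAR.H26C

open Pool.Agent.WAP WeierstrassCurve.Affine Finset

section pts
variable {F : Type} [Field F] [DecidableEq F]

/-- a rational point whose image under `[i]` is rational is a 2-torsion point -/
theorem two_of_i {K : Type} [Field K] [DecidableEq K] (σ : F →+* K) (ι : K) (hι : ι ^ 2 = -1)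
    (hF : ∀ x : F, x ^ 2 ≠ -1) (d : F) (P S : (W d).Point)
    (h : Bc σ d S = Jf ι hι (Bc σ d P)) : P + P = 0 := by
  rcases P with _ | ⟨x, y, h1⟩
  · exact add_zero (0 : (W d).Point)
  rcases S with _ | ⟨x', y', h2⟩
  · exact absurd h.symm (Point.some_ne_zero _)
  have h' : (Point.some _ _ (Trf_aux σ 1 one_ne_zero (by ring : σ d = 1 ^ 2 * σ d) h2) :
      (W (σ d)).Point) = Jf ι hι (Point.some _ _ (Trf_aux σ 1 one_ne_zero
        (by ring : σ d = 1 ^ 2 * σ d) h1)) := h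
  simp only [Jf, Point.some.injEq] at h'
  obtain ⟨-, e2⟩ := h'
  have e3 : σ y' = ι * σ y := by linear_combination e2
  by_cases hy : y = 0
  · subst hy
    rw [Point.add_of_Y_eq rfl]
    rw [W_negY, neg_zero]
  · exfalso
    apply hF (y' / y)
    apply σ.injective
    have hy' : σ y ≠ 0 := by
      intro h0
      exact hy (σ.injective (by rw [h0, map_zero]))
    rw [map_pow, map_div₀, e3, map_neg, map_one, mul_div_assoc, div_self hy', mul_one, hι]

end pts

open Classical in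
/-- counting: two independent rational points of order `n` give too many points of order `n` -/
theorem count (htor : TorStmt) (F : Type) [Field F] [DecidableEq F] (K : Type) [Field K]
    [Algebra GaussianInt K] (σ : F →+* K) (hF : ∀ x : F, x ^ 2 ≠ -1) (h2 : (2 : F) ≠ 0) (d : F)
    (hd : d ≠ 0) (n m : ℕ) (hn : 0 < n) (hm : 2 ≤ m)
    (hnm : ∀ γ : ℤ, (n : ℤ) ∣ 2 * γ → (m : ℤ) ∣ γ) (x y : (W d).Point) (hx : (n : ℤ) • x = 0)
    (hy : (n : ℤ) • y = 0)
    (hind : ∀ α β : ℤ, α • x + β • y = 0 → (n : ℤ) ∣ α ∧ (n : ℤ) ∣ β) : False := by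
  let f : (W d).Point →+ (W (σ d)).Point := Bc σ d
  let J : (W (σ d)).Point →+ (W (σ d)).Point :=
    Jh (gi (algebraMap GaussianInt K)) (gi_sq (algebraMap GaussianInt K))
  have hf : Function.Injective f := Trf_injective σ 1 one_ne_zero (by ring)
  have h2K : (2 : K) ≠ 0 := by
    intro h
    apply h2
    apply σ.injective
    rw [map_ofNat, map_zero]
    exact h
  have hdK : σ d ≠ 0 := by
    intro h
    exact hd (σ.injective (by rw [h, map_zero]))
  let g : (Fin n × Fin n) × (Fin m × Fin m) → (W (σ d)).Point := fun p =>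
    f (((p.1.1 : ℕ) : ℤ) • x + ((p.1.2 : ℕ) : ℤ) • y) +
      J (f (((p.2.1 : ℕ) : ℤ) • x + ((p.2.2 : ℕ) : ℤ) • y))
  have hfin : ∀ (k : ℕ) (a b : Fin k), (k : ℤ) ∣ ((a : ℕ) : ℤ) - ((b : ℕ) : ℤ) → a = b := by
    intro k a b hab
    apply Fin.ext
    have ha := a.2
    have hb := b.2
    have h1 : (((a : ℕ) : ℤ) - ((b : ℕ) : ℤ)).natAbs < k := by omega
    have h3 := Int.eq_zero_of_abs_lt_dvd hab (by
      rw [Int.abs_eq_natAbs]
      exact_mod_cast h1)
    omega
  have hg : Function.Injective g := by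
    rintro ⟨⟨a, b⟩, ⟨c, e⟩⟩ ⟨⟨a', b'⟩, ⟨c', e'⟩⟩ h
    have h3 : f (((a : ℕ) : ℤ) • x + ((b : ℕ) : ℤ) • y) +
        J (f (((c : ℕ) : ℤ) • x + ((e : ℕ) : ℤ) • y)) =
        f (((a' : ℕ) : ℤ) • x + ((b' : ℕ) : ℤ) • y) +
        J (f (((c' : ℕ) : ℤ) • x + ((e' : ℕ) : ℤ) • y)) := h
    have hS : (((a : ℕ) : ℤ) • x + ((b : ℕ) : ℤ) • y) - (((a' : ℕ) : ℤ) • x + ((b' : ℕ) : ℤ) • y) =
        (((a : ℕ) : ℤ) - ((a' : ℕ) : ℤ)) • x + (((b : ℕ) : ℤ) - ((b' : ℕ) : ℤ)) • y := by
      rw [sub_smul, sub_smul]; abel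
    have hP : (((c' : ℕ) : ℤ) • x + ((e' : ℕ) : ℤ) • y) - (((c : ℕ) : ℤ) • x + ((e : ℕ) : ℤ) • y) =
        (((c' : ℕ) : ℤ) - ((c : ℕ) : ℤ)) • x + (((e' : ℕ) : ℤ) - ((e : ℕ) : ℤ)) • y := by
      rw [sub_smul, sub_smul]; abel
    have h4 : f ((((a : ℕ) : ℤ) • x + ((b : ℕ) : ℤ) • y) -
        (((a' : ℕ) : ℤ) • x + ((b' : ℕ) : ℤ) • y)) =
        J (f ((((c' : ℕ) : ℤ) • x + ((e' : ℕ) : ℤ) • y) -
          (((c : ℕ) : ℤ) • x + ((e : ℕ) : ℤ) • y))) := by
      rw [map_sub f, map_sub f, map_sub J, sub_eq_sub_iff_add_eq_add, h3]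
      abel
    have h5 := two_of_i σ (gi (algebraMap GaussianInt K)) (gi_sq _) hF d _ _ h4
    rw [hP] at h5
    have h6 : (2 * (((c' : ℕ) : ℤ) - ((c : ℕ) : ℤ))) • x +
        (2 * (((e' : ℕ) : ℤ) - ((e : ℕ) : ℤ))) • y = 0 := by
      rw [← h5, two_mul, two_mul, add_smul, add_smul]
      abel
    obtain ⟨h7, h8⟩ := hind _ _ h6
    have hc := hfin m c' c (hnm _ h7)
    have he := hfin m e' e (hnm _ h8)
    subst hc he
    rw [hP, hS, sub_self, sub_self, zero_smul, zero_smul, add_zero, map_zero, map_zero] at h4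
    have h9 := hf (h4.trans (map_zero f).symm)
    obtain ⟨h10, h11⟩ := hind _ _ h9
    have ha := hfin n a a' h10
    have hb := hfin n b b' h11
    subst ha hb
    rfl
  have hnK : ((n : ℤ) : GaussianInt) ≠ 0 := by
    intro h
    have h3 : (n : ℤ) = 0 := by exact_mod_cast h
    omega
  have key := htor K (σ d) h2K hdK ((n : ℤ) : GaussianInt) hnK (Finset.univ.image g) (by
    intro P hP
    obtain ⟨p, -, rfl⟩ := Finset.mem_image.1 hP
    rw [sm_def]
    have e1 : (((n : ℤ) : GaussianInt)).re = (n : ℤ) := by simp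
    have e2 : (((n : ℤ) : GaussianInt)).im = 0 := by simp
    rw [e1, e2, zero_smul, add_zero]
    show (n : ℤ) • (f _ + J (f _)) = 0
    rw [smul_add, ← map_zsmul f, ← map_zsmul J, ← map_zsmul f, smul_add, smul_add,
      smul_comm (n : ℤ) _ x, smul_comm (n : ℤ) _ y, smul_comm (n : ℤ) _ x, smul_comm (n : ℤ) _ y,
      hx, hy]
    simp only [smul_zero, add_zero, map_zero])
  rw [Finset.card_image_of_injective _ hg, Finset.card_univ, Fintype.card_prod, Fintype.card_prod,
    Fintype.card_prod, Fintype.card_fin, Fintype.card_fin] at key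
  have hnm2 : nm ((n : ℤ) : GaussianInt) = n * n := by
    unfold nm
    rw [Zsqrtd.norm_intCast]
    rw [Int.natAbs_mul, Int.natAbs_natCast]
  rw [hnm2] at key
  have h12 : n * n * (2 * 2) ≤ n * n * (m * m) :=
    Nat.mul_le_mul_left _ (Nat.mul_le_mul hm hm)
  have h13 : 0 < n * n := Nat.mul_pos hn hn
  omega

/-- the group `E(k)/E[2]` is cyclic -/
theorem cycF (htor : TorStmt) (F : Type) [Field F] [DecidableEq F] [Finite F] (K : Type) [Field K]
    [Algebra GaussianInt K] (σ : F →+* K) (hF : ∀ x : F, x ^ 2 ≠ -1) (h2 : (2 : F) ≠ 0) (d : F)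
    (hd : d ≠ 0) : ∃ g : (W d).Point, ∀ P : (W d).Point, ∃ k : ℤ, (2 : ℤ) • (P - k • g) = 0 := by
  have hfin : Finite (W d).Point := by
    have hinj : Function.Injective (fun P : (W d).Point => (P = 0, cX P, cY P)) := by
      intro P Q h
      simp only [Prod.mk.injEq] at h
      obtain ⟨h0, h1, h3⟩ := h
      rcases P with _ | ⟨x, y, hxy⟩
      · have : Q = 0 := h0.mp rfl
        exact this.symm
      · rcases Q with _ | ⟨x', y', hxy'⟩
        · exact absurd (h0.mpr rfl) (Point.some_ne_zero _)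
        · have e1 : x = x' := h1
          have e2 : y = y' := h3
          subst e1 e2
          rfl
    exact Finite.of_injective _ hinj
  -- independence
  have hind : ∀ l : ℕ, l.Prime → ∀ x y : (W d).Point, l • x = 0 → l • y = 0 → x ≠ 0 →
      (¬ ∃ k : ℤ, y = k • x) → ∀ α β : ℤ, α • x + β • y = 0 → (l : ℤ) ∣ α ∧ (l : ℤ) ∣ β := by
    intro l hl x y hx hy hx0 hno α β hab
    have hlp : Prime (l : ℤ) := Nat.prime_iff_prime_int.mp hl
    have hβ : (l : ℤ) ∣ β := by
      by_contra hc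
      obtain ⟨u, v, huv⟩ := ((hlp.coprime_iff_not_dvd).mpr hc : IsCoprime (l : ℤ) β)
      apply hno
      refine ⟨-(v * α), ?_⟩
      have h3 : y = (u * (l : ℤ) + v * β) • y := by rw [huv, one_smul]
      rw [h3, add_smul, mul_smul, natCast_zsmul, hy, smul_zero, zero_add, mul_smul]
      have h4 : β • y = -(α • x) := by rw [eq_neg_iff_add_eq_zero, add_comm]; exact hab
      rw [h4, smul_neg, neg_smul, mul_smul]
    refine ⟨?_, hβ⟩
    by_contra hc
    obtain ⟨u, v, huv⟩ := ((hlp.coprime_iff_not_dvd).mpr hc : IsCoprime (l : ℤ) α)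
    obtain ⟨β', rfl⟩ := hβ
    have h5 : ((l : ℤ) * β') • y = 0 := by
      rw [mul_comm, mul_smul, natCast_zsmul, hy, smul_zero]
    rw [h5, add_zero] at hab
    apply hx0
    have h3 : x = (u * (l : ℤ) + v * α) • x := by rw [huv, one_smul]
    rw [h3, add_smul, mul_smul, natCast_zsmul, hx, smul_zero, zero_add, mul_smul, hab, smul_zero]
  apply two_cyclic
  · intro l hl hl2 x y hx hy hx0
    by_contra hno
    refine count htor F K σ hF h2 d hd l l hl.pos hl.two_le ?_ x y (by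
      rw [natCast_zsmul]; exact hx) (by rw [natCast_zsmul]; exact hy)
      (hind l hl x y hx hy hx0 hno)
    intro γ hγ
    have hlp : Prime (l : ℤ) := Nat.prime_iff_prime_int.mp hl
    rcases hlp.dvd_or_dvd hγ with h | h
    · exfalso
      have h3 : l ∣ 2 := by exact_mod_cast h
      exact hl2 ((Nat.prime_dvd_prime_iff_eq hl Nat.prime_two).mp h3)
    · exact h
  · intro x y hx hy hx0
    by_contra hno
    have h3 := hind 2 Nat.prime_two (2 • x) (2 • y) (by rw [← mul_nsmul']; exact hx)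
      (by rw [← mul_nsmul']; exact hy) hx0 hno
    refine count htor F K σ hF h2 d hd 4 2 (by norm_num) le_rfl ?_ x y (by
      rw [natCast_zsmul]; exact hx) (by rw [natCast_zsmul]; exact hy) ?_
    · intro γ hγ
      push_cast at hγ ⊢
      omega
    · intro α β hab
      have h4 : α • ((2 : ℕ) • x) + β • ((2 : ℕ) • y) = 0 := by
        have h5 : (2 : ℕ) • (α • x + β • y) = 0 := by rw [hab, smul_zero]
        rw [smul_add, smul_comm, smul_comm (2 : ℕ) β y] at h5
        exact h5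
      obtain ⟨⟨α', rfl⟩, ⟨β', rfl⟩⟩ := h3 _ _ h4
      have h6 : α' • ((2 : ℕ) • x) + β' • ((2 : ℕ) • y) = 0 := by
        rw [← hab, mul_comm, mul_smul, mul_comm, mul_smul, natCast_zsmul, natCast_zsmul]
      obtain ⟨⟨α'', rfl⟩, ⟨β'', rfl⟩⟩ := h3 _ _ h6
      push_cast
      refine ⟨⟨α'', by ring⟩, ⟨β'', by ring⟩⟩

end Pool.Agent.WAR.H26C
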