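import Pool.Agent.WAR.Curve

/-!
# WAR, part T (helper32): coordinates of sums
-/

namespace Pool.Agent.WAR.H32

open WeierstrassCurve WeierstrassCurve.Affine

variable [Par] {F : Type} [Field F]

theorem cX_zero {d : F} : cX (0 : (W d).Point) = 0 := rfl
theorem cY_zero {d : F} : cY (0 : (W d).Point) = 0 := rfl

theorem ne_zero_cases {d : F} {P : (W d).Point} (hP : P ≠ 0) :
    ∃ h, P = Point.some (cX P) (cY P) h := by
  rcases P with _ | ⟨x, y, h⟩
  · exact absurd rfl hP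
  · exact ⟨h, rfl⟩

theorem eqn {d : F} {P : (W d).Point} : cY P ^ 2 = cX P * (cX P - d * ea F) * (cX P - d * eb F) := by
  rcases P with _ | ⟨x, y, h⟩
  · show (0 : F) ^ 2 = 0 * (0 - d * ea F) * (0 - d * eb F)
    ring
  · exact (W_equation d x y).mp h.1

theorem ext_pt {d : F} {P Q : (W d).Point} (hP : P ≠ 0) (hQ : Q ≠ 0) (hx : cX P = cX Q)
    (hy : cY P = cY Q) : P = Q := by
  obtain ⟨h1, e1⟩ := ne_zero_cases hP
  obtain ⟨h2, e2⟩ := ne_zero_cases hQ
  rw [e1, e2]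
  congr 1

theorem ne_zero_of_cY {d : F} {P : (W d).Point} (h : cY P ≠ 0) : P ≠ 0 := by
  rintro rfl
  exact h rfl

theorem ne_zero_of_cX {d : F} {P : (W d).Point} (h : cX P ≠ 0) : P ≠ 0 := by
  rintro rfl
  exact h rfl

theorem cX_neg {d : F} (P : (W d).Point) : cX (-P) = cX P := by
  rcases P with _ | ⟨x, y, h⟩
  · rfl
  · rfl

theorem cY_neg {d : F} (P : (W d).Point) : cY (-P) = -cY P := by
  rcases P with _ | ⟨x, y, h⟩
  · show (0 : F) = -0
    ring
  · show (W d).negY x y = -y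
    exact W_negY d x y

theorem sub_eq_add_neg' {d : F} [DecidableEq F] (P Q : (W d).Point) : P - Q = P + -Q := rfl

variable [DecidableEq F]

/-- sum of points with different X -/
theorem add_ne {d : F} {P Q : (W d).Point} (hP : P ≠ 0) (hQ : Q ≠ 0) (hx : cX P ≠ cX Q) :
    P + Q ≠ 0 ∧ cX (P + Q) = ((cY P - cY Q) / (cX P - cX Q)) ^ 2 + d * (ea F + eb F) - cX P - cX Q ∧
    cY (P + Q) = -(((cY P - cY Q) / (cX P - cX Q)) * (cX (P + Q) - cX P) + cY P) := by
  rcases P with _ | ⟨x1, y1, h1⟩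
  · exact absurd rfl hP
  rcases Q with _ | ⟨x2, y2, h2⟩
  · exact absurd rfl hQ
  change x1 ≠ x2 at hx
  have hxy : ¬ (x1 = x2 ∧ y1 = (W d).negY x2 y2) := fun h => hx h.1
  rw [Affine.Point.add_some hxy]
  refine ⟨Affine.Point.some_ne_zero _, ?_, ?_⟩
  · show (W d).addX x1 x2 ((W d).slope x1 x2 y1 y2) = ((y1 - y2) / (x1 - x2)) ^ 2 + d * (ea F + eb F) - x1 - x2
    rw [W_addX, Affine.slope_of_X_ne hx]
  · show (W d).addY x1 x2 y1 ((W d).slope x1 x2 y1 y2) = -(((y1 - y2) / (x1 - x2)) * ((W d).addX x1 x2 ((W d).slope x1 x2 y1 y2) - x1) + y1)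
    rw [W_addY, W_addX, Affine.slope_of_X_ne hx]

/-- the double of a point -/
theorem add_self {d : F} {P : (W d).Point} (h2 : (2 : F) ≠ 0) (hy : cY P ≠ 0) :
    P + P ≠ 0 ∧ cX (P + P) = ((3 * cX P ^ 2 - 2 * d * (ea F + eb F) * cX P + d ^ 2 * (ea F * eb F)) / (2 * cY P)) ^ 2 + d * (ea F + eb F) - 2 * cX P ∧
    cY (P + P) = -(((3 * cX P ^ 2 - 2 * d * (ea F + eb F) * cX P + d ^ 2 * (ea F * eb F)) / (2 * cY P)) * (cX (P + P) - cX P) + cY P) := by
  rcases P with _ | ⟨x1, y1, h1⟩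
  · exact absurd rfl hy
  change y1 ≠ 0 at hy
  have hy' : y1 ≠ (W d).negY x1 y1 := by
    rw [W_negY]
    intro h
    apply hy
    have : 2 * y1 = 0 := by linear_combination h
    rcases mul_eq_zero.mp this with h | h
    · exact absurd h h2
    · exact h
  have hxy : ¬ (x1 = x1 ∧ y1 = (W d).negY x1 y1) := fun h => hy' h.2
  rw [Affine.Point.add_some hxy]
  have hs : (3 * x1 ^ 2 + 2 * (W d).a₂ * x1 + (W d).a₄ - (W d).a₁ * y1) / (y1 - (W d).negY x1 y1)
      = (3 * x1 ^ 2 - 2 * d * (ea F + eb F) * x1 + d ^ 2 * (ea F * eb F)) / (2 * y1) := by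
    rw [W_negY]
    simp only [W]
    congr 1 <;> ring
  refine ⟨Affine.Point.some_ne_zero _, ?_, ?_⟩
  · show (W d).addX x1 x1 ((W d).slope x1 x1 y1 y1) = ((3 * x1 ^ 2 - 2 * d * (ea F + eb F) * x1 + d ^ 2 * (ea F * eb F)) / (2 * y1)) ^ 2 + d * (ea F + eb F) - 2 * x1
    rw [W_addX, Affine.slope_of_Y_ne rfl hy', hs]
    ring
  · show (W d).addY x1 x1 y1 ((W d).slope x1 x1 y1 y1) = -(((3 * x1 ^ 2 - 2 * d * (ea F + eb F) * x1 + d ^ 2 * (ea F * eb F)) / (2 * y1)) * ((W d).addX x1 x1 ((W d).slope x1 x1 y1 y1) - x1) + y1)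
    rw [W_addY, W_addX, Affine.slope_of_Y_ne rfl hy', hs]

/-- if the X-coordinates agree, then the points are equal or opposite -/
theorem eq_or_neg {d : F} {P Q : (W d).Point} (hP : P ≠ 0) (hQ : Q ≠ 0) (hx : cX P = cX Q) :
    P = Q ∨ P = -Q := by
  have e1 := eqn (P := P)
  have e2 := eqn (P := Q)
  have : (cY P - cY Q) * (cY P + cY Q) = 0 := by
    rw [hx] at e1
    linear_combination e1 - e2
  rcases mul_eq_zero.mp this with h | h
  · left
    exact ext_pt hP hQ hx (by linear_combination h)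
  · right
    exact ext_pt hP (by simpa using hQ) (by rw [cX_neg, hx]) (by rw [cY_neg]; linear_combination h)

/-- the quadratic equation of the X-coordinate of a sum -/
theorem kumEq {d : F} {P Q : (W d).Point} (h2 : (2 : F) ≠ 0) (hP : P ≠ 0) (hQ : Q ≠ 0)
    (hs : P + Q ≠ 0) :
    (cX P - cX Q) ^ 2 * cX (P + Q) ^ 2 - 2 * ((cX P * cX Q + d ^ 2 * (ea F * eb F)) * (cX P + cX Q)
      - 2 * d * (ea F + eb F) * (cX P * cX Q)) * cX (P + Q)
      + (cX P * cX Q - d ^ 2 * (ea F * eb F)) ^ 2 = 0 := by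
  have e1 := eqn (P := P)
  have e2 := eqn (P := Q)
  by_cases hx : cX P = cX Q
  · rcases eq_or_neg hP hQ hx with h | h
    · subst h
      have hy : cY P ≠ 0 := by
        intro h0
        apply hs
        have : P = -P := ext_pt hP (by simpa using hP) (cX_neg P).symm (by rw [cY_neg, h0, neg_zero])
        nth_rewrite 2 [this]
        exact add_neg_cancel P
      obtain ⟨-, h3, -⟩ := add_self h2 hy
      rw [h3]
      generalize cX P = X at *
      generalize cY P = Y at *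
      have h4 : ((3 * X ^ 2 - 2 * d * (ea F + eb F) * X + d ^ 2 * (ea F * eb F)) / (2 * Y)) ^ 2 = (3 * X ^ 2 - 2 * d * (ea F + eb F) * X + d ^ 2 * (ea F * eb F)) ^ 2 / (4 * Y ^ 2) := by
        rw [div_pow]; ring
      have hYY : X * (X - d * ea F) * (X - d * eb F) ≠ 0 := by rw [← e1]; exact pow_ne_zero 2 hy
      have h4' : (4 : F) ≠ 0 := by
        have : (4 : F) = 2 * 2 := by norm_num
        rw [this]; exact mul_ne_zero h2 h2
      have h6 : (3 * X ^ 2 - 2 * d * (ea F + eb F) * X + d ^ 2 * (ea F * eb F)) ^ 2 / (4 * Y ^ 2) * (4 * Y ^ 2) = (3 * X ^ 2 - 2 * d * (ea F + eb F) * X + d ^ 2 * (ea F * eb F)) ^ 2 :=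
        div_mul_cancel₀ _ (mul_ne_zero h4' (pow_ne_zero 2 hy))
      rw [h4]
      rw [e1] at h6 ⊢
      linear_combination -h6
    · exact absurd (by rw [h]; exact neg_add_cancel Q) hs
  · obtain ⟨-, h3, -⟩ := add_ne hP hQ hx
    rw [h3]
    generalize cX P = X1 at *
    generalize cY P = Y1 at *
    generalize cX Q = X2 at *
    generalize cY Q = Y2 at *
    have hD : X1 - X2 ≠ 0 := sub_ne_zero.mpr hx
    have h4 : ((Y1 - Y2) / (X1 - X2)) ^ 2 + d * (ea F + eb F) - X1 - X2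
        = ((X1 * X2 + d ^ 2 * (ea F * eb F)) * (X1 + X2) - 2 * d * (ea F + eb F) * (X1 * X2)
            - 2 * Y1 * Y2) / (X1 - X2) ^ 2 := by
      rw [div_pow, eq_div_iff (pow_ne_zero 2 hD), sub_mul, sub_mul, add_mul,
        div_mul_cancel₀ _ (pow_ne_zero 2 hD)]
      linear_combination e1 + e2
    rw [h4]
    have h5 : (X1 - X2) ^ 2 ≠ 0 := pow_ne_zero 2 hD
    field_simp
    have e3 : (Y1 * Y2) ^ 2 = (X1 * (X1 - d * ea F) * (X1 - d * eb F)) * (X2 * (X2 - d * ea F) * (X2 - d * eb F)) := by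
      rw [mul_pow, e1, e2]
    linear_combination 4 * e3

end Pool.Agent.WAR.H32
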