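import Pool.Agent.WAR.StmtsR

/-! # Squad WAR, row RNT: points near the origin without torsion -/

set_option autoImplicit false

namespace Pool.Agent.WAR.H10

open Pool.Agent.WAR Pool.Agent.WAR.R

attribute [local instance 10000] Pool.Agent.WAR.R.decR

theorem rnt [Par] (hrtf : RtfStmt) : RntStmt := by
  intro d hd N
  have hcount : {P : Pt d | ¬ NTor P}.Countable := by
    have h1 : {P : Pt d | ¬ NTor P} ⊆ ⋃ a ∈ {a : ℤ | a ≠ 0}, {P : Pt d | sm a P = 0} := by
      intro P hP
      have h2 : ∃ a : ℤ, a ≠ 0 ∧ sm a P = 0 := by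
        by_contra h
        push Not at h
        exact hP h
      obtain ⟨a, ha, h⟩ := h2
      exact Set.mem_biUnion (show a ∈ {a : ℤ | a ≠ 0} from ha) h
    refine Set.Countable.mono h1 ?_
    exact Set.Countable.biUnion (Set.to_countable _) fun a ha => (hrtf d hd a ha).countable
  let M : ℝ := max (rt3 d) (|N| * |d|)
  let Y : ℝ → ℝ := fun X => Real.sqrt (X * (X - d * ea ℝ) * (X - d * eb ℝ))
  have hY : ∀ X, M < X → (W d).Nonsingular X (Y X) := by
    intro X hX
    rw [W_nonsingular d X (Y X) two_ne_zero hd]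
    have hr : rt3 d < X := lt_of_le_of_lt (le_max_left _ _) hX
    have h0 : 0 < X := lt_of_le_of_lt (le_max_left _ _) hr
    have ha : d * ea ℝ < X :=
      lt_of_le_of_lt (le_trans (le_max_left _ _) (le_max_right _ _)) hr
    have hb : d * eb ℝ < X :=
      lt_of_le_of_lt (le_trans (le_max_right _ _) (le_max_right _ _)) hr
    exact Real.sq_sqrt (mul_nonneg (mul_nonneg h0.le (sub_nonneg.2 ha.le)) (sub_nonneg.2 hb.le))
  by_contra hcon
  push Not at hcon
  let φ : Set.Ioi M → Pt d := fun X => .some X.1 (Y X.1) (hY X.1 X.2)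
  have hφ : ∀ X, cX (φ X) = X.1 := fun X => rfl
  have hbig : ∀ X, Big N (φ X) := by
    intro X
    right
    rw [hφ, norm_div, Real.norm_eq_abs, Real.norm_eq_abs, lt_div_iff₀ (abs_pos.2 hd)]
    have h1 : |N| * |d| < X.1 := lt_of_le_of_lt (le_max_right _ _) X.2
    have h2 : X.1 ≤ |X.1| := le_abs_self _
    have h3 : N * |d| ≤ |N| * |d| := mul_le_mul_of_nonneg_right (le_abs_self _) (abs_nonneg _)
    linarith
  have := hcount.to_subtype
  have hinj : Function.Injective
      (fun X : Set.Ioi M => (⟨φ X, hcon _ (hbig X)⟩ : {P : Pt d | ¬ NTor P})) := by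
    intro X X' h
    have h1 : φ X = φ X' := congrArg Subtype.val h
    have h2 := congrArg cX h1
    rw [hφ, hφ] at h2
    exact Subtype.ext h2
  have : Countable (Set.Ioi M) := hinj.countable
  have h1 := Cardinal.mk_Ioi_real M
  have h2 : Cardinal.mk (Set.Ioi M) ≤ Cardinal.aleph0 := Cardinal.mk_le_aleph0
  rw [h1] at h2
  exact absurd h2 (not_le.2 Cardinal.aleph0_lt_continuum)

end Pool.Agent.WAR.H10
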