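import Pool.Agent.WAR.StmtsM

/-! # Squad WAR, row TNG: the curve `Q = O` near `x = x(T)` -/

set_option autoImplicit false

namespace Pool.Agent.WAR.H10

open Classical

variable [Par] {F : Type} [NormedField F] {ϖ : ℤ}

theorem tng_nadd (h : IsLoc F ϖ) {x y : F} (hxy : ‖y‖ < ‖x‖) : ‖x + y‖ = ‖x‖ := by
  refine le_antisymm ((h.ultra x y).trans (max_le le_rfl hxy.le)) ?_
  by_contra hc
  push Not at hc
  have h1 := h.ultra (x + y) (-y)
  rw [norm_neg, add_neg_cancel_right] at h1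
  exact lt_irrefl _ (lt_of_le_of_lt h1 (max_lt hc hxy))

theorem tng_roots {z : F × F × F} (h : OnU z) :
    z.2.1 ≠ 0 ∧ z.2.1 ≠ ea F ∧ z.2.1 ≠ eb F := by
  have h1 : cub z.2.1 ≠ 0 := by
    intro h0
    have h2 := h.1
    rw [h0, mul_zero] at h2
    exact h.2 (pow_eq_zero_iff two_ne_zero |>.1 h2)
  unfold cub at h1
  refine ⟨?_, ?_, ?_⟩
  · intro h0
    apply h1
    rw [h0]; ring
  · intro h0
    apply h1
    rw [h0]; ring
  · intro h0
    apply h1
    rw [h0]; ring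

theorem tng_t0 [Gd F] {z : F × F × F} (h : OnU z) : OnU (t0f z) := by
  obtain ⟨h0, -, -⟩ := tng_roots h
  obtain ⟨x, t, y⟩ := z
  obtain ⟨h1, h2⟩ := h
  change y ^ 2 = cub x * cub t at h1
  change y ≠ 0 at h2
  change t ≠ 0 at h0
  have ha := ea_ne F
  have hb := eb_ne F
  refine ⟨?_, ?_⟩
  · show (-(ea F * eb F) * y / t ^ 2) ^ 2 = cub x * cub (ea F * eb F / t)
    have e1 : cub (ea F * eb F / t) = (ea F * eb F) ^ 2 * cub t / t ^ 4 := by
      unfold cub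
      field_simp
      ring
    rw [e1]
    have e2 : (-(ea F * eb F) * y / t ^ 2) ^ 2 = (ea F * eb F) ^ 2 * y ^ 2 / t ^ 4 := by
      field_simp
    rw [e2, h1]
    ring
  · show -(ea F * eb F) * y / t ^ 2 ≠ 0
    exact div_ne_zero (mul_ne_zero (neg_ne_zero.2 (mul_ne_zero ha hb)) h2) (pow_ne_zero 2 h0)

theorem tng_tp [Gd F] {z : F × F × F} (h : OnU z) : OnU (tpf z) := by
  obtain ⟨-, h0, -⟩ := tng_roots h
  obtain ⟨x, t, y⟩ := z
  obtain ⟨h1, h2⟩ := h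
  change y ^ 2 = cub x * cub t at h1
  change y ≠ 0 at h2
  change t ≠ ea F at h0
  have h0' : t - ea F ≠ 0 := sub_ne_zero.2 h0
  have ha := ea_ne F
  have hab := eab_ne F
  refine ⟨?_, ?_⟩
  · show (-(ea F * (ea F - eb F)) * y / (t - ea F) ^ 2) ^ 2 =
      cub x * cub (ea F * (t - eb F) / (t - ea F))
    have e1 : cub (ea F * (t - eb F) / (t - ea F)) =
        (ea F * (ea F - eb F)) ^ 2 * cub t / (t - ea F) ^ 4 := by
      unfold cub
      field_simp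
      ring
    rw [e1]
    have e2 : (-(ea F * (ea F - eb F)) * y / (t - ea F) ^ 2) ^ 2 =
        (ea F * (ea F - eb F)) ^ 2 * y ^ 2 / (t - ea F) ^ 4 := by
      field_simp
    rw [e2, h1]
    ring
  · show -(ea F * (ea F - eb F)) * y / (t - ea F) ^ 2 ≠ 0
    exact div_ne_zero (mul_ne_zero (neg_ne_zero.2 (mul_ne_zero ha hab)) h2) (pow_ne_zero 2 h0')

theorem tng_tm [Gd F] {z : F × F × F} (h : OnU z) : OnU (tmf z) := by
  obtain ⟨-, -, h0⟩ := tng_roots h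
  obtain ⟨x, t, y⟩ := z
  obtain ⟨h1, h2⟩ := h
  change y ^ 2 = cub x * cub t at h1
  change y ≠ 0 at h2
  change t ≠ eb F at h0
  have h0' : t - eb F ≠ 0 := sub_ne_zero.2 h0
  have hb := eb_ne F
  have hba := eba_ne F
  refine ⟨?_, ?_⟩
  · show (-(eb F * (eb F - ea F)) * y / (t - eb F) ^ 2) ^ 2 =
      cub x * cub (eb F * (t - ea F) / (t - eb F))
    have e1 : cub (eb F * (t - ea F) / (t - eb F)) =
        (eb F * (eb F - ea F)) ^ 2 * cub t / (t - eb F) ^ 4 := by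
      unfold cub
      field_simp
      ring
    rw [e1]
    have e2 : (-(eb F * (eb F - ea F)) * y / (t - eb F) ^ 2) ^ 2 =
        (eb F * (eb F - ea F)) ^ 2 * y ^ 2 / (t - eb F) ^ 4 := by
      field_simp
    rw [e2, h1]
    ring
  · show -(eb F * (eb F - ea F)) * y / (t - eb F) ^ 2 ≠ 0
    exact div_ne_zero (mul_ne_zero (neg_ne_zero.2 (mul_ne_zero hb hba)) h2) (pow_ne_zero 2 h0')

theorem tng_core (h : IsLoc F ϖ) (l : Letter) (f : F × F × F → F × F × F) (e e' e'' : F)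
    (hstep : ∀ z : F × F × F, OnU z → Step l z (f z))
    (hf1 : ∀ z, (f z).1 = z.1)
    (hf2 : ∀ z : F × F × F, OnU z → (f z).2.1 = e + (e - e') * (e - e'') / (z.2.1 - e))
    (he : ‖e‖ ≤ 1) (he' : ‖e - e'‖ = 1) (he'' : ‖e - e''‖ = 1)
    (hr : ∀ x : F, x ≠ e → x ≠ e' → x ≠ e'' → x ≠ 0 ∧ x ≠ ea F ∧ x ≠ eb F)
    (ρ : ℝ) (hρ : 0 < ρ) :
    ∃ (x1 : F) (r : ℝ), 0 < r ∧ GoodX x1 ∧ ∀ z : F × F × F, NearG x1 r z →
      ∃ z', Run [.sw, l, .sw] z z' ∧ NearE 0 ρ z' := by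
  have hab := h.norm_eab
  have ha := h.norm_ea
  have hb := h.norm_eb
  obtain ⟨π, hπ⟩ : ∃ π : F, π = am F ϖ := ⟨_, rfl⟩
  have hπ0 : 0 < ‖π‖ := by rw [hπ]; exact h.uni
  have hπ1 : ‖π‖ < 1 := by rw [hπ]; exact (h.lt_one ϖ).2 (dvd_refl ϖ)
  have hπne : π ≠ 0 := norm_pos_iff.1 hπ0
  have habne : ea F - eb F ≠ 0 := norm_pos_iff.1 (by rw [hab]; exact one_pos)
  -- choice of `n`
  obtain ⟨n0, hn0⟩ : ∃ n0 : ℕ, ‖π‖ ^ n0 < min ρ 1 :=
    exists_pow_lt_of_lt_one (lt_min hρ one_pos) hπ1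
  obtain ⟨n, hn, hne⟩ : ∃ n : ℕ, ‖π‖ ^ n < min ρ 1 ∧
      (ea F - eb F) * (e + π ^ n) ≠ ea F * eb F := by
    by_cases hc : (ea F - eb F) * (e + π ^ n0) = ea F * eb F
    · refine ⟨n0 + 1, lt_of_le_of_lt
        (pow_le_pow_of_le_one (norm_nonneg _) hπ1.le (Nat.le_succ n0)) hn0, ?_⟩
      intro hc2
      have h1 : (ea F - eb F) * (π ^ n0 * (1 - π)) = 0 := by
        rw [pow_succ] at hc2
        linear_combination hc - hc2
      rcases mul_eq_zero.1 h1 with h2 | h2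
      · exact habne h2
      · rcases mul_eq_zero.1 h2 with h3 | h3
        · exact pow_ne_zero n0 hπne h3
        · have h4 : π = 1 := (sub_eq_zero.1 h3).symm
          rw [h4, norm_one] at hπ1
          exact lt_irrefl _ hπ1
    · exact ⟨n0, hn0, hc⟩
  obtain ⟨m, hm⟩ : ∃ m : ℝ, m = ‖π‖ ^ n := ⟨_, rfl⟩
  have hm0 : 0 < m := by rw [hm]; exact pow_pos hπ0 n
  rw [← hm] at hn
  have hm1 : m < 1 := lt_of_lt_of_le hn (min_le_right _ _)
  have hmρ : m < ρ := lt_of_lt_of_le hn (min_le_left _ _)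
  have hnm : ‖π ^ n‖ = m := by rw [norm_pow, hm]
  obtain ⟨M, hM⟩ : ∃ M : ℝ, M = m⁻¹ := ⟨_, rfl⟩
  have hM1 : 1 < M := by rw [hM]; exact (one_lt_inv₀ hm0).2 hm1
  have hM0 : 0 < M := one_pos.trans hM1
  have hMρ : 1 / ρ < M := by
    rw [hM, one_div]
    exact inv_strictAnti₀ hm0 hmρ
  obtain ⟨r, hrd⟩ : ∃ r : ℝ, r = min (min m ρ) (min 1 (ρ ^ 2 / M)) := ⟨_, rfl⟩
  have hr0 : 0 < r := by
    rw [hrd]
    exact lt_min (lt_min hm0 hρ) (lt_min one_pos (div_pos (pow_pos hρ 2) hM0))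
  have hrm : r ≤ m := by rw [hrd]; exact (min_le_left _ _).trans (min_le_left _ _)
  have hrρ : r ≤ ρ := by rw [hrd]; exact (min_le_left _ _).trans (min_le_right _ _)
  have hr1 : r ≤ 1 := by rw [hrd]; exact (min_le_right _ _).trans (min_le_left _ _)
  have hrM : r ≤ ρ ^ 2 / M := by rw [hrd]; exact (min_le_right _ _).trans (min_le_right _ _)
  refine ⟨e + π ^ n, r, hr0, ?_, ?_⟩
  · -- GoodX
    have k1 : e + π ^ n ≠ e := by
      intro h0
      exact pow_ne_zero n hπne (by linear_combination h0)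
    have k2 : ∀ e₁ : F, ‖e - e₁‖ = 1 → e + π ^ n ≠ e₁ := by
      intro e₁ h1 h0
      have h2 : ‖(e - e₁) + π ^ n‖ = ‖e - e₁‖ := tng_nadd h (by rw [hnm, h1]; exact hm1)
      have h3 : (e - e₁) + π ^ n = 0 := by linear_combination h0
      rw [h3, norm_zero, h1] at h2
      exact zero_ne_one h2
    obtain ⟨g1, g2, g3⟩ := hr _ k1 (k2 e' he') (k2 e'' he'')
    exact ⟨g1, g2, g3, hne⟩
  · rintro z ⟨hz, h1, h2⟩
    have hsw : OnU (swf z) := by
      refine ⟨?_, hz.2⟩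
      show z.2.2 ^ 2 = cub z.2.1 * cub z.1
      rw [hz.1]; ring
    have hst := hstep (swf z) hsw
    have hfU : OnU (f (swf z)) := hst.2.1
    have hU' : OnU (swf (f (swf z))) := by
      refine ⟨?_, hfU.2⟩
      show (f (swf z)).2.2 ^ 2 = cub (f (swf z)).2.1 * cub (f (swf z)).1
      rw [hfU.1]; ring
    refine ⟨swf (f (swf z)), ⟨_, ⟨hz, hsw, rfl⟩, _, hst, _, ⟨hfU, hU', rfl⟩, hU', rfl⟩, hU', ?_⟩
    have hx' : (swf (f (swf z))).1 = e + (e - e') * (e - e'') / (z.1 - e) := hf2 _ hsw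
    have ht' : (swf (f (swf z))).2.1 = z.2.1 := hf1 _
    obtain ⟨w, hw⟩ : ∃ w : F × F × F, w = swf (f (swf z)) := ⟨_, rfl⟩
    rw [← hw] at hx' ht' hU' ⊢
    -- norms
    have hxe : ‖z.1 - e‖ = m := by
      have e1 : z.1 - e = π ^ n + (z.1 - (e + π ^ n)) := by ring
      rw [e1, tng_nadd h, hnm]
      rw [hnm]
      exact lt_of_lt_of_le h1 hrm
    have hcn : ‖(e - e') * (e - e'') / (z.1 - e)‖ = M := by
      rw [norm_div, norm_mul, he', he'', hxe, hM, one_mul, one_div]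
    have hx1 : ‖w.1‖ = M := by
      rw [hx', add_comm, tng_nadd h, hcn]
      rw [hcn]
      exact lt_of_le_of_lt he hM1
    have hx2 : ‖w.1 - ea F‖ = M := by
      rw [sub_eq_add_neg, tng_nadd h, hx1]
      rw [norm_neg, ha, hx1]
      exact hM1
    have hx3 : ‖w.1 - eb F‖ = M := by
      rw [sub_eq_add_neg, tng_nadd h, hx1]
      rw [norm_neg, hb, hx1]
      exact hM1
    obtain ⟨T, hT⟩ : ∃ T : ℝ, T = ‖z.2.1‖ := ⟨_, rfl⟩
    rw [← hT] at h2
    have hrinv : 1 ≤ 1 / r := by rw [one_div]; exact (one_le_inv₀ hr0).2 hr1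
    have hT1 : 1 < T := lt_of_le_of_lt hrinv h2
    have hT0 : 0 < T := one_pos.trans hT1
    have ht1 : ‖w.2.1‖ = T := by rw [ht', hT]
    have ht2 : ‖w.2.1 - ea F‖ = T := by
      rw [sub_eq_add_neg, tng_nadd h, ht1]
      rw [norm_neg, ha, ht1]
      exact hT1
    have ht3 : ‖w.2.1 - eb F‖ = T := by
      rw [sub_eq_add_neg, tng_nadd h, ht1]
      rw [norm_neg, hb, ht1]
      exact hT1
    refine ⟨?_, ?_, ?_⟩
    · rw [hx1]; exact hMρ
    · rw [ht1]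
      refine lt_of_le_of_lt ?_ h2
      exact one_div_le_one_div_of_le hr0 hrρ
    · rw [sub_zero]
      have hy : ‖w.2.2‖ ^ 2 = M ^ 3 * T ^ 3 := by
        rw [← norm_pow, hU'.1]
        unfold cub
        rw [norm_mul, norm_mul, norm_mul, norm_mul, norm_mul, hx1, hx2, hx3, ht1, ht2, ht3]
        ring
      have hmz : ‖mz w‖ ^ 2 = M / T := by
        unfold mz
        rw [norm_div, div_pow, hy, norm_mul, norm_mul, hx1, ht2, ht3]
        field_simp
      have h3 : M / T < ρ ^ 2 := by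
        have h4 : 1 / T < r := by
          rw [one_div_lt hT0 hr0]
          exact h2
        have h5 : M / T = M * (1 / T) := by ring
        rw [h5]
        calc M * (1 / T) < M * r := mul_lt_mul_of_pos_left h4 hM0
          _ ≤ M * (ρ ^ 2 / M) := mul_le_mul_of_nonneg_left hrM hM0.le
          _ = ρ ^ 2 := by field_simp
      rw [← hmz] at h3
      exact lt_of_pow_lt_pow_left₀ 2 hρ.le h3

theorem tng : TngRow := by
  intro F _ ϖ h l hl ρ hρ
  have hGd : Gd F := h.gd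
  have ha := h.norm_ea
  have hb := h.norm_eb
  have hab := h.norm_eab
  rcases hl with rfl | rfl | rfl
  · refine tng_core h .t0 t0f 0 (ea F) (eb F) (fun z hz => ⟨hz, tng_t0 hz, rfl⟩) (fun z => rfl)
      (fun z hz => ?_) (by rw [norm_zero]; exact zero_le_one) (by rw [zero_sub, norm_neg, ha])
      (by rw [zero_sub, norm_neg, hb]) (fun x h1 h2 h3 => ⟨h1, h2, h3⟩) ρ hρ
    show ea F * eb F / z.2.1 = _
    rw [sub_zero, zero_add]
    congr 1
    ring
  · refine tng_core h .tp tpf (ea F) 0 (eb F) (fun z hz => ⟨hz, tng_tp hz, rfl⟩) (fun z => rfl)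
      (fun z hz => ?_) ha.le (by rw [sub_zero, ha])
      hab (fun x h1 h2 h3 => ⟨h2, h1, h3⟩) ρ hρ
    have h0 : z.2.1 - ea F ≠ 0 := sub_ne_zero.2 (tng_roots hz).2.1
    show ea F * (z.2.1 - eb F) / (z.2.1 - ea F) = _
    field_simp
    ring
  · refine tng_core h .tm tmf (eb F) 0 (ea F) (fun z hz => ⟨hz, tng_tm hz, rfl⟩) (fun z => rfl)
      (fun z hz => ?_) hb.le (by rw [sub_zero, hb])
      (by rw [norm_sub_rev]; exact hab) (fun x h1 h2 h3 => ⟨h2, h3, h1⟩) ρ hρ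
    have h0 : z.2.1 - eb F ≠ 0 := sub_ne_zero.2 (tng_roots hz).2.2
    show eb F * (z.2.1 - ea F) / (z.2.1 - eb F) = _
    field_simp
    ring

end Pool.Agent.WAR.H10
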