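import Pool.Agent.WAR.StmtsT

/-!
# Row DEN of squad WAR: admissible letters have dense domain
-/

namespace Pool.Agent.WAR.H12

open Classical

variable [Par]

theorem den (dna : DnaStmt) (dns : DnsStmt) (dnj : DnjStmt) : DenStmt := by
  intro F _ hF l hl V hVo hV
  have hc : CharZero F := by
    rcases hF with ⟨w, hw⟩ | h
    · exact hw.charZero
    · exact h.charZero
  have h2 : (2 : F) ≠ 0 := two_ne_zero
  obtain ⟨z, hz, hzU⟩ := hV
  cases l with
  | act a b c e => exact dna F hF a b c e hl V hVo ⟨z, hz, hzU⟩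
  | sw => exact ⟨z, hz, dns F h2 _ (Or.inl rfl) z hzU⟩
  | t0 => exact ⟨z, hz, dns F h2 _ (Or.inr (Or.inl rfl)) z hzU⟩
  | tp => exact ⟨z, hz, dns F h2 _ (Or.inr (Or.inr (Or.inl rfl))) z hzU⟩
  | tm => exact ⟨z, hz, dns F h2 _ (Or.inr (Or.inr (Or.inr rfl))) z hzU⟩
  | jj => exact dnj F hF _ rfl V hVo ⟨z, hz, hzU⟩

end Pool.Agent.WAR.H12
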