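import Pool.Agent.WAR.StmtsM
import Pool.Agent.WAR.Alg

/-!
# Row TWD of squad WAR: every 2-torsion point is the translation by a word
-/

namespace Pool.Agent.WAR.H12

open Classical Pool.Agent.WAR.G

variable [Par]

theorem twd : TwdStmt := by
  intro F _ _ h2 d hd T hT
  rcases hT with rfl | rfl | rfl | rfl
  · refine ⟨[], Or.inl rfl, fun P Q h => ?_⟩
    rw [add_zero]
    exact ⟨h, h, rfl⟩
  · refine ⟨[.t0], Or.inr (Or.inl rfl), fun P Q h => ?_⟩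
    obtain ⟨h1, h3⟩ := t0f_kum h2 h
    rw [h1] at h3
    exact ⟨h3, kum d P (Q + tor d 0), ⟨h, h3, h1.symm⟩, h3, rfl⟩
  · refine ⟨[.tp], Or.inr (Or.inr (Or.inl rfl)), fun P Q h => ?_⟩
    obtain ⟨h1, h3⟩ := tpf_kum h2 h
    rw [h1] at h3
    exact ⟨h3, kum d P (Q + tor d (ea F)), ⟨h, h3, h1.symm⟩, h3, rfl⟩
  · refine ⟨[.tm], Or.inr (Or.inr (Or.inr rfl)), fun P Q h => ?_⟩
    obtain ⟨h1, h3⟩ := tmf_kum h2 h
    rw [h1] at h3
    exact ⟨h3, kum d P (Q + tor d (eb F)), ⟨h, h3, h1.symm⟩, h3, rfl⟩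

end Pool.Agent.WAR.H12
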