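import Pool.Agent.WAR.StmtsL

/-!
# WAR row CCN: the shift `(a + b) / 3` is integral
-/

namespace Pool.Agent.WAR.H26

open Classical WeierstrassCurve.Affine

variable [Par]

theorem ccn : CcnStmt := by
  intro F _ ϖ hF
  have := hF.charZero
  have h3 : (3 : F) ≠ 0 := by exact_mod_cast (by norm_num : (3 : ℕ) ≠ 0)
  have h31 : ‖(3 : F)‖ ≤ 1 := by
    have h := hF.int 3
    rwa [map_ofNat] at h
  refine ⟨?_, h3, h31⟩
  have e1 : cc F = am F (Par.a + Par.b) / 3 := by
    unfold cc
    rw [map_add]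
    rfl
  by_cases hd : ϖ ∣ 3
  · have hϖ : ϖ = 3 := by
      have h1 : ϖ.natAbs ∣ 3 := by
        have := Int.natAbs_dvd_natAbs.mpr hd
        simpa using this
      have h2 : ϖ.natAbs = 1 ∨ ϖ.natAbs = 3 := (Nat.dvd_prime Nat.prime_three).mp h1
      have hp := hF.pos
      rcases h2 with h2 | h2
      · exfalso
        have : ϖ = 1 := by omega
        exact hF.prime.not_isUnit (by rw [this]; exact isUnit_one)
      · omega
    have ha := hF.gda
    have hb := hF.gdb
    have hab := hF.gdab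
    rw [hϖ] at ha hb hab
    have h4 : (Par.a : ℤ) % 3 = 1 ∨ (Par.a : ℤ) % 3 = 2 := by omega
    have h5 : (Par.b : ℤ) % 3 = 1 ∨ (Par.b : ℤ) % 3 = 2 := by omega
    have hs : (3 : ℤ) ∣ Par.a + Par.b := by
      rcases h4 with h4 | h4 <;> rcases h5 with h5 | h5 <;> omega
    obtain ⟨k, hk⟩ := hs
    rw [e1, hk, map_mul, map_ofNat, mul_comm, mul_div_assoc, div_self h3, mul_one]
    exact hF.int k
  · have h1 : ‖(3 : F)‖ = 1 := by
      have h := hF.norm_am hd
      rwa [map_ofNat] at h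
    rw [e1, norm_div, h1, div_one]
    exact hF.int _

end Pool.Agent.WAR.H26
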