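import Pool.Agent.WAR.StmtsL
import Pool.Agent.Helper32_WAR.H26_Core

/-!
# WAR row ZEQ: the shifted parameter
-/

namespace Pool.Agent.WAR.H26

open Classical WeierstrassCurve.Affine

variable [Par]

section shift
variable {F : Type} [NormedField F]

/-- coefficients of the short form -/
noncomputable def AA (d : F) : F := d ^ 2 * (ea F * eb F - 3 * cc F ^ 2)
noncomputable def BB (d : F) : F := d ^ 3 * (ea F * eb F * cc F - 2 * cc F ^ 3)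

theorem cc3 (h3 : (3 : F) ≠ 0) : ea F + eb F = 3 * cc F := by
  unfold cc
  field_simp

theorem shift_eq (h3 : (3 : F) ≠ 0) (d X : F) :
    X * (X - d * ea F) * (X - d * eb F) =
      (X - d * cc F) ^ 3 + AA d * (X - d * cc F) + BB d := by
  have h := cc3 (F := F) h3
  unfold AA BB
  linear_combination (-d * X ^ 2) * h

omit [Par] in
theorem mul_le_one' {x y : F} (hx : ‖x‖ ≤ 1) (hy : ‖y‖ ≤ 1) : ‖x * y‖ ≤ 1 := by
  rw [norm_mul]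
  calc ‖x‖ * ‖y‖ ≤ 1 * 1 := mul_le_mul hx hy (norm_nonneg _) zero_le_one
    _ = 1 := one_mul 1

omit [Par] in
theorem pow_le_one' {x : F} (hx : ‖x‖ ≤ 1) (n : ℕ) : ‖x ^ n‖ ≤ 1 := by
  rw [norm_pow]
  exact pow_le_one₀ (norm_nonneg _) hx

theorem norm_AA {ϖ : ℤ} (hF : IsLoc F ϖ) (hc : ‖cc F‖ ≤ 1) (h31 : ‖(3 : F)‖ ≤ 1) (d : F) :
    ‖AA d‖ ≤ ‖d‖ ^ 2 := by
  unfold AA
  rw [norm_mul, norm_pow]
  have h1 : ‖ea F * eb F - 3 * cc F ^ 2‖ ≤ 1 := by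
    refine (ult_sub hF.ultra _ _).trans (max_le ?_ ?_)
    · exact mul_le_one' hF.norm_ea.le hF.norm_eb.le
    · exact mul_le_one' h31 (pow_le_one' hc 2)
  calc ‖d‖ ^ 2 * ‖ea F * eb F - 3 * cc F ^ 2‖ ≤ ‖d‖ ^ 2 * 1 :=
        mul_le_mul_of_nonneg_left h1 (by positivity)
    _ = ‖d‖ ^ 2 := mul_one _

theorem norm_BB {ϖ : ℤ} (hF : IsLoc F ϖ) (hc : ‖cc F‖ ≤ 1) (d : F) :
    ‖BB d‖ ≤ ‖d‖ ^ 3 := by
  unfold BB
  rw [norm_mul, norm_pow]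
  have h1 : ‖ea F * eb F * cc F - 2 * cc F ^ 3‖ ≤ 1 := by
    refine (ult_sub hF.ultra _ _).trans (max_le ?_ ?_)
    · exact mul_le_one' (mul_le_one' hF.norm_ea.le hF.norm_eb.le) hc
    · exact mul_le_one' hF.norm_two.le (pow_le_one' hc 3)
  calc ‖d‖ ^ 3 * ‖ea F * eb F * cc F - 2 * cc F ^ 3‖ ≤ ‖d‖ ^ 3 * 1 :=
        mul_le_mul_of_nonneg_left h1 (by positivity)
    _ = ‖d‖ ^ 3 := mul_one _

theorem norm_shift {ϖ : ℤ} (hF : IsLoc F ϖ) (hc : ‖cc F‖ ≤ 1) {d X : F} (hX : ‖d‖ < ‖X‖) :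
    ‖X - d * cc F‖ = ‖X‖ := by
  have h1 : ‖-(d * cc F)‖ < ‖X‖ := by
    rw [norm_neg, norm_mul]
    refine lt_of_le_of_lt ?_ hX
    calc ‖d‖ * ‖cc F‖ ≤ ‖d‖ * 1 := mul_le_mul_of_nonneg_left hc (norm_nonneg _)
      _ = ‖d‖ := mul_one _
  have h2 := ult_eq hF.ultra h1
  rw [← h2]
  congr 1
  ring

end shift

theorem zeq (hCcn : CcnStmt) : ZeqStmt := by
  intro F _ ϖ hL d X Y hd hns hdX
  obtain ⟨hc, h3, h31⟩ := hCcn F ϖ hL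
  have hE : Y ^ 2 = X * (X - d * ea F) * (X - d * eb F) := (W_equation d X Y).1 hns.1
  rw [shift_eq h3] at hE
  have hd0 : 0 < ‖d‖ := norm_pos_iff.2 hd
  have hX0 : 0 < ‖X‖ := lt_trans hd0 hdX
  have hX : X ≠ 0 := norm_pos_iff.1 hX0
  have hs := norm_shift hL hc hdX
  have hdX' : ‖d‖ < ‖X - d * cc F‖ := by rw [hs]; exact hdX
  obtain ⟨hY, s1, s2⟩ := size hL.ultra hd0.le (norm_AA hL hc h31 d) (norm_BB hL hc d) hdX' hE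
  rw [hs] at s1
  have hq1 : qn F ϖ < 1 := (hL.lt_one ϖ).2 (dvd_refl ϖ)
  have hq0 : 0 < qn F ϖ := hL.uni
  refine ⟨hY, s1, s2, ?_, hq1, hs⟩
  have h3 : ‖(X - d * cc F) / Y‖ ^ 2 = 1 / ‖X‖ := by
    rw [eq_div_iff hX0.ne']
    linarith
  have h4 : ‖d‖ * ‖(X - d * cc F) / Y‖ ^ 2 = ‖d / X‖ := by
    rw [h3, norm_div]; ring
  rw [h4]
  obtain ⟨n, hn⟩ := hL.val (d / X) (div_ne_zero hd hX)
  have h5 : ‖d / X‖ < 1 := by
    rw [norm_div]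
    exact (div_lt_one hX0).2 hdX
  rw [hn] at h5 ⊢
  have hn1 : 1 ≤ n := by
    by_contra hc
    push Not at hc
    have h6 : n ≤ 0 := by omega
    have h7 : (1 : ℝ) ≤ ‖am F ϖ‖ ^ n := one_le_zpow_of_nonpos₀ hq0 hq1.le h6
    exact absurd h5 (not_lt.2 h7)
  calc ‖am F ϖ‖ ^ n ≤ ‖am F ϖ‖ ^ (1 : ℤ) := zpow_le_zpow_right_of_le_one₀ hq0 hq1.le hn1
    _ = qn F ϖ := by rw [zpow_one]; rfl

end Pool.Agent.WAR.H26
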