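import Pool.Agent.WAR.StmtsL
import Pool.Agent.Helper32_WAR.H26_Core
import Pool.Agent.Helper32_WAR.H26_ZEQ
import Pool.Agent.Helper32_WAR.H32_Add

/-!
# WAR row ZAL: addition in the kernel of reduction
-/

namespace Pool.Agent.WAR.H26

open Classical WeierstrassCurve.Affine

variable [Par]

section main
variable {F : Type} [NormedField F] {ϖ : ℤ}

theorem big_iff {d : F} (hd : d ≠ 0) (P : Pt d) (hP : P ≠ 0) :
    Big 1 P ↔ ‖d‖ < ‖cX P‖ := by
  unfold Big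
  rw [norm_div, lt_div_iff₀ (norm_pos_iff.mpr hd), one_mul]
  constructor
  · rintro (h | h)
    · exact absurd h hP
    · exact h
  · exact Or.inr

theorem big_of_shift {d : F} (hF : IsLoc F ϖ) (hc : ‖cc F‖ ≤ 1) {X : F}
    (h : ‖d‖ < ‖X - d * cc F‖) : ‖d‖ < ‖X‖ := by
  have h1 : ‖d * cc F‖ < ‖X - d * cc F‖ := by
    rw [norm_mul]
    refine lt_of_le_of_lt ?_ h
    calc ‖d‖ * ‖cc F‖ ≤ ‖d‖ * 1 := mul_le_mul_of_nonneg_left hc (norm_nonneg _)
      _ = ‖d‖ := mul_one _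
  have h2 := ult_eq hF.ultra h1
  have h3 : d * cc F + (X - d * cc F) = X := by ring
  rw [h3] at h2
  rw [h2]
  exact h

theorem zal (hCcn : CcnStmt) (zeq : ZeqStmt) : ZalStmt := by
  intro F _ ϖ hF d hd P Q hP hQ
  obtain ⟨hc, h3, h31⟩ := hCcn F ϖ hF
  have hu := hF.ultra
  have h2 := hF.two_ne
  have hrhs : 0 ≤ ‖d‖ ^ 2 * (max ‖zs P‖ ‖zs Q‖) ^ 5 := by positivity
  by_cases hP0 : P = 0
  · subst hP0
    rw [zero_add]
    refine ⟨hQ, ?_⟩
    rw [zs_zero, sub_zero, sub_self, norm_zero]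
    positivity
  by_cases hQ0 : Q = 0
  · subst hQ0
    rw [add_zero]
    refine ⟨hP, ?_⟩
    rw [zs_zero, sub_zero, sub_self, norm_zero]
    positivity
  rw [big_iff hd P hP0] at hP
  rw [big_iff hd Q hQ0] at hQ
  obtain ⟨n1, E1⟩ := H32.ne_zero_cases hP0
  obtain ⟨n2, E2⟩ := H32.ne_zero_cases hQ0
  obtain ⟨hY1, a1, b1, c1, hq1, r1⟩ := zeq F ϖ hF d _ _ hd n1 hP
  obtain ⟨hY2, a2, b2, c2, -, r2⟩ := zeq F ϖ hF d _ _ hd n2 hQ
  by_cases hneg : P = -Q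
  · subst hneg
    rw [neg_add_cancel]
    refine ⟨Or.inl rfl, ?_⟩
    have h5 : zs (-Q) = -zs Q := by
      show (cX (-Q) - d * cc F) / cY (-Q) = -((cX Q - d * cc F) / cY Q)
      rw [H32.cX_neg, H32.cY_neg, div_neg]
    rw [zs_zero, h5]
    have h6 : (0 : F) - -zs Q - zs Q = 0 := by ring
    rw [h6, norm_zero]
    positivity
  set M : ℝ := max ‖zs P‖ ‖zs Q‖ with hMdef
  have hX1 : cX P - d * cc F ≠ 0 := by
    intro h
    rw [h, norm_zero] at r1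
    rw [← r1] at hP
    exact absurd hP (not_lt.mpr (norm_nonneg d))
  have hz1p : 0 < ‖(cX P - d * cc F) / cY P‖ := norm_pos_iff.mpr (div_ne_zero hX1 hY1)
  have hM : 0 < M := lt_of_lt_of_le hz1p (le_max_left _ _)
  have hdM : ‖d‖ * M ^ 2 < 1 := by
    rcases le_total ‖zs P‖ ‖zs Q‖ with h | h
    · rw [hMdef, max_eq_right h]
      exact lt_of_le_of_lt c2 hq1
    · rw [hMdef, max_eq_left h]
      exact lt_of_le_of_lt c1 hq1
  have hz1 : ‖(cX P - d * cc F) / cY P‖ ≤ M := le_max_left _ _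
  have hz2 : ‖(cX Q - d * cc F) / cY Q‖ ≤ M := le_max_right _ _
  have hw : ∀ {X Y : F}, Y ≠ 0 → ‖Y‖ * ‖X / Y‖ ^ 3 = 1 → ‖X / Y‖ ≤ M → ‖1 / Y‖ ≤ M ^ 3 := by
    intro X Y hY hb hz
    have h1 : ‖1 / Y‖ = ‖X / Y‖ ^ 3 := by
      rw [norm_div, norm_one, div_eq_iff (norm_ne_zero_iff.mpr hY)]
      linarith
    rw [h1]
    exact pow_le_pow_left₀ (norm_nonneg _) hz 3
  have hw1 := hw hY1 b1 hz1
  have hw2 := hw hY2 b2 hz2
  have f1 := H32.eqn (P := P)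
  have f2 := H32.eqn (P := Q)
  have f3 := H32.eqn (P := P + Q)
  rw [shift_eq h3] at f1 f2 f3
  have hA := norm_AA hF hc h31 d
  have hB := norm_BB hF hc d
  have hs := cc3 (F := F) h3
  have hD1 : ‖d‖ < ‖cX P - d * cc F‖ := by rw [r1]; exact hP
  rw [← r1] at a1
  have fin : ∀ l : F, P + Q ≠ 0 →
      ((cX P - d * cc F ≠ cX Q - d * cc F ∧
        l * ((cX P - d * cc F) - (cX Q - d * cc F)) = cY P - cY Q) ∨
      (cX P - d * cc F = cX Q - d * cc F ∧ cY P = cY Q ∧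
        l * (2 * cY P) = 3 * (cX P - d * cc F) ^ 2 + AA d)) →
      cX (P + Q) - d * cc F = l ^ 2 - (cX P - d * cc F) - (cX Q - d * cc F) →
      cY (P + Q) = -(l * ((cX (P + Q) - d * cc F) - (cX P - d * cc F)) + cY P) →
      Big 1 (P + Q) ∧ ‖zs (P + Q) - zs P - zs Q‖ ≤ ‖d‖ ^ 2 * M ^ 5 := by
    intro l g0 hl g3 g4
    have h := core2 hu hF.norm_two.le h31 hM (norm_nonneg d) hA hB hdM hD1 hY1 hY2 a1 hz1 hz2
      hw1 hw2 f1 f2 f3 hl g3 g4
    exact ⟨(big_iff hd _ g0).mpr (big_of_shift hF hc h.1), h.2⟩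
  by_cases hx : cX P = cX Q
  · have hPQ : P = Q := by
      rcases H32.eq_or_neg hP0 hQ0 hx with h | h
      · exact h
      · exact absurd h hneg
    subst hPQ
    obtain ⟨g0, g3, g4⟩ := H32.add_self h2 hY1
    obtain ⟨l, hl⟩ : ∃ l : F, l = (3 * cX P ^ 2 - 2 * d * (ea F + eb F) * cX P +
      d ^ 2 * (ea F * eb F)) / (2 * cY P) := ⟨_, rfl⟩
    rw [← hl] at g3 g4
    have hl2 : l * (2 * cY P) = 3 * cX P ^ 2 - 2 * d * (ea F + eb F) * cX P +
        d ^ 2 * (ea F * eb F) := by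
      rw [hl]; exact div_mul_cancel₀ _ (mul_ne_zero h2 hY1)
    refine fin l g0 (Or.inr ⟨rfl, rfl, ?_⟩) ?_ ?_
    · rw [hl2]
      unfold AA
      linear_combination (-2 * d * cX P) * hs
    · rw [g3]
      linear_combination d * hs
    · rw [g4]
      ring
  · obtain ⟨g0, g3, g4⟩ := H32.add_ne hP0 hQ0 hx
    have hxs : cX P - cX Q ≠ 0 := sub_ne_zero.mpr hx
    obtain ⟨l, hl⟩ : ∃ l : F, l = (cY P - cY Q) / (cX P - cX Q) := ⟨_, rfl⟩
    rw [← hl] at g3 g4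
    have hl2 : l * (cX P - cX Q) = cY P - cY Q := by rw [hl]; exact div_mul_cancel₀ _ hxs
    refine fin l g0 (Or.inl ⟨?_, ?_⟩) ?_ ?_
    · intro h
      apply hx
      linear_combination h
    · rw [← hl2]
      ring
    · rw [g3]
      linear_combination d * hs
    · rw [g4]
      ring

end main

end Pool.Agent.WAR.H26
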