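import Pool.Agent.WAR.StmtsI

namespace Pool.Agent.WAR.H2

variable [Par]

open Classical Pool.Agent.WAR

theorem step_det {F : Type} [Field F] (l : Letter) (z z1 z2 : F × F × F)
    (h1 : Step l z z1) (h2 : Step l z z2) : z1 = z2 := by
  obtain ⟨-, -, h1⟩ := h1
  obtain ⟨-, -, h2⟩ := h2
  cases l with
  | act a b c e => exact h1.2.trans h2.2.symm
  | sw => exact h1.trans h2.symm
  | t0 => exact h1.trans h2.symm
  | tp => exact h1.trans h2.symm
  | tm => exact h1.trans h2.symm
  | jj => exact h1.2.trans h2.2.symm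

theorem fun' : FunStmt := by
  intro F _ L
  induction L with
  | nil =>
    intro z z1 z2 h1 h2
    exact h1.2.trans h2.2.symm
  | cons l L ih =>
    intro z z1 z2 h1 h2
    obtain ⟨u1, hs1, hr1⟩ := h1
    obtain ⟨u2, hs2, hr2⟩ := h2
    have h3 := step_det l z u1 u2 hs1 hs2
    subst h3
    exact ih u1 z1 z2 hr1 hr2

end Pool.Agent.WAR.H2
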