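import Pool.Agent.WAR.StmtsI

/-!
# Row RUD: domains and ranges of words of admissible letters are dense
-/

namespace Pool.Agent.WAR.H2

variable [Par]

open Classical

theorem inv_inv' (l : Letter) : l.inv.inv = l := by
  cases l <;> simp [Letter.inv]

theorem inv_ok (l : Letter) (h : l.ok) : l.inv.ok := by
  cases l with
  | act a b c e =>
    show e * a - (-b) * (-c) = 1
    have h1 : a * e - b * c = 1 := h
    linear_combination h1
  | sw => trivial
  | t0 => trivial
  | tp => trivial
  | tm => trivial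
  | jj => trivial

theorem invW_invW (L : List Letter) : invW (invW L) = L := by
  unfold invW
  rw [List.map_reverse, List.reverse_reverse, List.map_map]
  have h : (Letter.inv ∘ Letter.inv) = id := by
    funext l
    exact inv_inv' l
  rw [h, List.map_id]

theorem invW_ok (L : List Letter) (h : ∀ l ∈ L, l.ok) : ∀ l ∈ invW L, l.ok := by
  intro l hl
  unfold invW at hl
  rw [List.mem_reverse, List.mem_map] at hl
  obtain ⟨m, hm, rfl⟩ := hl
  exact inv_ok m (h m hm)

theorem two_ne_zero_of_isLC {F : Type} [NormedField F]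
    (h : IsLC F) : (2 : F) ≠ 0 := by
  rcases h with ⟨w, hw⟩ | hs
  · exact hw.two_ne
  · haveI := hs.charZero
    exact two_ne_zero

theorem gd_of_isLC {F : Type} [NormedField F] (h : IsLC F) : Gd F := by
  rcases h with ⟨w, hw⟩ | hs
  · exact hw.gd
  · haveI := hs.charZero
    infer_instance

theorem step_onU {F : Type} [Field F] {l : Letter}
    {z z' : F × F × F} (h : Step l z z') : OnU z ∧ OnU z' := ⟨h.1, h.2.1⟩

theorem rud (inv : InvStmt) (con : ConStmt) (den : DenStmt) (app : AppStmt) (rui : RuiStmt) :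
    RudStmt := by
  intro F _ hF
  have h2 := two_ne_zero_of_isLC hF
  haveI := gd_of_isLC hF
  have dom : ∀ L : List Letter, (∀ l ∈ L, l.ok) → ∀ V : Set (F × F × F), IsOpen V →
      (∃ z ∈ V, OnU z) → ∃ z ∈ V, ∃ z', Run L z z' := by
    intro L
    induction L with
    | nil =>
      intro _ V _ hV
      obtain ⟨z, hz, hz2⟩ := hV
      exact ⟨z, hz, z, hz2, rfl⟩
    | cons l M ih =>
      intro hok V hVo hV
      obtain ⟨z, hz, z1, hz1⟩ := den F hF l (hok l (by simp)) V hVo hV
      obtain ⟨O, hO, hzO, hOs⟩ := con F hF l.inv z1 z (inv F h2 l z z1 hz1) V hVo hz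
      obtain ⟨y, hy, y2, hy2⟩ := ih (fun m hm => hok m (by simp [hm])) O hO
        ⟨z1, hzO, hz1.2.1⟩
      have hyU : OnU y := ((app F M [] y y2).2 hy2).1
      obtain ⟨y', hy', hs⟩ := hOs y hy hyU
      have hs2 := inv F h2 l.inv y y' hs
      rw [inv_inv'] at hs2
      exact ⟨y', hy', y2, y, hs2, hy2⟩
  intro L hok V hVo hV
  refine ⟨dom L hok V hVo hV, ?_⟩
  obtain ⟨z, hz, z', hz'⟩ := dom (invW L) (invW_ok L hok) V hVo hV
  have h3 := rui F h2 (invW L) z z' hz'
  rw [invW_invW] at h3
  exact ⟨z', z, hz, h3⟩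

end Pool.Agent.WAR.H2
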