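import Pool.Agent.WAR.StmtsI
import Pool.Agent.Helper32_WAR.H2_RUD

set_option autoImplicit false

/-!
# Part I of WAR: the relation `RR` and the main step
-/

namespace Pool.Agent.WAR.H2

variable [Par]

theorem rtr (ruc : RucStmt) (app : AppStmt) : RtrStmt := by
  intro ι F _ ϖ S q hloc z1 z2 z3 h12 h23
  obtain ⟨hU1, hU2, h12⟩ := h12
  obtain ⟨-, hU3, h23⟩ := h23
  refine ⟨hU1, hU3, fun B hB hwB u O hO => ?_⟩
  have lc : ∀ v, IsLC (F v) := fun v => Or.inl ⟨ϖ v, hloc v⟩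
  obtain ⟨L2, hok2, hS2, w2, hw2B, hr2⟩ := h23 B hB hwB u O hO
  obtain ⟨B2, hB2, hz2, hB2r⟩ := ruc (F q) (lc q) L2 z2 w2 hr2 B hB hw2B
  have h1 : ∀ v, ∃ (u2 : F v × F v × F v) (O' : Set (F v × F v × F v)), v ∈ S →
      OnU u2 ∧ IsOpen O' ∧ u2 ∈ O' ∧ O' ⊆ O v ∧
        ∀ z ∈ O', OnU z → ∃ w ∈ O v, Run L2 z w := by
    intro v
    by_cases hv : v ∈ S
    · obtain ⟨u2, hu2, w2, hw2, hr⟩ := hS2 v hv
      obtain ⟨O1, hO1, huO1, h3⟩ := ruc (F v) (lc v) L2 u2 w2 hr (O v) (hO v hv).2.1 hw2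
      exact ⟨u2, O1 ∩ O v, fun _ => ⟨((app (F v) L2 [] u2 w2).2 hr).1,
        hO1.inter (hO v hv).2.1, ⟨huO1, hu2⟩, Set.inter_subset_right,
        fun z hz hzU => h3 z hz.1 hzU⟩⟩
    · exact ⟨(0, 0, 0), ∅, fun h => absurd h hv⟩
  choose u2 O' hO' using h1
  obtain ⟨L1, hok1, hS1, w1, hw1, hr1⟩ := h12 B2 hB2 hz2 u2 O'
    (fun v hv => ⟨(hO' v hv).1, (hO' v hv).2.1, (hO' v hv).2.2.1⟩)
  obtain ⟨w3, hw3, hr3⟩ := hB2r w1 hw1 ((app (F q) L1 [] z1 w1).2 hr1).2.1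
  refine ⟨L1 ++ L2, ?_, ?_, w3, hw3, (app (F q) L1 L2 z1 w3).1.2 ⟨w1, hr1, hr3⟩⟩
  · intro l hl
    rcases List.mem_append.1 hl with h | h
    · exact hok1 l h
    · exact hok2 l h
  · intro v hv
    obtain ⟨u', hu', w', hw', hr⟩ := hS1 v hv
    obtain ⟨w4, hw4, hr4⟩ := (hO' v hv).2.2.2.2 w' hw' ((app (F v) L1 [] u' w').2 hr).2.1
    exact ⟨u', (hO' v hv).2.2.2.1 hu', w4, hw4, (app (F v) L1 L2 u' w4).1.2 ⟨w', hr, hr4⟩⟩

theorem rcj (ruc : RucStmt) (rud : RudStmt) (rui : RuiStmt) (app : AppStmt) : RcjStmt := by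
  intro ι F _ ϖ S q hloc A z w z1 w1 hzw hz hw
  obtain ⟨hUz, hUw, hzw⟩ := hzw
  have lc : ∀ v, IsLC (F v) := fun v => Or.inl ⟨ϖ v, hloc v⟩
  have hgd : ∀ v, Gd (F v) := fun v => (hloc v).gd
  obtain ⟨-, hz2, hokA⟩ := (app (F q) A [] z z1).2 hz
  obtain ⟨-, hw2, -⟩ := (app (F q) A [] w w1).2 hw
  refine ⟨hz2, hw2, fun B hB hw1B u O hO => ?_⟩
  obtain ⟨B', hB', hwB', hBr⟩ := ruc (F q) (lc q) A w w1 hw B hB hw1B
  have h1 : ∀ v, ∃ (q1 : F v × F v × F v) (Q : Set (F v × F v × F v)), v ∈ S →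
      OnU q1 ∧ IsOpen Q ∧ q1 ∈ Q ∧ ∀ y ∈ Q, OnU y → ∃ y' ∈ O v, Run A y y' := by
    intro v
    by_cases hv : v ∈ S
    · obtain ⟨q1, u1, hu1, hr⟩ := (rud (F v) (lc v) A hokA (O v) (hO v hv).2.1
        ⟨u v, (hO v hv).2.2, (hO v hv).1⟩).2
      obtain ⟨Q, hQ, hqQ, h3⟩ := ruc (F v) (lc v) A q1 u1 hr (O v) (hO v hv).2.1 hu1
      exact ⟨q1, Q, fun _ => ⟨((app (F v) A [] q1 u1).2 hr).1, hQ, hqQ, h3⟩⟩
    · exact ⟨(0, 0, 0), ∅, fun h => absurd h hv⟩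
  choose q1 Q hQ using h1
  obtain ⟨L, hokL, hSL, w', hw', hrL⟩ := hzw B' hB' hwB' q1 Q
    (fun v hv => ⟨(hQ v hv).1, (hQ v hv).2.1, (hQ v hv).2.2.1⟩)
  obtain ⟨w2, hw2B, hr2⟩ := hBr w' hw' ((app (F q) L [] z w').2 hrL).2.1
  have inv1 : ∀ (v : ι) (y y' : F v × F v × F v), Run A y y' → Run (invW A) y' y := by
    intro v y y' h
    haveI := hgd v
    exact rui (F v) (hloc v).two_ne A y y' h
  refine ⟨invW A ++ (L ++ A), ?_, ?_, w2, hw2B, ?_⟩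
  · intro l hl
    rcases List.mem_append.1 hl with h | h
    · exact invW_ok A hokA l h
    · rcases List.mem_append.1 h with h | h
      · exact hokL l h
      · exact hokA l h
  · intro v hv
    obtain ⟨q2, hq2, q3, hq3, hr⟩ := hSL v hv
    obtain ⟨hUq2, hUq3, -⟩ := (app (F v) L [] q2 q3).2 hr
    obtain ⟨y2, hy2, hry2⟩ := (hQ v hv).2.2.2 q2 hq2 hUq2
    obtain ⟨y3, hy3, hry3⟩ := (hQ v hv).2.2.2 q3 hq3 hUq3
    exact ⟨y2, hy2, y3, hy3, (app (F v) (invW A) (L ++ A) y2 y3).1.2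
      ⟨q2, inv1 v q2 y2 hry2, (app (F v) L A q2 y3).1.2 ⟨q3, hr, hry3⟩⟩⟩
  · exact (app (F q) (invW A) (L ++ A) z1 w2).1.2
      ⟨z, inv1 q z z1 hz, (app (F q) L A z w2).1.2 ⟨w', hrL, hr2⟩⟩

theorem run_one {F : Type} [Field F] {l : Letter} {z z' : F × F × F} (h : Step l z z') :
    Run [l] z z' := ⟨z', h, h.2.1, rfl⟩

theorem rbs (sap : SapStmt) (mcn : McnStmt) : RbsStmt := by
  intro ι F _ ϖ S q hfam hqS hle a b c e z w hz1 hz2 hst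
  refine ⟨hst.1, hst.2.1, fun B hB hwB u O hO => ?_⟩
  have hdet : a * e - b * c = 1 := hst.2.2.1
  obtain ⟨N, hN⟩ := mcn (F q) (ϖ q) (hfam.1 q) a b c e hdet z w hz1 hz2 hst B hB hwB
  have hne : ∀ v ∈ S, ϖ v ≠ ϖ q := by
    intro v hv
    apply hfam.2
    rintro rfl
    exact hqS hv
  obtain ⟨a', b', c', e', hd', h1, h2, h3, h4, hs⟩ := sap ι F ϖ S (ϖ q) (fun v _ => hfam.1 v)
    (hfam.1 q).prime (hfam.1 q).odd hne hle u O hO a b c e hdet N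
  obtain ⟨z1, hz1B, hst1⟩ := hN a' b' c' e' hd' h1 h2 h3 h4
  refine ⟨[.act a' b' c' e'], ?_, ?_, z1, hz1B, run_one hst1⟩
  · intro l hl
    rw [List.mem_singleton] at hl
    subst hl
    exact hd'
  · intro v hv
    obtain ⟨w', hw', hst'⟩ := hs v hv
    exact ⟨u v, (hO v hv).2.2, w', hw', run_one hst'⟩

theorem nearE_mono {F : Type} [NormedField F] {m0 m1 : F} {r : ℝ} {z : F × F × F} (hr : 0 < r)
    (hm : ‖m0 - m1‖ < r / 2) (h : NearE m0 (r / 2) z) : NearE m1 r z := by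
  obtain ⟨h1, h2, h3, h4⟩ := h
  have h5 : 1 / r ≤ 1 / (r / 2) := one_div_le_one_div_of_le (by positivity) (by linarith)
  refine ⟨h1, lt_of_le_of_lt h5 h2, lt_of_le_of_lt h5 h3, ?_⟩
  have h6 : mz z - m1 = (mz z - m0) + (m0 - m1) := by ring
  calc ‖mz z - m1‖ = ‖(mz z - m0) + (m0 - m1)‖ := by rw [h6]
    _ ≤ ‖mz z - m0‖ + ‖m0 - m1‖ := norm_add_le _ _
    _ < r / 2 + r / 2 := add_lt_add h4 hm
    _ = r := by ring

theorem nearE_le {F : Type} [NormedField F] {m0 : F} {r s : ℝ} {z : F × F × F} (hr : 0 < r)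
    (hrs : r ≤ s) (h : NearE m0 r z) : NearE m0 s z := by
  obtain ⟨h1, h2, h3, h4⟩ := h
  have h5 : 1 / s ≤ 1 / r := one_div_le_one_div_of_le hr hrs
  exact ⟨h1, lt_of_le_of_lt h5 h2, lt_of_le_of_lt h5 h3, lt_of_lt_of_le h4 hrs⟩

theorem nearE_one {F : Type} [NormedField F] {m0 : F} {r : ℝ} {z : F × F × F} (hr : 0 < r)
    (hr1 : r ≤ 1) (h : NearE m0 r z) : 1 < ‖z.1‖ ∧ 1 < ‖z.2.1‖ := by
  obtain ⟨h1, h2, h3, h4⟩ := nearE_le hr hr1 h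
  rw [one_div_one] at h2 h3
  exact ⟨h2, h3⟩

theorem rjg (apx : ApxStmt) (mee : MeeStmt) (jco : JcoStmt) (jne : JneStmt) (rbs : RbsStmt)
    (rcj : RcjStmt) (inv : InvStmt) : RjgStmt := by
  intro ι F _ ϖ S q hfam hqS hle x1 r hr hgood
  have hL := hfam.1 q
  haveI := hL.gd
  obtain ⟨r2, hr2, hjne⟩ := jne (F q) (ϖ q) hL x1 r hr hgood
  have hm1 : ea (F q) * eb (F q) / ((ea (F q) - eb (F q)) * x1) ≠ 0 :=
    div_ne_zero (mul_ne_zero (ea_ne _) (eb_ne _)) (mul_ne_zero (eab_ne _) hgood.1)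
  obtain ⟨a, b, c, e, hdet, ha0, hc0, happ⟩ := apx (F q) (ϖ q) hL _ (r2 / 2) hm1 (by positivity)
  obtain ⟨r3, hr3, hmee⟩ := mee (F q) (ϖ q) hL a b c e (r2 / 2) hdet ha0 hc0 (by positivity)
  have hmin : 0 < min r3 1 := lt_min hr3 one_pos
  obtain ⟨r', hr', hjco⟩ := jco (F q) (ϖ q) hL (min r3 1) hmin
  refine ⟨r', hr', fun z hz => ?_⟩
  obtain ⟨z2, hst2, hz2⟩ := hjco z hz
  obtain ⟨z3, hst3, hz3⟩ := hmee z2 (nearE_le hmin (min_le_left _ _) hz2)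
  obtain ⟨w, hstw, hw⟩ := hjne z3 (nearE_mono hr2 happ hz3)
  obtain ⟨n1, n2⟩ := nearE_one hmin (min_le_right _ _) hz2
  refine ⟨w, hw, ?_⟩
  exact rcj ι F ϖ S q hfam.1 [.jj] z2 z3 z w
    (rbs ι F ϖ S q hfam hqS hle a b c e z2 z3 n1 n2 hst3)
    (run_one (inv (F q) hL.two_ne .jj z z2 hst2)) (run_one hstw)

/-- the letters `sw, t0, tp, tm` are defined everywhere. -/
def DnsP : Prop :=
  ∀ (F : Type) [NormedField F] [Gd F], (2 : F) ≠ 0 →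
  ∀ l : Letter, (l = .sw ∨ l = .t0 ∨ l = .tp ∨ l = .tm) → ∀ z : F × F × F, OnU z →
    ∃ z', Step l z z'

theorem swf_swf {F : Type} (z : F × F × F) : swf (swf z) = z := rfl

theorem rtg (rjg : RjgStmt) (tng : TngStmt) (swe : SweStmt) (rbs : RbsStmt) (rcj : RcjStmt)
    (rtr : RtrStmt) (rui : RuiStmt) (dns : DnsP) (onUsw : ∀ (F : Type) [Field F]
      (z : F × F × F), OnU z → OnU (swf z)) : RtgStmt := by
  intro ι F _ ϖ S q hfam hqS hle t ρ ht hρ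
  have hL := hfam.1 q
  haveI := hL.gd
  obtain ⟨a, b, c, e, r0, hdet, hr0, hswe⟩ := swe (F q) (ϖ q) hL ρ hρ
  have hmin : 0 < min r0 1 := lt_min hr0 one_pos
  have hne : ∀ l : Letter, (l = .t0 ∨ l = .tp ∨ l = .tm) →
      ∃ r' : ℝ, 0 < r' ∧ ∀ z : F q × F q × F q,
      NearE 0 r' z → ∃ y w, NearE 0 ρ y ∧ Run ([l] ++ [.sw]) y w ∧ RR F S q z w := by
    intro l hl
    obtain ⟨x1, r1, hr1, hgood, htng⟩ := tng (F q) (ϖ q) hL l hl (min r0 1) hmin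
    obtain ⟨r', hr', hrjg⟩ := rjg ι F ϖ S q hfam hqS hle x1 r1 hr1 hgood
    refine ⟨r', hr', fun z hz => ?_⟩
    obtain ⟨w1, hw1, hRR1⟩ := hrjg z hz
    obtain ⟨y1, hrun1, hy1⟩ := htng w1 hw1
    have hinv : Run [.sw, l, .sw] y1 w1 := by
      have h := rui (F q) hL.two_ne _ _ _ hrun1
      have e1 : invW [Letter.sw, l, Letter.sw] = [Letter.sw, l, Letter.sw] := by
        rcases hl with rfl | rfl | rfl <;> simp [invW, Letter.inv]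
      rwa [e1] at h
    obtain ⟨y2, hst2, hy2⟩ := hswe y1 (nearE_le hmin (min_le_left _ _) hy1)
    obtain ⟨n1, n2⟩ := nearE_one hmin (min_le_right _ _) hy1
    have hRR2 := rbs ι F ϖ S q hfam hqS hle a b c e y1 y2 n1 n2 hst2
    have hUy : OnU (swf y2) := hy2.1
    obtain ⟨y3, hst3⟩ := dns (F q) hL.two_ne l (Or.inr hl) (swf y2) hUy
    have hUy3 := onUsw (F q) y3 hst3.2.1
    have hrunA : Run [.sw, l, .sw] y2 (swf y3) :=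
      ⟨swf y2, ⟨hst2.2.1, hUy, rfl⟩, y3, hst3, swf y3, ⟨hst3.2.1, hUy3, rfl⟩, hUy3, rfl⟩
    refine ⟨swf y2, swf y3, hy2, ⟨y3, hst3, swf y3, ⟨hst3.2.1, hUy3, rfl⟩, hUy3, rfl⟩, ?_⟩
    exact rtr ι F ϖ S q hfam.1 z w1 (swf y3) hRR1
      (rcj ι F ϖ S q hfam.1 [.sw, l, .sw] y1 y2 w1 (swf y3) hRR2 hinv hrunA)
  rcases ht with rfl | rfl | rfl | rfl
  · refine ⟨min r0 1, hmin, fun z hz => ?_⟩
    obtain ⟨w, hst, hw⟩ := hswe z (nearE_le hmin (min_le_left _ _) hz)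
    obtain ⟨n1, n2⟩ := nearE_one hmin (min_le_right _ _) hz
    refine ⟨swf w, w, hw, ?_, rbs ι F ϖ S q hfam hqS hle a b c e z w n1 n2 hst⟩
    exact ⟨w, ⟨hw.1, hst.2.1, (swf_swf w).symm⟩, hst.2.1, rfl⟩
  · exact hne _ (Or.inl rfl)
  · exact hne _ (Or.inr (Or.inl rfl))
  · exact hne _ (Or.inr (Or.inr rfl))

end Pool.Agent.WAR.H2
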