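import Pool.Agent.WAR.StmtsI

namespace Pool.Agent.WAR.H2

variable [Par]

open Classical Pool.Agent.WAR

theorem rui (hI : InvStmt) (hA : AppStmt) : RuiStmt := by
  intro F _ _ h2 L
  induction L with
  | nil =>
    intro z z' h
    obtain ⟨h1, h2⟩ := h
    subst h2
    exact ⟨h1, rfl⟩
  | cons l L ih =>
    intro z z' h
    obtain ⟨z1, hs, hr⟩ := h
    have h3 : Step l.inv z1 z := hI F h2 l z z1 hs
    have h4 : Run (invW L) z' z1 := ih z1 z' hr
    have h5 : invW (l :: L) = invW L ++ [l.inv] := by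
      simp [invW]
    rw [h5]
    refine ((hA F (invW L) [l.inv] z' z).1).2 ⟨z1, h4, z, h3, ?_⟩
    exact ⟨h3.2.1, rfl⟩

end Pool.Agent.WAR.H2
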