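import Pool.Agent.WAR.StmtsT
import Pool.Agent.Helper32_WAR.H32_Add

/-! Squad WAR, row DIF: converse of TRX (nearby points differ by a point near the origin). -/

set_option autoImplicit false

namespace Pool.Agent.WAR.H30

open Classical

variable [Par]

theorem dif : DifStmt := by
  intro F _ hF d hd P0 hY0 N
  have h2 := hF.two
  have hc : 0 < ‖2 * cY P0‖ := norm_pos_iff.mpr (mul_ne_zero h2 hY0)
  obtain ⟨c, hcdef⟩ : ∃ c, c = ‖2 * cY P0‖ := ⟨_, rfl⟩
  rw [← hcdef] at hc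
  obtain ⟨M, hM⟩ : ∃ M, M = |N| * ‖d‖ + 2 * ‖cX P0‖ + 1 + ‖d * (ea F + eb F)‖ := ⟨_, rfl⟩
  have hS0 : 0 ≤ ‖d * (ea F + eb F)‖ := norm_nonneg _
  have hM1 : 1 ≤ M := by
    rw [hM]
    have : 0 ≤ |N| * ‖d‖ := by positivity
    have : 0 ≤ ‖cX P0‖ := norm_nonneg _
    linarith
  have hM0 : 0 < M := by linarith
  have hε : 0 < min 1 (c / (4 * M)) := lt_min one_pos (by positivity)
  refine ⟨min 1 (c / (4 * M)), hε, ?_⟩
  intro P hP hX hY
  have hX1 : ‖cX P - cX P0‖ < 1 := lt_of_lt_of_le hX (min_le_left _ _)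
  have hX2 : ‖cX P - cX P0‖ < c / (4 * M) := lt_of_lt_of_le hX (min_le_right _ _)
  have hY2 : ‖cY P - cY P0‖ < c / (4 * M) := lt_of_lt_of_le hY (min_le_right _ _)
  have hcM : c / (4 * M) ≤ c / 4 := by
    rw [div_le_div_iff₀ (by positivity) (by norm_num)]
    nlinarith
  have hP0 : P0 ≠ 0 := H32.ne_zero_of_cY hY0
  have hY3 : c / 2 < ‖cY P + cY P0‖ := by
    have h3 : 2 * cY P0 = (cY P + cY P0) - (cY P - cY P0) := by ring
    have h4 : c ≤ ‖cY P + cY P0‖ + ‖cY P - cY P0‖ := by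
      rw [hcdef, h3]
      exact norm_sub_le _ _
    linarith
  by_cases hx : cX P = cX P0
  · rcases H32.eq_or_neg hP hP0 hx with h | h
    · left
      rw [h, sub_self]
    · exfalso
      rw [h, H32.cY_neg] at hY3
      rw [neg_add_cancel, norm_zero] at hY3
      linarith
  · right
    have hN0 : -P0 ≠ 0 := neg_ne_zero.mpr hP0
    obtain ⟨-, h3, -⟩ := H32.add_ne hP hN0 (by rw [H32.cX_neg]; exact hx)
    rw [H32.cX_neg, H32.cY_neg, sub_neg_eq_add] at h3
    have hsub : P - P0 = P + -P0 := rfl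
    rw [hsub, h3, norm_div]
    rw [lt_div_iff₀ (norm_pos_iff.mpr hd)]
    have hxx : 0 < ‖cX P - cX P0‖ := norm_pos_iff.mpr (sub_ne_zero.mpr hx)
    have hq : 2 * M < ‖(cY P + cY P0) / (cX P - cX P0)‖ := by
      rw [norm_div, lt_div_iff₀ hxx]
      have h5 : 2 * M * ‖cX P - cX P0‖ < 2 * M * (c / (4 * M)) :=
        mul_lt_mul_of_pos_left hX2 (by positivity)
      have h6 : 2 * M * (c / (4 * M)) = c / 2 := by
        field_simp
        ring
      linarith
    have hq2 : M < ‖((cY P + cY P0) / (cX P - cX P0)) ^ 2‖ := by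
      rw [norm_pow]
      nlinarith
    have hX3 : ‖cX P‖ ≤ ‖cX P0‖ + 1 := by
      have h5 : cX P = cX P0 + (cX P - cX P0) := by ring
      rw [h5]
      refine le_trans (norm_add_le _ _) ?_
      linarith
    have h7 : ((cY P + cY P0) / (cX P - cX P0)) ^ 2 =
        (((cY P + cY P0) / (cX P - cX P0)) ^ 2 + d * (ea F + eb F) - cX P - cX P0) +
          (cX P + cX P0 - d * (ea F + eb F)) := by ring
    have h8 : ‖((cY P + cY P0) / (cX P - cX P0)) ^ 2‖ ≤
        ‖((cY P + cY P0) / (cX P - cX P0)) ^ 2 + d * (ea F + eb F) - cX P - cX P0‖ +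
          (‖cX P‖ + ‖cX P0‖ + ‖d * (ea F + eb F)‖) := by
      calc ‖((cY P + cY P0) / (cX P - cX P0)) ^ 2‖
          = ‖(((cY P + cY P0) / (cX P - cX P0)) ^ 2 + d * (ea F + eb F) - cX P - cX P0) +
              (cX P + cX P0 - d * (ea F + eb F))‖ := by
            rw [← h7]
        _ ≤ ‖((cY P + cY P0) / (cX P - cX P0)) ^ 2 + d * (ea F + eb F) - cX P - cX P0‖ +
              ‖cX P + cX P0 - d * (ea F + eb F)‖ :=
            norm_add_le _ _
        _ ≤ _ := by
            have := norm_add_le (cX P) (cX P0)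
            have := norm_sub_le (cX P + cX P0) (d * (ea F + eb F))
            linarith
    have h9 : N * ‖d‖ ≤ |N| * ‖d‖ := mul_le_mul_of_nonneg_right (le_abs_self N) (norm_nonneg _)
    linarith

end Pool.Agent.WAR.H30

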