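import Pool.Agent.WAR.Defs
import Pool.Agent.Helper32_WAR.H32_Add

/-!
# WAR, part T (helper32): points near the origin
-/

namespace Pool.Agent.WAR.H32

open WeierstrassCurve WeierstrassCurve.Affine

variable [Par]

/-- the two coefficients of the curve: `Y ^ 2 = X ^ 3 + A2 X ^ 2 + A4 X` -/
def A2 {F : Type} [Field F] (d : F) : F := -(d * (ea F + eb F))
def A4 {F : Type} [Field F] (d : F) : F := d ^ 2 * (ea F * eb F)

theorem eqn' {F : Type} [Field F] {d : F} {P : (W d).Point} :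
    cY P ^ 2 = cX P ^ 3 + A2 d * cX P ^ 2 + A4 d * cX P := by
  rw [eqn (P := P)]
  unfold A2 A4
  ring

/-- relation between `z = X / Y` and `u = 1 / X` -/
theorem zu_rel {F : Type} [Field F] {d : F} {p : (W d).Point} (hY : cY p ≠ 0) :
    (cX p)⁻¹ = cz p ^ 2 * (1 + A2 d * (cX p)⁻¹ + A4 d * ((cX p)⁻¹) ^ 2) := by
  have e := eqn' (P := p)
  have hX : cX p ≠ 0 := by
    intro h
    rw [h] at e
    apply hY
    apply pow_eq_zero_iff (two_ne_zero) |>.mp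
    rw [e]; ring
  unfold cz
  rw [div_pow]
  have h3 : cY p ^ 2 ≠ 0 := pow_ne_zero 2 hY
  have h5 : 1 + A2 d * (cX p)⁻¹ + A4 d * ((cX p)⁻¹) ^ 2 = cY p ^ 2 / cX p ^ 3 := by
    rw [e]
    field_simp
  rw [h5]
  field_simp

/-- Points near the origin: coordinates `1 / X`, `X / Y`, `Y / X ^ 2` are small. -/
theorem near {F : Type} [NormedField F] {d : F} (hd : d ≠ 0) {δ : ℝ} (hδ : 0 < δ) :
    ∃ N : ℝ, 0 < N ∧ ∀ p : (W d).Point, Big N p → p = 0 ∨ (cX p ≠ 0 ∧ cY p ≠ 0 ∧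
      ‖(cX p)⁻¹‖ < δ ∧ ‖cz p‖ < δ ∧ ‖cY p / cX p ^ 2‖ < δ) := by
  have hd0 : 0 < ‖d‖ := norm_pos_iff.mpr hd
  set M : ℝ := ‖A2 d‖ + ‖A4 d‖ + 1 with hM
  have hM0 : 0 < M := by positivity
  set η : ℝ := min (min δ (δ ^ 2 / 2)) (1 / (4 * M)) with hη
  have hη0 : 0 < η := lt_min (lt_min hδ (by positivity)) (by positivity)
  have hη1 : η ≤ δ := le_trans (min_le_left _ _) (min_le_left _ _)
  have hη2 : η ≤ δ ^ 2 / 2 := le_trans (min_le_left _ _) (min_le_right _ _)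
  have hη3 : η ≤ 1 / (4 * M) := min_le_right _ _
  have hη4 : η ≤ 1 := by
    refine le_trans hη3 ?_
    rw [div_le_one (by positivity)]
    have h1 : 0 ≤ ‖A2 d‖ := norm_nonneg _
    have h2 : 0 ≤ ‖A4 d‖ := norm_nonneg _
    linarith
  refine ⟨1 / (η * ‖d‖), by positivity, ?_⟩
  intro p hp
  rcases hp with hp | hp
  · exact Or.inl hp
  right
  have hq : 0 < 1 / (η * ‖d‖) := by positivity
  rw [norm_div, lt_div_iff₀ hd0] at hp
  have hX0 : 0 < ‖cX p‖ := lt_trans (by positivity) hp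
  have hX : cX p ≠ 0 := norm_pos_iff.mp hX0
  have hXe : 1 / η < ‖cX p‖ := by
    have h1 : 1 / (η * ‖d‖) * ‖d‖ = 1 / η := by field_simp
    linarith [h1]
  set u := (cX p)⁻¹ with hu
  have hun : ‖u‖ < η := by
    rw [hu, norm_inv]
    rw [inv_lt_comm₀ hX0 hη0]
    rwa [one_div] at hXe
  have hdu : ‖A2 d * u + A4 d * u ^ 2‖ ≤ 1 / 4 := by
    have h0 : 0 ≤ ‖u‖ := norm_nonneg _
    have h1 : ‖A2 d * u + A4 d * u ^ 2‖ ≤ ‖A2 d‖ * ‖u‖ + ‖A4 d‖ * ‖u‖ ^ 2 := by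
      refine (norm_add_le _ _).trans ?_
      rw [norm_mul, norm_mul, norm_pow]
    have h2 : ‖u‖ ^ 2 ≤ ‖u‖ := by nlinarith
    have h3 : ‖A4 d‖ * ‖u‖ ^ 2 ≤ ‖A4 d‖ * ‖u‖ := mul_le_mul_of_nonneg_left h2 (norm_nonneg _)
    have h4 : M * ‖u‖ ≤ 1 / 4 := by
      have h5 : ‖u‖ ≤ 1 / (4 * M) := le_trans hun.le hη3
      rw [le_div_iff₀ (by positivity)] at h5
      linarith
    have h6 : M * ‖u‖ = ‖A2 d‖ * ‖u‖ + ‖A4 d‖ * ‖u‖ + ‖u‖ := by rw [hM]; ring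
    linarith
  have hsum : 1 + A2 d * u + A4 d * u ^ 2 = 1 - (-(A2 d * u + A4 d * u ^ 2)) := by ring
  have hlo : 3 / 4 ≤ ‖1 + A2 d * u + A4 d * u ^ 2‖ := by
    rw [hsum]
    have := norm_sub_norm_le (1 : F) (-(A2 d * u + A4 d * u ^ 2))
    rw [norm_one, norm_neg] at this
    linarith
  have hhi : ‖1 + A2 d * u + A4 d * u ^ 2‖ ≤ 5 / 4 := by
    rw [hsum]
    have := norm_sub_le (1 : F) (-(A2 d * u + A4 d * u ^ 2))
    rw [norm_one, norm_neg] at this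
    linarith
  have hne : 1 + A2 d * u + A4 d * u ^ 2 ≠ 0 := by
    intro h
    rw [h, norm_zero] at hlo
    linarith
  have e := eqn' (P := p)
  have hY2 : cY p ^ 2 = cX p ^ 3 * (1 + A2 d * u + A4 d * u ^ 2) := by
    rw [e, hu]
    field_simp
  have hY : cY p ≠ 0 := by
    intro h
    rw [h] at hY2
    have : cX p ^ 3 * (1 + A2 d * u + A4 d * u ^ 2) ≠ 0 := mul_ne_zero (pow_ne_zero 3 hX) hne
    exact this (by rw [← hY2]; ring)
  refine ⟨hX, hY, lt_of_lt_of_le hun hη1, ?_, ?_⟩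
  · have h1 := zu_rel hY
    rw [← hu] at h1
    have h2 : ‖u‖ = ‖cz p‖ ^ 2 * ‖1 + A2 d * u + A4 d * u ^ 2‖ := by
      nth_rewrite 1 [h1]
      rw [norm_mul, norm_pow]
    have h3 : ‖cz p‖ ^ 2 < δ ^ 2 := by
      have h4 : ‖u‖ < δ ^ 2 / 2 := lt_of_lt_of_le hun hη2
      nlinarith [sq_nonneg ‖cz p‖]
    exact lt_of_pow_lt_pow_left₀ 2 hδ.le h3
  · have h2 : (cY p / cX p ^ 2) ^ 2 = u * (1 + A2 d * u + A4 d * u ^ 2) := by
      rw [div_pow, hY2, hu]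
      field_simp
    have h3 : ‖cY p / cX p ^ 2‖ ^ 2 < δ ^ 2 := by
      rw [← norm_pow, h2, norm_mul]
      have h4 : ‖u‖ < δ ^ 2 / 2 := lt_of_lt_of_le hun hη2
      nlinarith [norm_nonneg u]
    exact lt_of_pow_lt_pow_left₀ 2 hδ.le h3

end Pool.Agent.WAR.H32
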