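import Pool.Agent.WAR.StmtsT
import Pool.Agent.Helper32_WAR.H32_Near

/-!
# WAR row TRX (helper32): translation by a point near the origin
-/

namespace Pool.Agent.WAR.H32

open Classical

variable [Par]

theorem trx1 {F : Type} [Field F] {u s X0 Y0 A2 A4 : F} (hun : u ≠ 0) (hXu : 1 - X0 * u ≠ 0)
    (es : s ^ 2 = u + A2 * u ^ 2 + A4 * u ^ 3) (e0 : Y0 ^ 2 = X0 ^ 3 + A2 * X0 ^ 2 + A4 * X0) :
    ((s - Y0 * u ^ 2) / (u * (1 - X0 * u))) ^ 2 - A2 - X0 - u⁻¹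
      = (X0 - 2 * Y0 * s + (X0 ^ 2 + 2 * A2 * X0 + A4) * u + A4 * X0 * u ^ 2)
        / (1 - X0 * u) ^ 2 := by
  obtain ⟨G, hG⟩ : ∃ G, G = 1 - X0 * u := ⟨_, rfl⟩
  rw [← hG] at hXu ⊢
  field_simp
  rw [hG]
  linear_combination es + u ^ 4 * e0

theorem trx2 {F : Type} [Field F] {u s X0 Y0 A2 A4 : F} (hun : u ≠ 0) (hXu : 1 - X0 * u ≠ 0)
    (es : s ^ 2 = u + A2 * u ^ 2 + A4 * u ^ 3) :
    (s - Y0 * u ^ 2) / (u * (1 - X0 * u)) * ((X0 - 2 * Y0 * s + (X0 ^ 2 + 2 * A2 * X0 + A4) * u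
      + A4 * X0 * u ^ 2) / (1 - X0 * u) ^ 2 - X0)
      = ((s - Y0 * u ^ 2) * ((3 * X0 ^ 2 + 2 * A2 * X0 + A4)
      + (A4 * X0 - X0 ^ 3) * u) - 2 * Y0 * (1 + A2 * u + A4 * u ^ 2) + 2 * Y0 ^ 2 * s * u)
      / (1 - X0 * u) ^ 3 := by
  obtain ⟨G, hG⟩ : ∃ G, G = 1 - X0 * u := ⟨_, rfl⟩
  rw [← hG] at hXu ⊢
  field_simp
  rw [hG]
  linear_combination (-2 * Y0) * es

theorem trx : TrxStmt := by
  intro F _ hF d hd P0 hP0 ε hε
  set X0 := cX P0 with hX0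
  set Y0 := cY P0 with hY0
  have e0 : Y0 ^ 2 = X0 ^ 3 + A2 d * X0 ^ 2 + A4 d * X0 := eqn' (P := P0)
  -- the two explicit functions
  have c1 : ContinuousAt (fun v : F × F =>
      (X0 - 2 * Y0 * v.2 + (X0 ^ 2 + 2 * A2 d * X0 + A4 d) * v.1 + A4 d * X0 * v.1 ^ 2)
        / (1 - X0 * v.1) ^ 2)
      (0, 0) := by
    apply ContinuousAt.div
    · fun_prop
    · fun_prop
    · simp
  have c2 : ContinuousAt (fun v : F × F =>
      ((v.2 - Y0 * v.1 ^ 2) * ((3 * X0 ^ 2 + 2 * A2 d * X0 + A4 d) + (A4 d * X0 - X0 ^ 3) * v.1)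
        - 2 * Y0 * (1 + A2 d * v.1 + A4 d * v.1 ^ 2) + 2 * Y0 ^ 2 * v.2 * v.1) / (1 - X0 * v.1) ^ 3)
      (0, 0) := by
    apply ContinuousAt.div
    · fun_prop
    · fun_prop
    · simp
  rw [Metric.continuousAt_iff] at c1 c2
  obtain ⟨δ1, hδ1, c1⟩ := c1 ε hε
  obtain ⟨δ2, hδ2, c2⟩ := c2 ε hε
  have hx0 : 0 ≤ ‖X0‖ := norm_nonneg _
  have hX1 : 0 < ‖X0‖ + 1 := by linarith
  obtain ⟨N, hN, hnear⟩ := near (d := d) hd
    (δ := min (min δ1 δ2) (1 / (‖X0‖ + 1))) (lt_min (lt_min hδ1 hδ2) (by positivity))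
  refine ⟨N, ?_⟩
  intro p hp
  rcases hnear p hp with h | ⟨hX, hY, hu, -, hs⟩
  · subst h
    rw [add_zero]
    refine ⟨hP0, ?_, ?_⟩
    · rw [sub_self, norm_zero]; exact hε
    · rw [sub_self, norm_zero]; exact hε
  have hp0 := ne_zero_of_cX hX
  set u := (cX p)⁻¹ with hu'
  set s := cY p / cX p ^ 2 with hs'
  have hun : u ≠ 0 := inv_ne_zero hX
  have eX : cX p = u⁻¹ := by rw [hu', inv_inv]
  have eY : cY p = s / u ^ 2 := by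
    rw [hs', hu']
    field_simp
  have es : s ^ 2 = u + A2 d * u ^ 2 + A4 d * u ^ 3 := by
    rw [hs', div_pow, eqn' (P := p), hu']
    field_simp
  have hXu : 1 - X0 * u ≠ 0 := by
    intro h
    have h1 : X0 * u = 1 := by linear_combination -h
    have h2 : ‖X0‖ * ‖u‖ = 1 := by rw [← norm_mul, h1, norm_one]
    have h3 : ‖u‖ < 1 / (‖X0‖ + 1) := lt_of_lt_of_le hu (min_le_right _ _)
    rw [lt_div_iff₀ hX1] at h3
    nlinarith [norm_nonneg u]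
  have hne : cX P0 ≠ cX p := by
    intro h
    apply hXu
    rw [← hX0, eX] at h
    rw [h, inv_mul_cancel₀ hun, sub_self]
  obtain ⟨h1, h2, h3⟩ := add_ne hP0 hp0 hne
  rw [← hX0, ← hY0] at h2 h3
  have hsl : (Y0 - cY p) / (X0 - cX p) = (s - Y0 * u ^ 2) / (u * (1 - X0 * u)) := by
    have h5 : X0 - cX p ≠ 0 := sub_ne_zero.mpr hne
    rw [div_eq_div_iff h5 (mul_ne_zero hun hXu), eX, eY]
    field_simp
    ring
  have f1 : cX (P0 + p) = (X0 - 2 * Y0 * s + (X0 ^ 2 + 2 * A2 d * X0 + A4 d) * u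
      + A4 d * X0 * u ^ 2) / (1 - X0 * u) ^ 2 := by
    rw [h2, hsl, eX, ← trx1 hun hXu es e0]
    unfold A2
    ring
  have f2 : -(cY (P0 + p) + Y0) = ((s - Y0 * u ^ 2) * ((3 * X0 ^ 2 + 2 * A2 d * X0 + A4 d)
      + (A4 d * X0 - X0 ^ 3) * u) - 2 * Y0 * (1 + A2 d * u + A4 d * u ^ 2) + 2 * Y0 ^ 2 * s * u)
      / (1 - X0 * u) ^ 3 := by
    rw [h3, hsl, f1]
    have := trx2 (Y0 := Y0) (X0 := X0) hun hXu es
    rw [← this]
    ring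
  have hdist : dist (u, s) ((0 : F), (0 : F)) < min δ1 δ2 := by
    rw [dist_eq_norm]
    have : (u, s) - ((0 : F), (0 : F)) = (u, s) := by simp
    rw [this, Prod.norm_def]
    exact max_lt (lt_of_lt_of_le hu (min_le_left _ _)) (lt_of_lt_of_le hs (min_le_left _ _))
  have g1 := c1 (lt_of_lt_of_le hdist (min_le_left _ _))
  have g2 := c2 (lt_of_lt_of_le hdist (min_le_right _ _))
  simp only at g1 g2
  rw [dist_eq_norm, ← f1] at g1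
  rw [dist_eq_norm, ← f2] at g2
  refine ⟨h1, ?_, ?_⟩
  · have : cX (P0 + p) - X0 = cX (P0 + p) - (X0 - 2 * Y0 * 0 + (X0 ^ 2 + 2 * A2 d * X0 + A4 d) * 0
        + A4 d * X0 * 0 ^ 2) / (1 - X0 * 0) ^ 2 := by
      simp
    rw [this]
    exact g1
  · have : cY (P0 + p) - Y0 = -(-(cY (P0 + p) + Y0) - ((0 - Y0 * 0 ^ 2) * ((3 * X0 ^ 2 + 2 * A2 d * X0 + A4 d)
        + (A4 d * X0 - X0 ^ 3) * 0) - 2 * Y0 * (1 + A2 d * 0 + A4 d * 0 ^ 2) + 2 * Y0 ^ 2 * 0 * 0)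
        / (1 - X0 * 0) ^ 3) := by
      simp
      ring
    rw [this, norm_neg]
    exact g2

end Pool.Agent.WAR.H32
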