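import Pool.Agent.WAR.StmtsT
import Pool.Agent.Helper32_WAR.H32_ZForm

/-!
# WAR row ZAD (helper32): `cz` is almost additive near the origin
-/

namespace Pool.Agent.WAR.H32

open Classical

/-- the factor `θ`: `cz (p+q) = (z1 + z2) θ` -/
noncomputable def theta {F : Type} [Field F] (a b : F) (v : F × F × F × F) : F :=
  (1 + a * v.1 + b * v.1 ^ 2) * (1 + a * v.2.1 + b * v.2.1 ^ 2) / (1 - b * v.1 * v.2.1) /
  (1 + a * (v.1 + v.2.2.2 * ((v.2.2.1 + v.2.2.2) * (1 + a * v.1 + b * v.1 ^ 2) *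
    (1 + a * v.2.1 + b * v.2.1 ^ 2) / (1 - b * v.1 * v.2.1))) +
    b * (v.1 + v.2.2.2 * ((v.2.2.1 + v.2.2.2) * (1 + a * v.1 + b * v.1 ^ 2) *
    (1 + a * v.2.1 + b * v.2.1 ^ 2) / (1 - b * v.1 * v.2.1))) ^ 2)

theorem theta_cont {F : Type} [NormedField F] (a b : F) :
    ContinuousAt (theta a b) (0, 0, 0, 0) := by
  unfold theta
  have h1 : ContinuousAt (fun v : F × F × F × F => 1 + a * v.1 + b * v.1 ^ 2) (0, 0, 0, 0) := by
    fun_prop
  have h2 : ContinuousAt (fun v : F × F × F × F => 1 + a * v.2.1 + b * v.2.1 ^ 2)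
      (0, 0, 0, 0) := by
    fun_prop
  have h3 : ContinuousAt (fun v : F × F × F × F => 1 - b * v.1 * v.2.1) (0, 0, 0, 0) := by
    fun_prop
  have h4 : ContinuousAt (fun v : F × F × F × F => (v.2.2.1 + v.2.2.2) *
    (1 + a * v.1 + b * v.1 ^ 2) *
    (1 + a * v.2.1 + b * v.2.1 ^ 2) / (1 - b * v.1 * v.2.1)) (0, 0, 0, 0) := by
    apply ContinuousAt.div
    · fun_prop
    · exact h3
    · simp
  apply ContinuousAt.div
  · apply ContinuousAt.div (h1.mul h2) h3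
    simp
  · have h5 : ContinuousAt (fun v : F × F × F × F => v.1 + v.2.2.2 * ((v.2.2.1 + v.2.2.2) *
      (1 + a * v.1 + b * v.1 ^ 2) * (1 + a * v.2.1 + b * v.2.1 ^ 2) / (1 - b * v.1 * v.2.1)))
      (0, 0, 0, 0) := by
      apply ContinuousAt.add
      · fun_prop
      · apply ContinuousAt.mul
        · fun_prop
        · exact h4
    exact (continuousAt_const.add (continuousAt_const.mul h5)).add
      (continuousAt_const.mul (h5.pow 2))
  · simp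

theorem zad [Par] : ZadStmt := by
  intro F _ hF d hd ε hε
  have h2 := hF.two
  obtain ⟨a, ha⟩ : ∃ a : F, a = A2 d := ⟨_, rfl⟩
  obtain ⟨b, hb⟩ : ∃ b : F, b = A4 d := ⟨_, rfl⟩
  have hc := theta_cont a b
  have h0 : theta a b (0, 0, 0, 0) = 1 := by
    unfold theta
    simp
  rw [Metric.continuousAt_iff] at hc
  obtain ⟨δ, hδ, hc⟩ := hc (ε / 2) (by positivity)
  rw [h0] at hc
  -- small enough that the denominators do not vanish
  have hd0 : 0 < ‖d‖ := norm_pos_iff.mpr hd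
  set M : ℝ := ‖a‖ + ‖b‖ + 1 with hM
  have hM0 : 0 < M := by positivity
  set δ' : ℝ := min δ (1 / (2 * M)) with hδ'
  have hδ'0 : 0 < δ' := lt_min hδ (by positivity)
  obtain ⟨N, hN, hnear⟩ := near hd hδ'0
  refine ⟨N, ?_⟩
  have hz0 : cz (0 : Pt d) = 0 := by
    unfold cz
    rw [cX_zero, zero_div]
  have key : ∀ p : Pt d, Big N p → (p = 0 ∨ (cX p ≠ 0 ∧ cY p ≠ 0)) ∧ ‖(cX p)⁻¹‖ < δ' ∧ ‖cz p‖ < δ' := by
    intro p hp
    rcases hnear p hp with h | h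
    · subst h
      refine ⟨Or.inl rfl, ?_, ?_⟩
      · rw [cX_zero, inv_zero, norm_zero]
        exact hδ'0
      · rw [hz0, norm_zero]
        exact hδ'0
    · exact ⟨Or.inr ⟨h.1, h.2.1⟩, h.2.2.1, h.2.2.2.1⟩
  intro p q hp hq
  obtain ⟨hp1, hp2, hp3⟩ := key p hp
  obtain ⟨hq1, hq2, hq3⟩ := key q hq
  have hδ1 : δ' ≤ 1 := by
    refine le_trans (min_le_right _ _) ?_
    rw [div_le_one (by positivity)]
    have h3 : 0 ≤ ‖a‖ := norm_nonneg _
    have h4 : 0 ≤ ‖b‖ := norm_nonneg _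
    linarith
  have hMδ : M * δ' ≤ 1 / 2 := by
    have h3 : δ' ≤ 1 / (2 * M) := min_le_right _ _
    rw [le_div_iff₀ (by positivity)] at h3
    linarith
  have hne1 : ∀ u v : F, ‖u‖ < δ' → ‖v‖ < δ' → 1 - b * u * v ≠ 0 := by
    intro u v hu hv h
    have h3 : b * u * v = 1 := by linear_combination -h
    have h4 : ‖b‖ * ‖u‖ * ‖v‖ = 1 := by rw [← norm_mul, ← norm_mul, h3, norm_one]
    have h5 : ‖b‖ * ‖u‖ ≤ M * δ' := by
      have : ‖b‖ ≤ M := by rw [hM]; linarith [norm_nonneg a]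
      exact mul_le_mul this hu.le (norm_nonneg _) hM0.le
    have h6 : ‖b‖ * ‖u‖ * ‖v‖ ≤ 1 / 2 * 1 := by
      refine mul_le_mul (h5.trans hMδ) (hv.le.trans hδ1) (norm_nonneg _) (by norm_num)
    linarith
  have hne2 : ∀ u : F, ‖u‖ < δ' → 1 + a * u + b * u ^ 2 ≠ 0 := by
    intro u hu h
    have h3 : a * u + b * u ^ 2 = -1 := by linear_combination h
    have h4 : ‖a * u + b * u ^ 2‖ = 1 := by rw [h3, norm_neg, norm_one]
    have h0' : 0 ≤ ‖u‖ := norm_nonneg _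
    have h5 : ‖a * u + b * u ^ 2‖ ≤ ‖a‖ * ‖u‖ + ‖b‖ * ‖u‖ ^ 2 := by
      refine (norm_add_le _ _).trans ?_
      rw [norm_mul, norm_mul, norm_pow]
    have h6 : ‖u‖ ^ 2 ≤ ‖u‖ := by nlinarith
    have h7 : ‖b‖ * ‖u‖ ^ 2 ≤ ‖b‖ * ‖u‖ := mul_le_mul_of_nonneg_left h6 (norm_nonneg _)
    have h8 : M * ‖u‖ ≤ M * δ' := mul_le_mul_of_nonneg_left hu.le hM0.le
    have h9 : M * ‖u‖ = ‖a‖ * ‖u‖ + ‖b‖ * ‖u‖ + ‖u‖ := by rw [hM]; ring
    linarith
  have hform := cz_add h2 hp1 hq1 ha hb rfl rfl rfl rfl (hne1 _ _ hp2 hq2) (hne2 _ hp2) (hne2 _ hq2) rfl rfl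
  have hth := @hc ((cX p)⁻¹, (cX q)⁻¹, cz p, cz q) (by
    rw [dist_eq_norm]
    have : ((cX p)⁻¹, (cX q)⁻¹, cz p, cz q) - ((0 : F), (0 : F), (0 : F), (0 : F))
      = ((cX p)⁻¹, (cX q)⁻¹, cz p, cz q) := by simp
    rw [this]
    simp only [Prod.norm_def]
    have hle := min_le_left δ (1 / (2 * M))
    rw [← hδ'] at hle
    refine max_lt (by linarith) (max_lt (by linarith) (max_lt (by linarith) (by linarith))))
  have hform' : cz (p + q) = (cz p + cz q) * theta a b ((cX p)⁻¹, (cX q)⁻¹, cz p, cz q) := by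
    rw [hform]
    unfold theta
    have aux : ∀ a b c D E : F, a * b * c / D / E = a * (b * c / D / E) := by
      intro a b c D E
      rw [mul_assoc, mul_div_assoc, mul_div_assoc]
    exact aux _ _ _ _ _
  have : cz (p + q) - cz p - cz q
      = (cz p + cz q) * (theta a b ((cX p)⁻¹, (cX q)⁻¹, cz p, cz q) - 1) := by
    rw [hform']; ring
  rw [this, norm_mul]
  rw [dist_eq_norm] at hth
  have h6 : ‖cz p + cz q‖ ≤ 2 * max ‖cz p‖ ‖cz q‖ := by
    have := norm_add_le (cz p) (cz q)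
    have h7 := le_max_left ‖cz p‖ ‖cz q‖
    have h8 := le_max_right ‖cz p‖ ‖cz q‖
    linarith
  have h9 : 0 ≤ max ‖cz p‖ ‖cz q‖ := le_trans (norm_nonneg _) (le_max_left _ _)
  calc ‖cz p + cz q‖ * ‖theta a b ((cX p)⁻¹, (cX q)⁻¹, cz p, cz q) - 1‖
      ≤ (2 * max ‖cz p‖ ‖cz q‖) * (ε / 2) := by
        apply mul_le_mul h6 hth.le (norm_nonneg _) (by positivity)
    _ = ε * max ‖cz p‖ ‖cz q‖ := by ring

end Pool.Agent.WAR.H32
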