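import Pool.Agent.WAR.StmtsM
import Pool.Agent.WAR.StmtsT

/-!
# WAR, row NQT: small multiples which are units at `ϖq`
-/

set_option autoImplicit false

namespace Pool.Agent.WAR.H39

open Pool.Agent.WAR
open Classical

variable [Par]

theorem q_sm_one {F : Type} [Field F] {d : F} (P : Pt d) : sm 1 P = P := by
  rw [sm_def, one_smul]

theorem q_sm_zero {F : Type} [Field F] {d : F} (P : Pt d) : sm 0 P = 0 := by
  rw [sm_def, zero_smul]

theorem nqt (gdf : GdfStmt) (fra : FraStmt) (kuc : KucStmt) (nrm : NrmStmt) (kil : KilStmt)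
    (lvb : LvbStmt) : NqtStmt := by
  intro F _ ϖ ϖq hF hq hq2 hne hle z hz O hO hzO
  have hG : GoodF F := gdf F (Or.inl ⟨ϖ, hF⟩)
  haveI : Gd F := hG.gd
  have h2 : (2 : F) ≠ 0 := hG.two
  obtain ⟨d, P, Q, hd, rfl⟩ := nrm F ϖ hF z hz
  have hd0 : d ≠ 0 := by
    rintro rfl
    have hu := hF.uni
    rcases hd with hd | hd
    · simp at hd
    · rw [norm_zero] at hd
      unfold qn at hd
      rw [← hd] at hu
      exact lt_irrefl _ hu
  obtain ⟨N1, hN1⟩ := kuc F hG d hd0 P Q hz O hO hzO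
  obtain ⟨ρ, hρ, hlev⟩ := (lvb F ϖ hF d hd0).1 N1
  have hpos := hF.pos
  have has : ¬ Associated ϖ ϖq := by
    intro h
    have h1 := Int.associated_iff_natAbs.mp h
    apply hne
    omega
  have hnm : nm ϖ ≤ nm ϖq := by
    unfold nm
    omega
  obtain ⟨c1, hc1, g1⟩ := kil F ϖ hF d hd ϖq hq hq2 has hnm P ρ hρ
  obtain ⟨c2, hc2, g2⟩ := kil F ϖ hF d hd ϖq hq hq2 has hnm Q ρ hρ
  refine ⟨c1 * c2, ?_, ?_⟩
  · intro h
    rcases hq.dvd_or_dvd h with h | h
    · exact hc1 h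
    · exact hc2 h
  intro n hn'
  have l1 : Lev ρ (sm n P) := g1 n ((Dvd.intro c2 rfl).trans hn')
  have l2 : Lev ρ (sm n Q) := g2 n ((Dvd.intro_left c1 rfl).trans hn')
  have b0 : Big N1 (0 : Pt d) := Or.inl rfl
  constructor
  · have k1 := hN1 (sm n Q) 0 (hlev _ l2) b0
    have f1 := fra F h2 d P Q 1 n 0 1 hd0 hz
    have e1 : actf 1 n 0 1 (kum d P Q) = kum d (P + sm n Q) (Q + 0) := by
      rw [f1, q_sm_one, q_sm_one, q_sm_zero, zero_add, add_zero]
    refine ⟨kum d (P + sm n Q) (Q + 0), k1.1, hz, k1.2, ?_, e1.symm⟩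
    ring
  · have k1 := hN1 0 (sm n P) b0 (hlev _ l1)
    have f1 := fra F h2 d P Q 1 0 n 1 hd0 hz
    have e1 : actf 1 0 n 1 (kum d P Q) = kum d (P + 0) (Q + sm n P) := by
      rw [f1, q_sm_one, q_sm_one, q_sm_zero, add_comm (sm n P) Q]
    refine ⟨kum d (P + 0) (Q + sm n P), k1.1, hz, k1.2, ?_, e1.symm⟩
    ring

end Pool.Agent.WAR.H39
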