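import Pool.Agent.WAR.StmtsL
import Pool.Agent.WAR.Alg

/-!
# WAR, row NRM: every point of the surface over a local field has a frame over a normalized twist
-/

set_option autoImplicit false

namespace Pool.Agent.WAR.H39

open Pool.Agent.WAR
open Classical

variable [Par]

theorem loc_gd {F : Type} [NormedField F] {ϖ : ℤ} (h : IsLoc F ϖ) : Gd F := by
  have key : ∀ a : ℤ, ¬ ϖ ∣ a → ((a : ℤ) : F) ≠ 0 := by
    intro a ha h0
    have h1 := h.norm_am ha
    rw [am_apply, h0, norm_zero] at h1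
    exact zero_ne_one h1
  refine ⟨key _ h.gda, key _ h.gdb, ?_⟩
  intro h0
  apply key _ h.gdab
  push_cast
  exact sub_eq_zero.2 h0

theorem loc_two_ne {F : Type} [NormedField F] {ϖ : ℤ} (h : IsLoc F ϖ) : (2 : F) ≠ 0 := by
  intro h0
  have h1 := h.norm_am h.odd
  rw [am_apply] at h1
  push_cast at h1
  rw [h0, norm_zero] at h1
  exact zero_ne_one h1

/-- row NRM -/
theorem nrm : NrmStmt := by
  intro F _ ϖ hL z hz
  have hd := G.onU_cub1 hz
  have hp : am F ϖ ≠ 0 := norm_pos_iff.mp hL.uni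
  haveI := loc_gd hL
  have h2 := loc_two_ne hL
  have hk := G.kum_fr h2 hz
  obtain ⟨n, hn⟩ := hL.val (cub z.1) hd
  have key : ∀ m e : ℤ, n = 2 * m + e →
      ‖((am F ϖ) ^ (-m)) ^ 2 * cub z.1‖ = ‖am F ϖ‖ ^ e := by
    intro m e hme
    have hq : ‖am F ϖ‖ ≠ 0 := hL.uni.ne'
    rw [norm_mul, norm_pow, norm_zpow, hn, ← zpow_natCast, ← zpow_mul, ← zpow_add₀ hq]
    congr 1
    rw [hme]
    push_cast
    ring
  have hu : ∀ m : ℤ, (am F ϖ) ^ (-m) ≠ 0 := fun m => zpow_ne_zero _ hp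
  rcases Int.even_or_odd' n with ⟨m, hm | hm⟩
  · refine ⟨_, G.sc _ (hu m) (frP z), G.sc _ (hu m) (frQ z), Or.inl ?_, ?_⟩
    · rw [key m 0 (by rw [hm]; ring), zpow_zero]
    · rw [G.kum_sc, hk]
  · refine ⟨_, G.sc _ (hu m) (frP z), G.sc _ (hu m) (frQ z), Or.inr ?_, ?_⟩
    · rw [key m 1 hm, zpow_one]
      rfl
    · rw [G.kum_sc, hk]

end Pool.Agent.WAR.H39
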