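import Pool.Agent.WAR.StmtsT

/-! helper3, squad WAR, row CNS (port of the file of helper60 for squad WAP) -/

set_option autoImplicit false

namespace Pool.Agent.WAR.H3

open Classical
open Pool.Agent.WAR

section field
variable {F : Type} [Field F]

theorem sq_t0 (a b t : F) (ht : t ≠ 0) :
    (a * b / t) * (a * b / t - a) * (a * b / t - b) = (a * b) ^ 2 * (t * (t - a) * (t - b)) / t ^ 4 := by
  field_simp
  ring

theorem sq_tp (a b t : F) (ht : t - a ≠ 0) :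
    (a * (t - b) / (t - a)) * (a * (t - b) / (t - a) - a) * (a * (t - b) / (t - a) - b) =
      (a * (a - b)) ^ 2 * (t * (t - a) * (t - b)) / (t - a) ^ 4 := by
  have h1 : a * (t - b) / (t - a) - a = a * (a - b) / (t - a) := by
    rw [eq_div_iff ht, sub_mul, div_mul_cancel₀ _ ht]
    ring
  have h2 : a * (t - b) / (t - a) - b = (a - b) * t / (t - a) := by
    rw [eq_div_iff ht, sub_mul, div_mul_cancel₀ _ ht]
    ring
  rw [h1, h2, div_mul_div_comm, div_mul_div_comm, div_eq_div_iff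
    (mul_ne_zero (mul_ne_zero ht ht) ht) (pow_ne_zero 4 ht)]
  ring

end field

section par
variable [Par] {F : Type} [Field F]

theorem onU_t {z : F × F × F} (h : OnU z) :
    z.2.1 ≠ 0 ∧ z.2.1 - ea F ≠ 0 ∧ z.2.1 - eb F ≠ 0 := by
  obtain ⟨h1, h2⟩ := h
  have h3 : cub z.2.1 ≠ 0 := by
    intro h4
    rw [h4, mul_zero] at h1
    exact h2 (pow_eq_zero_iff (two_ne_zero)|>.1 h1)
  unfold cub at h3
  exact ⟨fun h => h3 (by rw [h]; ring), fun h => h3 (by rw [h]; ring),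
    fun h => h3 (by rw [h]; ring)⟩

theorem onU_sw {z : F × F × F} (h : OnU z) : OnU (swf z) := by
  obtain ⟨h1, h2⟩ := h
  refine ⟨?_, h2⟩
  show z.2.2 ^ 2 = cub z.2.1 * cub z.1
  rw [h1]
  ring

theorem onU_t0 (h0 : ea F * eb F ≠ 0) {z : F × F × F} (h : OnU z) : OnU (t0f z) := by
  obtain ⟨t0, -, -⟩ := onU_t h
  obtain ⟨h1, h2⟩ := h
  refine ⟨?_, ?_⟩
  · show (-(ea F * eb F) * z.2.2 / z.2.1 ^ 2) ^ 2 = cub z.1 * cub (ea F * eb F / z.2.1)
    have h3 : cub (ea F * eb F / z.2.1) = (ea F * eb F) ^ 2 * cub z.2.1 / z.2.1 ^ 4 :=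
      sq_t0 _ _ _ t0
    rw [h3, div_pow, mul_pow, h1]
    ring
  · show -(ea F * eb F) * z.2.2 / z.2.1 ^ 2 ≠ 0
    exact div_ne_zero (mul_ne_zero (neg_ne_zero.2 h0) h2) (pow_ne_zero 2 t0)

theorem onU_tp (h0 : ea F * (ea F - eb F) ≠ 0) {z : F × F × F} (h : OnU z) : OnU (tpf z) := by
  obtain ⟨-, t1, -⟩ := onU_t h
  obtain ⟨h1, h2⟩ := h
  refine ⟨?_, ?_⟩
  · show (-(ea F * (ea F - eb F)) * z.2.2 / (z.2.1 - ea F) ^ 2) ^ 2 =
      cub z.1 * cub (ea F * (z.2.1 - eb F) / (z.2.1 - ea F))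
    have h3 : cub (ea F * (z.2.1 - eb F) / (z.2.1 - ea F)) =
        (ea F * (ea F - eb F)) ^ 2 * cub z.2.1 / (z.2.1 - ea F) ^ 4 := sq_tp _ _ _ t1
    rw [h3, div_pow, mul_pow, h1]
    ring
  · show -(ea F * (ea F - eb F)) * z.2.2 / (z.2.1 - ea F) ^ 2 ≠ 0
    exact div_ne_zero (mul_ne_zero (neg_ne_zero.2 h0) h2) (pow_ne_zero 2 t1)

theorem onU_tm (h0 : eb F * (eb F - ea F) ≠ 0) {z : F × F × F} (h : OnU z) : OnU (tmf z) := by
  obtain ⟨-, -, t1⟩ := onU_t h
  obtain ⟨h1, h2⟩ := h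
  refine ⟨?_, ?_⟩
  · show (-(eb F * (eb F - ea F)) * z.2.2 / (z.2.1 - eb F) ^ 2) ^ 2 =
      cub z.1 * cub (eb F * (z.2.1 - ea F) / (z.2.1 - eb F))
    have h3 : cub (eb F * (z.2.1 - ea F) / (z.2.1 - eb F)) =
        (eb F * (eb F - ea F)) ^ 2 * cub z.2.1 / (z.2.1 - eb F) ^ 4 := by
      have h4 := sq_tp (eb F) (ea F) z.2.1 t1
      unfold cub
      rw [mul_right_comm, h4]
      ring
    rw [h3, div_pow, mul_pow, h1]
    ring
  · show -(eb F * (eb F - ea F)) * z.2.2 / (z.2.1 - eb F) ^ 2 ≠ 0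
    exact div_ne_zero (mul_ne_zero (neg_ne_zero.2 h0) h2) (pow_ne_zero 2 t1)

end par

section cont
variable [Par] {F : Type} [NormedField F]

omit [Par] in
theorem c_x (z : F × F × F) : ContinuousAt (fun z : F × F × F => z.1) z :=
  continuous_fst.continuousAt
omit [Par] in
theorem c_t (z : F × F × F) : ContinuousAt (fun z : F × F × F => z.2.1) z :=
  (continuous_fst.comp continuous_snd).continuousAt
omit [Par] in
theorem c_y (z : F × F × F) : ContinuousAt (fun z : F × F × F => z.2.2) z :=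
  (continuous_snd.comp continuous_snd).continuousAt

omit [Par] in
theorem key (f : F × F × F → F × F × F) (z : F × F × F) (hf : ContinuousAt f z)
    (V : Set (F × F × F)) (hV : IsOpen V) (hz : f z ∈ V) :
    ∃ O : Set (F × F × F), IsOpen O ∧ z ∈ O ∧ ∀ z1 ∈ O, f z1 ∈ V := by
  obtain ⟨O, h1, h2, h3⟩ := mem_nhds_iff.1 (hf (hV.mem_nhds hz))
  exact ⟨O, h2, h3, fun z1 hz1 => h1 hz1⟩

omit [Par] in
theorem c_sw (z : F × F × F) : ContinuousAt (swf : F × F × F → F × F × F) z :=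
  (c_t z).prodMk ((c_x z).prodMk (c_y z))

theorem c_t0 (z : F × F × F) (h : z.2.1 ≠ 0) : ContinuousAt (t0f : F × F × F → F × F × F) z := by
  refine (c_x z).prodMk (ContinuousAt.prodMk ?_ ?_)
  · exact continuousAt_const.div (c_t z) h
  · exact (continuousAt_const.mul (c_y z)).div ((c_t z).pow 2) (pow_ne_zero 2 h)

theorem c_tp (z : F × F × F) (h : z.2.1 - ea F ≠ 0) :
    ContinuousAt (tpf : F × F × F → F × F × F) z := by
  refine (c_x z).prodMk (ContinuousAt.prodMk ?_ ?_)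
  · exact (continuousAt_const.mul ((c_t z).sub continuousAt_const)).div
      ((c_t z).sub continuousAt_const) h
  · exact (continuousAt_const.mul (c_y z)).div (((c_t z).sub continuousAt_const).pow 2)
      (pow_ne_zero 2 h)

theorem c_tm (z : F × F × F) (h : z.2.1 - eb F ≠ 0) :
    ContinuousAt (tmf : F × F × F → F × F × F) z := by
  refine (c_x z).prodMk (ContinuousAt.prodMk ?_ ?_)
  · exact (continuousAt_const.mul ((c_t z).sub continuousAt_const)).div
      ((c_t z).sub continuousAt_const) h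
  · exact (continuousAt_const.mul (c_y z)).div (((c_t z).sub continuousAt_const).pow 2)
      (pow_ne_zero 2 h)

end cont

theorem cns [Par] : CnsStmt := by
  intro F _ _ l z z' hl hs V hV hz'
  rcases hl with rfl | rfl | rfl | rfl
  · obtain ⟨h1, h2, h3⟩ := hs
    change z' = swf z at h3
    subst h3
    obtain ⟨O, hO, hzO, hO2⟩ := key swf z (c_sw z) V hV hz'
    exact ⟨O, hO, hzO, fun z1 hz1 hu => ⟨swf z1, hO2 z1 hz1, hu, onU_sw hu, rfl⟩⟩
  · obtain ⟨h1, h2, h3⟩ := hs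
    change z' = t0f z at h3
    subst h3
    have h4 : ea F * eb F ≠ 0 := by
      intro h5
      apply h2.2
      show -(ea F * eb F) * z.2.2 / z.2.1 ^ 2 = 0
      rw [h5, neg_zero, zero_mul, zero_div]
    obtain ⟨O, hO, hzO, hO2⟩ := key t0f z (c_t0 z (onU_t h1).1) V hV hz'
    exact ⟨O, hO, hzO, fun z1 hz1 hu => ⟨t0f z1, hO2 z1 hz1, hu, onU_t0 h4 hu, rfl⟩⟩
  · obtain ⟨h1, h2, h3⟩ := hs
    change z' = tpf z at h3
    subst h3
    have h4 : ea F * (ea F - eb F) ≠ 0 := by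
      intro h5
      apply h2.2
      show -(ea F * (ea F - eb F)) * z.2.2 / (z.2.1 - ea F) ^ 2 = 0
      rw [h5, neg_zero, zero_mul, zero_div]
    obtain ⟨O, hO, hzO, hO2⟩ := key tpf z (c_tp z (onU_t h1).2.1) V hV hz'
    exact ⟨O, hO, hzO, fun z1 hz1 hu => ⟨tpf z1, hO2 z1 hz1, hu, onU_tp h4 hu, rfl⟩⟩
  · obtain ⟨h1, h2, h3⟩ := hs
    change z' = tmf z at h3
    subst h3
    have h4 : eb F * (eb F - ea F) ≠ 0 := by
      intro h5
      apply h2.2
      show -(eb F * (eb F - ea F)) * z.2.2 / (z.2.1 - eb F) ^ 2 = 0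
      rw [h5, neg_zero, zero_mul, zero_div]
    obtain ⟨O, hO, hzO, hO2⟩ := key tmf z (c_tm z (onU_t h1).2.2) V hV hz'
    exact ⟨O, hO, hzO, fun z1 hz1 hu => ⟨tmf z1, hO2 z1 hz1, hu, onU_tm h4 hu, rfl⟩⟩

end Pool.Agent.WAR.H3
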