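import Pool.Agent.WAR.StmtsL

/-!
# Row CNT: counting incongruent points
-/

namespace Pool.Agent.WAR.H40

open Classical Polynomial WeierstrassCurve.Affine

variable [Par]

omit [Par] in
/-- representatives modulo an integer. -/
theorem reps (w : ℤ) (h : w ≠ 0) :
    ∃ T : Finset ℤ, T.card ≤ nm w ∧ ∀ a : ℤ, ∃ t ∈ T, w ∣ a - t := by
  refine ⟨Finset.Ico 0 |w|, ?_, ?_⟩
  · rw [Int.card_Ico, sub_zero]
    unfold nm
    have : (|w|).toNat = w.natAbs := by rw [Int.abs_eq_natAbs, Int.toNat_natCast]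
    rw [this]
  · intro a
    refine ⟨a % |w|, ?_, ?_⟩
    · rw [Finset.mem_Ico]
      exact ⟨Int.emod_nonneg _ (abs_ne_zero.2 h), Int.emod_lt_of_pos _ (abs_pos.2 h)⟩
    · have h1 : |w| ∣ a - a % |w| := Int.dvd_self_sub_emod
      exact (abs_dvd _ _).1 h1

theorem cnt (zlv : ZlvStmt) (cri : CriStmt) : CntStmt := by
  intro F _ w hF d hd A hA
  have hd0 : d ≠ 0 := by
    rintro rfl
    rw [norm_zero] at hd
    exact zero_ne_one hd
  have hsub := (zlv F w hF d hd0).1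
  -- at most one point in the kernel of reduction
  have hG : (A.filter (fun P => Big 1 P)).card ≤ 1 := by
    rw [Finset.card_le_one]
    intro P hP Q hQ
    rw [Finset.mem_filter] at hP hQ
    by_contra hne
    apply hA P hP.1 Q hQ.1 hne
    exact (hsub (max ‖zs P‖ ‖zs Q‖) P Q ⟨hP.2, le_max_left _ _⟩ ⟨hQ.2, le_max_right _ _⟩).2.2.1
  obtain ⟨T, hT, hTr⟩ := reps w hF.prime.ne_zero
  -- coordinates of the points outside
  have hout : ∀ P : Pt d, ¬ Big 1 P → ∃ X Y h, P = Point.some X Y h ∧ ‖X‖ ≤ 1 := by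
    intro P hP
    rcases P with _ | ⟨X, Y, h⟩
    · exact absurd (Or.inl rfl) hP
    · refine ⟨X, Y, h, rfl, ?_⟩
      by_contra hcon
      apply hP
      right
      show 1 < ‖X / d‖
      rw [norm_div, hd, div_one]
      exact not_le.1 hcon
  -- the residue
  have hres : ∀ X : F, ‖X‖ ≤ 1 → ∃ t ∈ T, ‖X - am F t‖ < 1 := by
    intro X hX
    obtain ⟨a, ha⟩ := hF.res X hX
    obtain ⟨t, ht, hdt⟩ := hTr a
    refine ⟨t, ht, ?_⟩
    have h1 : ‖am F (a - t)‖ < 1 := (hF.lt_one _).2 hdt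
    have h2 : X - am F t =
        (X - am F a) + am F (a - t) := by
      rw [map_sub]
      ring
    rw [h2]
    exact lt_of_le_of_lt (hF.ultra _ _) (max_lt ha h1)
  have hsubn : ∀ x y : F, ‖x - y‖ ≤ max ‖x‖ ‖y‖ := by
    intro x y
    have := hF.ultra x (-y)
    rwa [norm_neg, ← sub_eq_add_neg] at this
  have hf : ∃ f : Pt d → ℤ, ∀ P : Pt d, ¬ Big 1 P → f P ∈ T ∧
      ‖cX P - am F (f P)‖ < 1 := by
    have hch : ∀ P : Pt d, ∃ t : ℤ, ¬ Big 1 P → t ∈ T ∧
        ‖cX P - am F t‖ < 1 := by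
      intro P
      by_cases hP : Big 1 P
      · exact ⟨0, fun h => absurd hP h⟩
      · obtain ⟨X, Y, h, rfl, hX⟩ := hout P hP
        obtain ⟨t, ht, ht2⟩ := hres X hX
        exact ⟨t, fun _ => ⟨ht, ht2⟩⟩
    choose f hf using hch
    exact ⟨f, hf⟩
  obtain ⟨f, hf⟩ := hf
  obtain ⟨B, hB⟩ : ∃ B, B = A.filter (fun P => ¬ Big 1 P) := ⟨_, rfl⟩
  have hBA : ∀ P ∈ B, P ∈ A ∧ ¬ Big 1 P := by
    intro P hP
    rw [hB, Finset.mem_filter] at hP
    exact hP
  -- two different points with the same residue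
  have hpair : ∀ P ∈ B, ∀ Q ∈ B, P ≠ Q → f P = f Q → ‖cY P + cY Q‖ < 1 ∧ 1 ≤ ‖cY P - cY Q‖ := by
    intro P hP Q hQ hne hfe
    obtain ⟨hPA, hPG⟩ := hBA P hP
    obtain ⟨hQA, hQG⟩ := hBA Q hQ
    have hr1 := (hf P hPG).2
    have hr2 := (hf Q hQG).2
    obtain ⟨X1, Y1, h1, rfl, hX1⟩ := hout P hPG
    obtain ⟨X2, Y2, h2, rfl, hX2⟩ := hout Q hQG
    have hX : ‖X1 - X2‖ < 1 := by
      have e : X1 - X2 = (X1 - am F (f (.some X1 Y1 h1))) -
          (X2 - am F (f (.some X2 Y2 h2))) := by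
        rw [hfe]
        ring
      rw [e]
      exact lt_of_le_of_lt (hsubn _ _) (max_lt hr1 hr2)
    have hY : ¬ ‖Y1 - Y2‖ < 1 := by
      intro hlt
      exact hA _ hPA _ hQA hne
        ((cri F w hF d hd X1 Y1 X2 Y2 h1 h2 hX1 hX2).2 ⟨hX, hlt⟩)
    refine ⟨?_, not_lt.1 hY⟩
    show ‖Y1 + Y2‖ < 1
    have e1 : Y1 ^ 2 = X1 * (X1 - d * ea F) * (X1 - d * eb F) := (W_equation d X1 Y1).1 h1.1
    have e2 : Y2 ^ 2 = X2 * (X2 - d * ea F) * (X2 - d * eb F) := (W_equation d X2 Y2).1 h2.1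
    have e3 : (Y1 - Y2) * (Y1 + Y2) = (X1 - X2) * (X1 ^ 2 + (X1 * X2 + (X2 ^ 2
        + (-(d * (ea F + eb F)) * (X1 + X2) + d ^ 2 * (ea F * eb F))))) := by
      linear_combination e1 - e2
    have hea : ‖ea F‖ = 1 := hF.norm_ea
    have heb : ‖eb F‖ = 1 := hF.norm_eb
    have hN : ‖X1 ^ 2 + (X1 * X2 + (X2 ^ 2
        + (-(d * (ea F + eb F)) * (X1 + X2) + d ^ 2 * (ea F * eb F))))‖ ≤ 1 := by
      refine le_trans (hF.ultra _ _) (max_le ?_ ?_)
      · rw [norm_pow]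
        exact pow_le_one₀ (norm_nonneg _) hX1
      refine le_trans (hF.ultra _ _) (max_le ?_ ?_)
      · rw [norm_mul]
        exact mul_le_one₀ hX1 (norm_nonneg _) hX2
      refine le_trans (hF.ultra _ _) (max_le ?_ ?_)
      · rw [norm_pow]
        exact pow_le_one₀ (norm_nonneg _) hX2
      refine le_trans (hF.ultra _ _) (max_le ?_ ?_)
      · rw [norm_mul, norm_neg, norm_mul, hd, one_mul]
        refine mul_le_one₀ ?_ (norm_nonneg _) ?_
        · exact le_trans (hF.ultra _ _) (max_le hea.le heb.le)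
        · exact le_trans (hF.ultra _ _) (max_le hX1 hX2)
      · rw [norm_mul, norm_mul, norm_pow, hd, hea, heb]
        norm_num
    have e4 : ‖Y1 - Y2‖ * ‖Y1 + Y2‖ < 1 := by
      rw [← norm_mul, e3, norm_mul]
      exact lt_of_le_of_lt (mul_le_of_le_one_right (norm_nonneg _) hN) hX
    by_contra hcon
    have h3 := not_lt.1 hcon
    have h4 := not_lt.1 hY
    have : 1 * 1 ≤ ‖Y1 - Y2‖ * ‖Y1 + Y2‖ := mul_le_mul h4 h3 zero_le_one (norm_nonneg _)
    linarith
  have hBc : B.card ≤ 2 * T.card := by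
    have h1 : (B.image f).card ≤ T.card := by
      apply Finset.card_le_card
      intro t ht
      rw [Finset.mem_image] at ht
      obtain ⟨P, hP, rfl⟩ := ht
      exact (hf P (hBA P hP).2).1
    refine le_trans (Finset.card_le_mul_card_image B 2 ?_) (Nat.mul_le_mul_left 2 h1)
    intro t _
    by_contra hcon
    have h3 : 2 < (B.filter (fun P => f P = t)).card := not_le.1 hcon
    obtain ⟨P, Q, R, hP, hQ, hR, hPQ, hPR, hQR⟩ := Finset.two_lt_card_iff.1 h3
    rw [Finset.mem_filter] at hP hQ hR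
    have k1 := (hpair P hP.1 Q hQ.1 hPQ (by rw [hP.2, hQ.2])).1
    have k2 := (hpair P hP.1 R hR.1 hPR (by rw [hP.2, hR.2])).1
    have k3 := (hpair Q hQ.1 R hR.1 hQR (by rw [hQ.2, hR.2])).2
    have k4 : ‖cY Q - cY R‖ < 1 := by
      have e : cY Q - cY R = (cY P + cY Q) - (cY P + cY R) := by ring
      rw [e]
      exact lt_of_le_of_lt (hsubn _ _) (max_lt k1 k2)
    linarith
  have hsum : A.card = (A.filter (fun P => Big 1 P)).card + B.card := by
    rw [hB]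
    exact (Finset.card_filter_add_card_filter_not _).symm
  rw [hsum]
  omega

end Pool.Agent.WAR.H40
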