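import Pool.Agent.WAR.StmtsT

set_option autoImplicit false

namespace Pool.Agent.WAR.H42

open Classical Pool.Agent.WAR WeierstrassCurve WeierstrassCurve.Affine

variable [Par]

theorem pt_eqn {F : Type} [Field F] {d : F} (P : Pt d) :
    cY P ^ 2 = cX P * (cX P - d * ea F) * (cX P - d * eb F) := by
  rcases P with _ | ⟨X, Y, h⟩
  · show (0 : F) ^ 2 = 0 * (0 - d * ea F) * (0 - d * eb F)
    ring
  · show Y ^ 2 = X * (X - d * ea F) * (X - d * eb F)
    exact ((W_nonsing_iff d X Y).1 h).1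

theorem onU_kum {F : Type} [Field F] {d : F} (hd : d ≠ 0) (P Q : Pt d)
    (h : (kum d P Q).2.2 ≠ 0) : OnU (kum d P Q) := by
  refine ⟨?_, h⟩
  show (cY P * cY Q / d ^ 3) ^ 2 = cub (cX P / d) * cub (cX Q / d)
  have h1 : cub (cX P / d) = cY P ^ 2 / d ^ 3 := by
    rw [pt_eqn]; unfold cub; field_simp
  have h2 : cub (cX Q / d) = cY Q ^ 2 / d ^ 3 := by
    rw [pt_eqn]; unfold cub; field_simp
  rw [h1, h2]
  ring

theorem kuc (trx : TrxStmt) : KucStmt := by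
  intro F _ hF d hd P0 Q0 hU V hV hz
  have hne : cY P0 * cY Q0 / d ^ 3 ≠ 0 := hU.2
  have hP : P0 ≠ 0 := by
    rintro rfl
    apply hne
    show (0 : F) * cY Q0 / d ^ 3 = 0
    ring
  have hQ : Q0 ≠ 0 := by
    rintro rfl
    apply hne
    show cY P0 * (0 : F) / d ^ 3 = 0
    ring
  let g : (F × F) × (F × F) → F × F × F := fun w => (w.1.1 / d, w.2.1 / d, w.1.2 * w.2.2 / d ^ 3)
  have hg : Continuous g := by
    show Continuous fun w : (F × F) × (F × F) =>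
      ((w.1.1 / d, w.2.1 / d, w.1.2 * w.2.2 / d ^ 3) : F × F × F)
    fun_prop (disch := simp [hd])
  have hW : IsOpen (V ∩ {z : F × F × F | z.2.2 ≠ 0}) := by
    refine hV.inter ?_
    exact isOpen_ne_fun (by fun_prop) (by fun_prop)
  have hO : IsOpen (g ⁻¹' (V ∩ {z : F × F × F | z.2.2 ≠ 0})) := hW.preimage hg
  have hmem : ((cX P0, cY P0), (cX Q0, cY Q0)) ∈ g ⁻¹' (V ∩ {z : F × F × F | z.2.2 ≠ 0}) :=
    ⟨hz, hne⟩
  obtain ⟨ε, hε, hb⟩ := Metric.isOpen_iff.1 hO _ hmem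
  obtain ⟨N1, h1⟩ := trx F hF d hd P0 hP ε hε
  obtain ⟨N2, h2⟩ := trx F hF d hd Q0 hQ ε hε
  refine ⟨max N1 N2, ?_⟩
  intro p q hp hq
  have hp1 : Big N1 p := by
    rcases hp with hp | hp
    · exact Or.inl hp
    · exact Or.inr (lt_of_le_of_lt (le_max_left _ _) hp)
  have hq1 : Big N2 q := by
    rcases hq with hq | hq
    · exact Or.inl hq
    · exact Or.inr (lt_of_le_of_lt (le_max_right _ _) hq)
  obtain ⟨_, a1, a2⟩ := h1 p hp1
  obtain ⟨_, b1, b2⟩ := h2 q hq1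
  have hin : ((cX (P0 + p), cY (P0 + p)), (cX (Q0 + q), cY (Q0 + q))) ∈
      g ⁻¹' (V ∩ {z : F × F × F | z.2.2 ≠ 0}) := by
    apply hb
    rw [Metric.mem_ball, Prod.dist_eq, Prod.dist_eq, Prod.dist_eq]
    simp only [dist_eq_norm]
    exact max_lt (max_lt a1 a2) (max_lt b1 b2)
  exact ⟨hin.1, onU_kum hd _ _ hin.2⟩

end Pool.Agent.WAR.H42
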