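import Pool.Agent.WAR.StmtsM
import Pool.Agent.WAR.StmtsT
import Pool.Agent.WAR.Alg

/-!
# Row MCN of squad WAR (MP_ff4683_nt): continuity in the matrix
-/

set_option autoImplicit false

namespace Pool.Agent.WAR.H49

open Pool.Agent.WAR Pool.Agent.WAR.G
open Classical

variable [Par]

theorem mcn (fra : FraStmt) (kuc : KucStmt) (gdf : GdfStmt) (nrm : NrmStmt) (lvb : LvbStmt)
    (zlv : ZlvStmt) : McnStmt := by
  intro F _ ϖ hL a b c e hdet z z' hz1 hz2 hstep V hV hzV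
  haveI hGd : Gd F := hL.gd
  obtain ⟨hzU, hz'U, hm⟩ := hstep
  have hz' : z' = actf a b c e z := hm.2
  obtain ⟨d, P, Q, hd, rfl⟩ := nrm F ϖ hL z hzU
  have hq0 : 0 < qn F ϖ := hL.uni
  have hd0 : d ≠ 0 := by
    rw [← norm_pos_iff]
    rcases hd with h | h
    · rw [h]; exact one_pos
    · rw [h]; exact hq0
  have hG : GoodF F := gdf F (Or.inl ⟨ϖ, hL⟩)
  have h2 := hL.two_ne
  have hP : Big 1 P := Or.inr hz1
  have hQ : Big 1 Q := Or.inr hz2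
  have hf := fra F h2 d P Q a b c e hd0 hzU
  rw [hf] at hz'
  subst hz'
  obtain ⟨N1, hN1⟩ := kuc F hG d hd0 _ _ hz'U V hV hzV
  obtain ⟨ρ, hρ, hρN⟩ := (lvb F ϖ hL d hd0).1 N1
  obtain ⟨l1, -, -, -, -, -, l7, -⟩ := zlv F ϖ hL d hd0
  obtain ⟨k, hk⟩ := l7 ρ hρ
  refine ⟨k, fun a' b' c' e' hdet' ha hb hc he => ?_⟩
  have hp : Big N1 (sm (a' - a) P + sm (b' - b) Q) :=
    hρN _ (l1 ρ _ _ (hk _ _ hP ha) (hk _ _ hQ hb)).1
  have hq : Big N1 (sm (c' - c) P + sm (e' - e) Q) :=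
    hρN _ (l1 ρ _ _ (hk _ _ hP hc) (hk _ _ hQ he)).1
  obtain ⟨hV1, hU1⟩ := hN1 _ _ hp hq
  have e1 : sm a P + sm b Q + (sm (a' - a) P + sm (b' - b) Q) = sm a' P + sm b' Q := by
    rw [sub_sm, sub_sm]
    abel
  have e2 : sm c P + sm e Q + (sm (c' - c) P + sm (e' - e) Q) = sm c' P + sm e' Q := by
    rw [sub_sm, sub_sm]
    abel
  rw [e1, e2] at hV1 hU1
  exact ⟨_, hV1, hzU, hU1, hdet', (fra F h2 d P Q a' b' c' e' hd0 hzU).symm⟩

end Pool.Agent.WAR.H49
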