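import Pool.Agent.WAR.StmtsT

set_option autoImplicit false

/-!
# WAR, row INJ: multiplication by `a ≠ 0` is injective near the origin
-/

namespace Pool.Agent.WAR.H60

open Pool.Agent.WAR
open Classical

variable [Par] {F : Type} [NormedField F] {d : F}

theorem eqn {P : Pt d} : cY P ^ 2 = cX P * (cX P - d * ea F) * (cX P - d * eb F) := by
  rcases P with _ | ⟨x, y, h⟩
  · show (0 : F) ^ 2 = 0 * (0 - d * ea F) * (0 - d * eb F)
    ring
  · exact (W_equation d x y).mp h.1

theorem cX_neg (P : Pt d) : cX (-P) = cX P := by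
  rcases P with _ | ⟨x, y, h⟩
  · rfl
  · rfl

theorem big_neg {N : ℝ} {p : Pt d} (h : Big N p) : Big N (-p) := by
  rcases h with h | h
  · left
    rw [h, neg_zero]
  · right
    rw [cX_neg]
    exact h

theorem big_mono {N N' : ℝ} (hN : N ≤ N') {p : Pt d} (h : Big N' p) : Big N p := by
  rcases h with h | h
  · exact Or.inl h
  · exact Or.inr (lt_of_le_of_lt hN h)

/-- the parameter of a point near the origin is not zero -/
theorem cz_ne (hd : d ≠ 0) {p : Pt d} (hp : p ≠ 0) (h : Big (‖ea F‖ + ‖eb F‖) p) :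
    cz p ≠ 0 := by
  rcases h with h | h
  · exact absurd h hp
  have ha0 := norm_nonneg (ea F)
  have hb0 := norm_nonneg (eb F)
  have hX : cX p ≠ 0 := by
    intro h0
    rw [h0, zero_div, norm_zero] at h
    linarith
  have hY : cY p ≠ 0 := by
    intro h0
    have e := eqn (P := p)
    rw [h0] at e
    have e2 : cX p * ((cX p - d * ea F) * (cX p - d * eb F)) = 0 := by linear_combination -e
    rcases mul_eq_zero.mp e2 with h1 | h1
    · exact hX h1
    · rcases mul_eq_zero.mp h1 with h2 | h2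
      · have h3 : cX p = d * ea F := by linear_combination h2
        rw [h3, mul_div_cancel_left₀ _ hd] at h
        linarith
      · have h3 : cX p = d * eb F := by linear_combination h2
        rw [h3, mul_div_cancel_left₀ _ hd] at h
        linarith
  exact div_ne_zero hX hY

/-- **INJ** -/
theorem inj (hZsm : ZsmStmt) (hAdn : AdnStmt) : InjStmt := by
  intro F _ hG d hd a ha
  have haF : am F a ≠ 0 := hG.1 a ha
  have hapos : 0 < ‖am F a‖ := norm_pos_iff.mpr haF
  obtain ⟨N1, hN1⟩ := hZsm F hG d hd a (‖am F a‖ / 2) (by positivity)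
  obtain ⟨N, hN⟩ := hAdn F hG d hd (max N1 (‖ea F‖ + ‖eb F‖))
  refine ⟨N, ?_⟩
  intro p q hp hq hpq
  have h1 : Big (max N1 (‖ea F‖ + ‖eb F‖)) (p + -q) := hN p (-q) hp (big_neg hq)
  by_contra hne
  have hr : p + -q ≠ 0 := by
    intro h0
    apply hne
    exact eq_of_sub_eq_zero (by rw [sub_eq_add_neg]; exact h0)
  have hz : cz (p + -q) ≠ 0 := cz_ne hd hr (big_mono (le_max_right _ _) h1)
  have h2 := hN1 (p + -q) (big_mono (le_max_left _ _) h1)
  have h3 : sm a (p + -q) = 0 := by
    rw [sm_def, sm_def] at hpq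
    rw [sm_def, smul_add, smul_neg, hpq, add_neg_cancel]
  have hc0 : cz (0 : Pt d) = 0 := by
    show (0 : F) / 0 = 0
    simp
  rw [h3, hc0, zero_sub, norm_neg, norm_mul] at h2
  have h4 : 0 < ‖cz (p + -q)‖ := norm_pos_iff.mpr hz
  nlinarith

end Pool.Agent.WAR.H60
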