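import Pool.Agent.WAR.StmtsL

/-!
# WAR, row KIL (port of Helper65_WAP/KIL)
-/

set_option autoImplicit false

namespace Pool.Agent.WAR.H65

open Classical Polynomial WeierstrassCurve.Affine
open Pool.Agent.WAR

variable [Par]

section laws

variable {F : Type} [Field F] {d : F}

theorem sm_add' (a : ℤ) (P Q : Pt d) : sm a (P + Q) = sm a P + sm a Q := by
  simp only [sm_def, smul_add]

theorem add_sm' (a b : ℤ) (P : Pt d) : sm (a + b) P = sm a P + sm b P := by
  simp only [sm_def, add_smul]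

theorem mul_sm' (a b : ℤ) (P : Pt d) : sm (a * b) P = sm a (sm b P) := by
  simp only [sm_def, mul_smul]

theorem one_sm' (P : Pt d) : sm 1 P = P := by
  simp only [sm_def, one_smul]

theorem sub_sm' (a b : ℤ) (P : Pt d) : sm (a - b) P = sm a P - sm b P := by
  simp only [sm_def, sub_smul]

theorem sm_sub' (a : ℤ) (P Q : Pt d) : sm a (P - Q) = sm a P - sm a Q := by
  simp only [sm_def, smul_sub]

theorem two_sm' (P : Pt d) : sm 2 P = P + P := by
  have h : (2 : ℤ) = 1 + 1 := by norm_num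
  rw [h, add_sm', one_sm']

theorem tor_add_self' (e : F) : tor d e + tor d e = 0 := by
  unfold tor mkPt
  split_ifs with h
  · exact WeierstrassCurve.Affine.Point.add_of_Y_eq rfl (by rw [W_negY, neg_zero])
  · exact add_zero (0 : Pt d)

end laws

theorem d_ne_zero' {F : Type} [NormedField F] {ϖ : ℤ}
    (hloc : IsLoc F ϖ) {d : F} (hd : ‖d‖ = 1 ∨ ‖d‖ = qn F ϖ) : d ≠ 0 := by
  intro h
  rw [h, norm_zero] at hd
  rcases hd with hd | hd
  · exact zero_ne_one hd
  · have := hloc.uni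
    unfold qn at hd
    rw [← hd] at this
    exact lt_irrefl _ this

/-- twice a 2-torsion point is zero -/
theorem isT_two {F : Type} [NormedField F] {d : F} {T : Pt d} (hT : IsT T) : T + T = 0 := by
  rcases hT with h | h | h | h
  · rw [h, add_zero]
  · rw [h]; exact tor_add_self' _
  · rw [h]; exact tor_add_self' _
  · rw [h]; exact tor_add_self' _

/-- Some nonzero multiple of every point is in the kernel of reduction. -/
theorem exists_big (zlv : ZlvStmt) (cnt : CntStmt) (ram : RamStmt) {F : Type} [NormedField F]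
    {ϖ : ℤ} (hloc : IsLoc F ϖ) {d : F}
    (hd : ‖d‖ = 1 ∨ ‖d‖ = qn F ϖ) (P : Pt d) :
    ∃ a : ℤ, a ≠ 0 ∧ Big 1 (sm a P) := by
  have hd0 := d_ne_zero' hloc hd
  obtain ⟨z1, z2, z3, z4, z5, z6, z7, z8⟩ := zlv F ϖ hloc d hd0
  have hbig0 : Big 1 (0 : Pt d) := Or.inl rfl
  have hbs : ∀ (a : ℤ) (Q : Pt d), Big 1 Q → Big 1 (sm a Q) :=
    fun a Q hQ => (z2 ‖zs Q‖ a Q ⟨hQ, le_rfl⟩).1
  rcases hd with hd1 | hdq
  · by_contra hcon
    have hno : ∀ a : ℤ, a ≠ 0 → ¬ Big 1 (sm a P) := by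
      intro a ha hb
      exact hcon ⟨a, ha, hb⟩
    have hdiff : ∀ i j : ℕ, i ≠ j →
        ¬ Big 1 (sm (i : ℤ) P - sm (j : ℤ) P) := by
      intro i j hij
      rw [← sub_sm']
      apply hno
      intro h
      apply hij
      have h3 : (i : ℤ) = (j : ℤ) := sub_eq_zero.mp h
      exact_mod_cast h3
    have hinj : Function.Injective (fun j : ℕ => sm (j : ℤ) P) := by
      intro i j hij
      by_contra hne
      apply hdiff i j hne
      have h3 : sm (i : ℤ) P = sm (j : ℤ) P := hij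
      rw [h3, sub_self]
      exact hbig0
    have hcard := cnt F ϖ hloc d hd1
      ((Finset.range (2 * nm ϖ + 2)).image (fun j : ℕ => sm (j : ℤ) P)) (by
        intro Q hQ R hR hne
        rw [Finset.mem_image] at hQ hR
        obtain ⟨i, _, rfl⟩ := hQ
        obtain ⟨j, _, rfl⟩ := hR
        apply hdiff
        intro h
        exact hne (by rw [h]))
    rw [Finset.card_image_of_injective _ hinj, Finset.card_range] at hcard
    omega
  · refine ⟨2, two_ne_zero, ?_⟩
    obtain ⟨T, hT, hb⟩ := ram F ϖ hloc d hdq P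
    have h3 := hbs 2 _ hb
    rw [sm_sub', two_sm' T, isT_two hT, sub_zero] at h3
    exact h3

/-- KIL -/
theorem kil (zlv : ZlvStmt) (cnt : CntStmt) (ram : RamStmt) (pt2 : Pt2Stmt) : KilStmt := by
  intro F _ ϖ hloc d hd l hl hl2 hnas hnm P ρ hρ
  have hd0 := d_ne_zero' hloc hd
  obtain ⟨z1, z2, z3, z4, z5, z6, z7, z8⟩ := zlv F ϖ hloc d hd0
  obtain ⟨a, ha0, haB⟩ := exists_big zlv cnt ram hloc hd P
  obtain ⟨j, m, hm, rfl⟩ := WfDvdMonoid.max_power_factor ha0 hl.irreducible
  have hpow : ∀ (j : ℕ) (Q : Pt d), Big 1 (sm (l ^ j) Q) → Big 1 Q := by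
    intro j
    induction j with
    | zero =>
      intro Q hQ
      rw [pow_zero, one_sm'] at hQ
      exact hQ
    | succ j ih =>
      intro Q hQ
      rw [pow_succ, mul_comm, mul_sm'] at hQ
      exact ih Q (pt2 F ϖ hloc d hd l hl hl2 hnm _ hQ)
  have hmB : Big 1 (sm m P) := by
    apply hpow j
    rw [← mul_sm']
    exact haB
  obtain ⟨k, hk⟩ := z7 ρ hρ
  refine ⟨m * ϖ ^ k, ?_, ?_⟩
  · intro hdvd
    rcases hl.dvd_or_dvd hdvd with h | h
    · exact hm h
    · have h1 := hl.dvd_of_dvd_pow h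
      exact hnas ((hl.irreducible.associated_of_dvd hloc.prime.irreducible h1).symm)
  · rintro n ⟨b, rfl⟩
    have h1 : m * ϖ ^ k * b = (ϖ ^ k * b) * m := by ring
    rw [h1, mul_sm']
    exact hk (ϖ ^ k * b) (sm m P) hmB (dvd_mul_right _ _)

end Pool.Agent.WAR.H65
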