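import Pool.Agent.WAR.Curve

/-!
# WAR: coordinates of sums (port of Helper32_WAP/Add.lean)

`W d : Y ^ 2 = X (X - d a) (X - d b)`.
-/

namespace Pool.Agent.WAR.H69

open WeierstrassCurve WeierstrassCurve.Affine

variable [Par] {F : Type} [Field F]

theorem cX_zero {d : F} : cX (0 : (W d).Point) = 0 := rfl
theorem cY_zero {d : F} : cY (0 : (W d).Point) = 0 := rfl

theorem ne_zero_cases {d : F} {P : (W d).Point} (hP : P ≠ 0) :
    ∃ h, P = Point.some (cX P) (cY P) h := by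
  rcases P with _ | ⟨x, y, h⟩
  · exact absurd rfl hP
  · exact ⟨h, rfl⟩

theorem eqn {d : F} {P : (W d).Point} :
    cY P ^ 2 = cX P * (cX P - d * ea F) * (cX P - d * eb F) := by
  rcases P with _ | ⟨x, y, h⟩
  · show (0 : F) ^ 2 = 0 * (0 - d * ea F) * (0 - d * eb F)
    ring
  · exact (W_equation d x y).mp h.1

theorem ext_pt {d : F} {P Q : (W d).Point} (hP : P ≠ 0) (hQ : Q ≠ 0) (hx : cX P = cX Q)
    (hy : cY P = cY Q) : P = Q := by
  obtain ⟨h1, e1⟩ := ne_zero_cases hP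
  obtain ⟨h2, e2⟩ := ne_zero_cases hQ
  rw [e1, e2]
  congr 1

theorem ne_zero_of_cY {d : F} {P : (W d).Point} (h : cY P ≠ 0) : P ≠ 0 := by
  rintro rfl
  exact h rfl

theorem ne_zero_of_cX {d : F} {P : (W d).Point} (h : cX P ≠ 0) : P ≠ 0 := by
  rintro rfl
  exact h rfl

theorem cX_neg {d : F} (P : (W d).Point) : cX (-P) = cX P := by
  rcases P with _ | ⟨x, y, h⟩
  · rfl
  · rfl

theorem cY_neg {d : F} (P : (W d).Point) : cY (-P) = -cY P := by
  rcases P with _ | ⟨x, y, h⟩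
  · show (0 : F) = -0
    ring
  · show (W d).negY x y = -y
    exact W_negY d x y

variable [DecidableEq F]

/-- sum of points with different X -/
theorem add_ne {d : F} {P Q : (W d).Point} (hP : P ≠ 0) (hQ : Q ≠ 0) (hx : cX P ≠ cX Q) :
    P + Q ≠ 0 ∧ cX (P + Q) =
      ((cY P - cY Q) / (cX P - cX Q)) ^ 2 + d * (ea F + eb F) - cX P - cX Q ∧
    cY (P + Q) = -(((cY P - cY Q) / (cX P - cX Q)) * (cX (P + Q) - cX P) + cY P) := by
  rcases P with _ | ⟨x1, y1, h1⟩
  · exact absurd rfl hP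
  rcases Q with _ | ⟨x2, y2, h2⟩
  · exact absurd rfl hQ
  change x1 ≠ x2 at hx
  have hxy : ¬ (x1 = x2 ∧ y1 = (W d).negY x2 y2) := fun h => hx h.1
  rw [Affine.Point.add_some hxy]
  refine ⟨Affine.Point.some_ne_zero _, ?_, ?_⟩
  · show (W d).addX x1 x2 ((W d).slope x1 x2 y1 y2) =
      ((y1 - y2) / (x1 - x2)) ^ 2 + d * (ea F + eb F) - x1 - x2
    rw [W_addX, Affine.slope_of_X_ne hx]
  · show (W d).addY x1 x2 y1 ((W d).slope x1 x2 y1 y2) =
      -(((y1 - y2) / (x1 - x2)) * ((W d).addX x1 x2 ((W d).slope x1 x2 y1 y2) - x1) + y1)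
    rw [W_addY, W_addX, Affine.slope_of_X_ne hx]

/-- the double of a point -/
theorem add_self {d : F} {P : (W d).Point} (h2 : (2 : F) ≠ 0) (hy : cY P ≠ 0) :
    P + P ≠ 0 ∧ cX (P + P) =
      ((3 * cX P ^ 2 - 2 * d * (ea F + eb F) * cX P + d ^ 2 * (ea F * eb F)) / (2 * cY P)) ^ 2
        + d * (ea F + eb F) - 2 * cX P ∧
    cY (P + P) =
      -(((3 * cX P ^ 2 - 2 * d * (ea F + eb F) * cX P + d ^ 2 * (ea F * eb F)) / (2 * cY P)) *
        (cX (P + P) - cX P) + cY P) := by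
  rcases P with _ | ⟨x1, y1, h1⟩
  · exact absurd rfl hy
  change y1 ≠ 0 at hy
  have hy' : y1 ≠ (W d).negY x1 y1 := by
    rw [W_negY]
    intro h
    apply hy
    have : 2 * y1 = 0 := by linear_combination h
    rcases mul_eq_zero.mp this with h | h
    · exact absurd h h2
    · exact h
  have hxy : ¬ (x1 = x1 ∧ y1 = (W d).negY x1 y1) := fun h => hy' h.2
  rw [Affine.Point.add_some hxy]
  have hs : (3 * x1 ^ 2 + 2 * (W d).a₂ * x1 + (W d).a₄ - (W d).a₁ * y1) / (y1 - (W d).negY x1 y1)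
      = (3 * x1 ^ 2 - 2 * d * (ea F + eb F) * x1 + d ^ 2 * (ea F * eb F)) / (2 * y1) := by
    rw [W_negY]
    simp only [W]
    congr 1 <;> ring
  refine ⟨Affine.Point.some_ne_zero _, ?_, ?_⟩
  · show (W d).addX x1 x1 ((W d).slope x1 x1 y1 y1) =
      ((3 * x1 ^ 2 - 2 * d * (ea F + eb F) * x1 + d ^ 2 * (ea F * eb F)) / (2 * y1)) ^ 2
        + d * (ea F + eb F) - 2 * x1
    rw [W_addX, Affine.slope_of_Y_ne rfl hy', hs]
    ring
  · show (W d).addY x1 x1 y1 ((W d).slope x1 x1 y1 y1) =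
      -(((3 * x1 ^ 2 - 2 * d * (ea F + eb F) * x1 + d ^ 2 * (ea F * eb F)) / (2 * y1)) *
        ((W d).addX x1 x1 ((W d).slope x1 x1 y1 y1) - x1) + y1)
    rw [W_addY, W_addX, Affine.slope_of_Y_ne rfl hy', hs]

/-- if the X-coordinates agree, then the points are equal or opposite -/
theorem eq_or_neg {d : F} {P Q : (W d).Point} (hP : P ≠ 0) (hQ : Q ≠ 0) (hx : cX P = cX Q) :
    P = Q ∨ P = -Q := by
  have e1 := eqn (P := P)
  have e2 := eqn (P := Q)
  have : (cY P - cY Q) * (cY P + cY Q) = 0 := by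
    rw [hx] at e1
    linear_combination e1 - e2
  rcases mul_eq_zero.mp this with h | h
  · left
    exact ext_pt hP hQ hx (by linear_combination h)
  · right
    exact ext_pt hP (by simpa using hQ) (by rw [cX_neg, hx]) (by rw [cY_neg]; linear_combination h)

end Pool.Agent.WAR.H69
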