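import Pool.Agent.WAR.StmtsL
import Pool.Agent.Helper32_WAR.H69_Add

/-! Squad WAR, row CRI: the criterion for congruence. -/

namespace Pool.Agent.WAR.H69

open Classical WeierstrassCurve.Affine Pool.Agent.WAR

section ultra

variable {F : Type} [NormedField F] (hu : ∀ x y : F, ‖x + y‖ ≤ max ‖x‖ ‖y‖)

include hu

theorem add_le1 {x y : F} (hx : ‖x‖ ≤ 1) (hy : ‖y‖ ≤ 1) : ‖x + y‖ ≤ 1 :=
  (hu x y).trans (max_le hx hy)

theorem sub_le1 {x y : F} (hx : ‖x‖ ≤ 1) (hy : ‖y‖ ≤ 1) : ‖x - y‖ ≤ 1 := by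
  rw [sub_eq_add_neg]
  exact add_le1 hu hx (by rwa [norm_neg])

theorem add_lt1 {x y : F} (hx : ‖x‖ < 1) (hy : ‖y‖ < 1) : ‖x + y‖ < 1 :=
  (hu x y).trans_lt (max_lt hx hy)

theorem add_eq1 {x y : F} (hx : ‖x‖ < 1) (hy : ‖y‖ = 1) : ‖x + y‖ = 1 := by
  apply le_antisymm (add_le1 hu hx.le hy.le)
  by_contra h
  have h1 : ‖x + y‖ < 1 := lt_of_not_ge h
  have h2 := hu (x + y) (-x)
  rw [norm_neg] at h2
  have h3 : x + y + -x = y := by ring
  rw [h3, hy] at h2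
  exact absurd (max_lt h1 hx) (not_lt.2 h2)

theorem big_iff {x a : F} (ha : ‖a‖ ≤ 1) : 1 < ‖x - a‖ ↔ 1 < ‖x‖ := by
  constructor
  · intro h
    by_contra h1
    exact absurd (sub_le1 hu (not_lt.1 h1) ha) (not_le.2 h)
  · intro h
    by_contra h1
    have := add_le1 hu (not_lt.1 h1) ha
    rw [sub_add_cancel] at this
    exact absurd this (not_le.2 h)

omit hu in
theorem mul_le1 {x y : F} (hx : ‖x‖ ≤ 1) (hy : ‖y‖ ≤ 1) : ‖x * y‖ ≤ 1 := by
  rw [norm_mul]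
  exact mul_le_one₀ hx (norm_nonneg _) hy

omit hu in
theorem mul_lt1 {x y : F} (hx : ‖x‖ < 1) (hy : ‖y‖ ≤ 1) : ‖x * y‖ < 1 := by
  rw [norm_mul]
  calc ‖x‖ * ‖y‖ ≤ ‖x‖ * 1 := mul_le_mul_of_nonneg_left hy (norm_nonneg _)
    _ < 1 := by rw [mul_one]; exact hx

end ultra

variable [Par]

/-- the coordinates of an integral point: `Y` is integral -/
theorem norm_Y_le {F : Type} [NormedField F] {ϖ : ℤ} (hL : IsLoc F ϖ) {d X Y : F} (hd : ‖d‖ = 1)
    (hX : ‖X‖ ≤ 1) (e : Y ^ 2 = X * (X - d * ea F) * (X - d * eb F)) : ‖Y‖ ≤ 1 := by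
  have hu := hL.ultra
  have nda : ‖d * ea F‖ ≤ 1 := mul_le1 hd.le hL.norm_ea.le
  have ndb : ‖d * eb F‖ ≤ 1 := mul_le1 hd.le hL.norm_eb.le
  have h3 : ‖Y‖ ^ 2 ≤ 1 := by
    rw [← norm_pow, e]
    exact mul_le1 (mul_le1 hX (sub_le1 hu hX nda)) (sub_le1 hu hX ndb)
  by_contra h4
  have h5 : 1 < ‖Y‖ := not_le.1 h4
  nlinarith

/-- if `Y` is small, then `X` is near a root and the derivative of the cubic is a unit -/
theorem unit_der {F : Type} [NormedField F] {ϖ : ℤ} (hL : IsLoc F ϖ) {d X Y : F} (hd : ‖d‖ = 1)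
    (hX : ‖X‖ ≤ 1) (hY : ‖Y‖ < 1) (e : Y ^ 2 = X * (X - d * ea F) * (X - d * eb F)) :
    (‖X‖ < 1 ∨ ‖X - d * ea F‖ < 1 ∨ ‖X - d * eb F‖ < 1) ∧
    ‖3 * X ^ 2 - 2 * d * (ea F + eb F) * X + d ^ 2 * (ea F * eb F)‖ = 1 := by
  have hu := hL.ultra
  have n2 : ‖(2 : F)‖ = 1 := hL.norm_two
  have n3 : ‖(3 : F)‖ ≤ 1 := by
    have := hL.int 3
    rwa [am_apply, Int.cast_ofNat] at this
  have na := hL.norm_ea
  have nb := hL.norm_eb
  have nab := hL.norm_eab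
  have nda : ‖d * ea F‖ ≤ 1 := mul_le1 hd.le na.le
  have ndb : ‖d * eb F‖ ≤ 1 := mul_le1 hd.le nb.le
  have ns : ‖2 * d * (ea F + eb F)‖ ≤ 1 :=
    mul_le1 (mul_le1 n2.le hd.le) (add_le1 hu na.le nb.le)
  have hcases : ‖X‖ < 1 ∨ ‖X - d * ea F‖ < 1 ∨ ‖X - d * eb F‖ < 1 := by
    by_contra hcon
    rw [not_or, not_or] at hcon
    obtain ⟨c1, c2, c3⟩ := hcon
    have h1 : ‖Y‖ ^ 2 < 1 := pow_lt_one₀ (norm_nonneg _) hY (by norm_num)
    rw [← norm_pow, e, norm_mul, norm_mul, le_antisymm hX (not_lt.1 c1),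
      le_antisymm (sub_le1 hu hX nda) (not_lt.1 c2),
      le_antisymm (sub_le1 hu hX ndb) (not_lt.1 c3)] at h1
    norm_num at h1
  refine ⟨hcases, ?_⟩
  rcases hcases with h | h | h
  · have e1 : 3 * X ^ 2 - 2 * d * (ea F + eb F) * X + d ^ 2 * (ea F * eb F) =
        X * (3 * X - 2 * d * (ea F + eb F)) + d ^ 2 * (ea F * eb F) := by ring
    rw [e1]
    apply add_eq1 hu
    · exact mul_lt1 h (sub_le1 hu (mul_le1 n3 hX) ns)
    · rw [norm_mul, norm_mul, norm_pow, hd, na, nb]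
      norm_num
  · have e1 : 3 * X ^ 2 - 2 * d * (ea F + eb F) * X + d ^ 2 * (ea F * eb F) =
        (X - d * ea F) * (3 * X + 3 * (d * ea F) - 2 * d * (ea F + eb F)) +
          d ^ 2 * (ea F * (ea F - eb F)) := by ring
    rw [e1]
    apply add_eq1 hu
    · exact mul_lt1 h (sub_le1 hu (add_le1 hu (mul_le1 n3 hX) (mul_le1 n3 nda)) ns)
    · rw [norm_mul, norm_mul, norm_pow, hd, na, nab]
      norm_num
  · have e1 : 3 * X ^ 2 - 2 * d * (ea F + eb F) * X + d ^ 2 * (ea F * eb F) =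
        (X - d * eb F) * (3 * X + 3 * (d * eb F) - 2 * d * (ea F + eb F)) +
          -(d ^ 2 * (eb F * (ea F - eb F))) := by ring
    rw [e1]
    apply add_eq1 hu
    · exact mul_lt1 h (sub_le1 hu (add_le1 hu (mul_le1 n3 hX) (mul_le1 n3 ndb)) ns)
    · rw [norm_neg, norm_mul, norm_mul, norm_pow, hd, nb, nab]
      norm_num

theorem cri : CriStmt := by
  intro F _ ϖ hL d hd X1 Y1 X2 Y2 h1 h2 hX1 hX2
  have hu := hL.ultra
  have hd0 : d ≠ 0 := by
    intro h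
    rw [h, norm_zero] at hd
    exact zero_ne_one hd
  have n2 : ‖(2 : F)‖ = 1 := hL.norm_two
  have n3 : ‖(3 : F)‖ ≤ 1 := by
    have := hL.int 3
    rwa [am_apply, Int.cast_ofNat] at this
  have h20 : (2 : F) ≠ 0 := hL.two_ne
  have na := hL.norm_ea
  have nb := hL.norm_eb
  have ns : ‖d * (ea F + eb F)‖ ≤ 1 := mul_le1 hd.le (add_le1 hu na.le nb.le)
  have np : ‖d ^ 2 * (ea F * eb F)‖ ≤ 1 :=
    mul_le1 (by rw [norm_pow, hd, one_pow]) (mul_le1 na.le nb.le)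
  have e1 : Y1 ^ 2 = X1 * (X1 - d * ea F) * (X1 - d * eb F) := (W_equation d X1 Y1).mp h1.1
  have e2 : Y2 ^ 2 = X2 * (X2 - d * ea F) * (X2 - d * eb F) := (W_equation d X2 Y2).mp h2.1
  have hY1 : ‖Y1‖ ≤ 1 := norm_Y_le hL hd hX1 e1
  have hY2 : ‖Y2‖ ≤ 1 := norm_Y_le hL hd hX2 e2
  have hsq1 : ‖X1 ^ 2‖ ≤ 1 := by rw [norm_pow]; exact pow_le_one₀ (norm_nonneg _) hX1
  have hsq2 : ‖X2 ^ 2‖ ≤ 1 := by rw [norm_pow]; exact pow_le_one₀ (norm_nonneg _) hX2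
  set P : Pt d := Point.some X1 Y1 h1 with hP
  set Q : Pt d := Point.some X2 Y2 h2 with hQ
  have hP0 : P ≠ 0 := Point.some_ne_zero h1
  have hQ0 : Q ≠ 0 := Point.some_ne_zero h2
  have hQn : -Q ≠ 0 := neg_ne_zero.2 hQ0
  have cXP : cX P = X1 := rfl
  have cYP : cY P = Y1 := rfl
  have cXQ : cX Q = X2 := rfl
  have cYQ : cY Q = Y2 := rfl
  have hBig : ∀ R : Pt d, R ≠ 0 → (Big 1 R ↔ 1 < ‖cX R‖) := by
    intro R hR
    unfold Big
    rw [norm_div, hd, div_one]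
    exact ⟨fun h => h.resolve_left hR, Or.inr⟩
  by_cases hX : X1 = X2
  · rcases eq_or_neg (P := P) (Q := Q) hP0 hQ0 hX with h | h
    · have hY : Y1 = Y2 := by rw [← cYP, ← cYQ, h]
      rw [h, sub_self, hX, hY, sub_self, sub_self, norm_zero]
      exact ⟨fun _ => ⟨zero_lt_one, zero_lt_one⟩, fun _ => Or.inl rfl⟩
    · have hY : Y1 = -Y2 := by rw [← cYP, ← cYQ, h, cY_neg]
      by_cases hY0 : Y1 = 0
      · have hQP : P = Q := by
          apply ext_pt hP0 hQ0 hX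
          rw [cYP, cYQ, hY0]
          rw [hY0] at hY
          exact (neg_eq_zero.1 hY.symm).symm
        have hY' : Y1 = Y2 := by rw [← cYP, ← cYQ, hQP]
        rw [hQP, sub_self, hX, hY', sub_self, sub_self, norm_zero]
        exact ⟨fun _ => ⟨zero_lt_one, zero_lt_one⟩, fun _ => Or.inl rfl⟩
      · have hPQ : P - Q = P + P := by
          rw [sub_eq_add_neg]
          congr 1
          rw [h]
        obtain ⟨hne, hcx, -⟩ := add_self (P := P) h20 (by rw [cYP]; exact hY0)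
        have hYY : Y1 - Y2 = 2 * Y1 := by
          have : Y2 = -Y1 := by rw [hY, neg_neg]
          rw [this]
          ring
        have e3 : ((3 * X1 ^ 2 - 2 * d * (ea F + eb F) * X1 + d ^ 2 * (ea F * eb F)) / (2 * Y1)) ^ 2
            + d * (ea F + eb F) - 2 * X1 =
            ((3 * X1 ^ 2 - 2 * d * (ea F + eb F) * X1 + d ^ 2 * (ea F * eb F)) / (2 * Y1)) ^ 2
            - (2 * X1 - d * (ea F + eb F)) := by ring
        rw [hPQ, hBig _ hne, hcx, cXP, cYP, e3,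
          big_iff hu (sub_le1 hu (mul_le1 n2.le hX1) ns), hX, sub_self, norm_zero, hYY,
          norm_mul, n2, one_mul, norm_pow, norm_div, norm_mul, n2, one_mul, ← hX]
        have hYpos : 0 < ‖Y1‖ := norm_pos_iff.2 hY0
        constructor
        · intro h3
          refine ⟨zero_lt_one, ?_⟩
          have h4 : 1 < ‖3 * X1 ^ 2 - 2 * d * (ea F + eb F) * X1 + d ^ 2 * (ea F * eb F)‖ /
              ‖Y1‖ := by
            by_contra h5
            exact absurd (pow_le_one₀ (by positivity) (not_lt.1 h5)) (not_le.2 h3)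
          rw [lt_div_iff₀ hYpos, one_mul] at h4
          refine h4.trans_le ?_
          refine add_le1 hu (sub_le1 hu (mul_le1 n3 hsq1) ?_) np
          have e4 : 2 * d * (ea F + eb F) * X1 = 2 * (d * (ea F + eb F)) * X1 := by ring
          rw [e4]
          exact mul_le1 (mul_le1 n2.le ns) hX1
        · rintro ⟨-, h3⟩
          rw [(unit_der hL hd hX1 h3 e1).2]
          exact one_lt_pow₀ (by rw [lt_div_iff₀ hYpos, one_mul]; exact h3) (by norm_num)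
  · have hXne : cX P ≠ cX (-Q) := by rw [cX_neg]; exact hX
    obtain ⟨hne, hcx, -⟩ := add_ne (P := P) (Q := -Q) hP0 hQn hXne
    have hXpos : 0 < ‖X1 - X2‖ := norm_pos_iff.2 (sub_ne_zero.2 hX)
    have e3 : ((Y1 + Y2) / (X1 - X2)) ^ 2 + d * (ea F + eb F) - X1 - X2 =
        ((Y1 + Y2) / (X1 - X2)) ^ 2 - (X1 + X2 - d * (ea F + eb F)) := by ring
    rw [sub_eq_add_neg, hBig _ hne, hcx, cX_neg, cY_neg, cXP, cXQ, cYP, cYQ, sub_neg_eq_add,
      e3, big_iff hu (sub_le1 hu (add_le1 hu hX1 hX2) ns), norm_pow, norm_div]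
    have hiff : 1 < (‖Y1 + Y2‖ / ‖X1 - X2‖) ^ 2 ↔ ‖X1 - X2‖ < ‖Y1 + Y2‖ := by
      rw [one_lt_sq_iff₀ (by positivity), one_lt_div hXpos]
    rw [hiff]
    have hN : (Y1 - Y2) * (Y1 + Y2) = (X1 - X2) * (X1 ^ 2 + X1 * X2 + X2 ^ 2
        - d * (ea F + eb F) * (X1 + X2) + d ^ 2 * (ea F * eb F)) := by
      linear_combination e1 - e2
    have hNn : ‖Y1 - Y2‖ * ‖Y1 + Y2‖ = ‖X1 - X2‖ * ‖X1 ^ 2 + X1 * X2 + X2 ^ 2
        - d * (ea F + eb F) * (X1 + X2) + d ^ 2 * (ea F * eb F)‖ := by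
      rw [← norm_mul, hN, norm_mul]
    have hm : ‖X1 * X2‖ ≤ 1 := mul_le1 hX1 hX2
    have hNle : ‖X1 ^ 2 + X1 * X2 + X2 ^ 2
        - d * (ea F + eb F) * (X1 + X2) + d ^ 2 * (ea F * eb F)‖ ≤ 1 :=
      add_le1 hu (sub_le1 hu (add_le1 hu (add_le1 hu hsq1 hm) hsq2)
        (mul_le1 ns (add_le1 hu hX1 hX2))) np
    constructor
    · intro h3
      have h4 : ‖Y1 + Y2‖ ≤ 1 := add_le1 hu hY1 hY2
      refine ⟨h3.trans_le h4, ?_⟩
      by_contra h5
      have h6 : ‖Y1 - Y2‖ = 1 := le_antisymm (sub_le1 hu hY1 hY2) (not_lt.1 h5)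
      rw [h6, one_mul] at hNn
      nlinarith [norm_nonneg (X1 - X2)]
    · rintro ⟨h3, h4⟩
      by_cases h5 : ‖Y1‖ < 1
      · have h6 := (unit_der hL hd hX1 h5 e1).2
        have h7 : ‖X1 ^ 2 + X1 * X2 + X2 ^ 2
            - d * (ea F + eb F) * (X1 + X2) + d ^ 2 * (ea F * eb F)‖ = 1 := by
          have h8 : X1 ^ 2 + X1 * X2 + X2 ^ 2
              - d * (ea F + eb F) * (X1 + X2) + d ^ 2 * (ea F * eb F) =
              (X1 - X2) * (d * (ea F + eb F) - (X2 + 2 * X1)) +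
                (3 * X1 ^ 2 - 2 * d * (ea F + eb F) * X1 + d ^ 2 * (ea F * eb F)) := by ring
          rw [h8]
          apply add_eq1 hu _ h6
          exact mul_lt1 h3 (sub_le1 hu ns (add_le1 hu hX2 (mul_le1 n2.le hX1)))
        rw [h7, mul_one] at hNn
        have hYpos : 0 < ‖Y1 + Y2‖ := by
          rcases (norm_nonneg (Y1 + Y2)).lt_or_eq with h8 | h8
          · exact h8
          · rw [← h8, mul_zero] at hNn
            linarith
        nlinarith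
      · have h6 : ‖Y1‖ = 1 := le_antisymm hY1 (not_lt.1 h5)
        have h7 : Y1 + Y2 = -(Y1 - Y2) + 2 * Y1 := by ring
        have h8 : ‖Y1 + Y2‖ = 1 := by
          rw [h7]
          exact add_eq1 hu (by rwa [norm_neg]) (by rw [norm_mul, n2, h6, one_mul])
        rw [h8]
        exact h3

end Pool.Agent.WAR.H69
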