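import Pool.Agent.WAR.StmtsT

/-! Squad WAR, row INF: there are infinitely many points near the origin. -/

namespace Pool.Agent.WAR.H6

open Filter Topology WeierstrassCurve WeierstrassCurve.Affine

variable [Par]

/-- the point with parameter `z` -/
theorem point_aux {F : Type} [NormedField F] [Gd F] {d : F} (h2 : (2 : F) ≠ 0) (hd : d ≠ 0)
    (N : ℝ) {z s : F} (hz : z ≠ 0)
    (hs : s ^ 2 = (1 + d * (ea F + eb F) * z ^ 2) ^ 2 - 4 * d ^ 2 * (ea F * eb F) * z ^ 4)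
    (hs1 : ‖s - 1‖ < ‖(2 : F)‖ / 4) (hds : ‖d * (ea F + eb F) * z ^ 2‖ < ‖(2 : F)‖ / 4)
    (hN : 2 * ‖d‖ * (|N| + 1) * ‖z‖ ^ 2 < 1) : ∃ p : Pt d, Big N p ∧ cz p = z := by
  have h2n : 0 < ‖(2 : F)‖ := norm_pos_iff.2 h2
  have hdn : 0 < ‖d‖ := norm_pos_iff.2 hd
  have hzn : 0 < ‖z‖ := norm_pos_iff.2 hz
  obtain ⟨k, hk⟩ : ∃ k : F, k = 1 + d * (ea F + eb F) * z ^ 2 + s := ⟨_, rfl⟩
  have hlow : ‖(2 : F)‖ / 2 < ‖k‖ := by
    have h3 : ‖(2 : F)‖ ≤ ‖k‖ + ‖d * (ea F + eb F) * z ^ 2‖ + ‖s - 1‖ := by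
      have h4 : (2 : F) = k - d * (ea F + eb F) * z ^ 2 - (s - 1) := by
        rw [hk]
        ring
      calc ‖(2 : F)‖ = ‖k - d * (ea F + eb F) * z ^ 2 - (s - 1)‖ := by rw [← h4]
        _ ≤ ‖k - d * (ea F + eb F) * z ^ 2‖ + ‖s - 1‖ := norm_sub_le _ _
        _ ≤ ‖k‖ + ‖d * (ea F + eb F) * z ^ 2‖ + ‖s - 1‖ := by
          have := norm_sub_le k (d * (ea F + eb F) * z ^ 2)
          linarith
    linarith
  have hs0 : k ≠ 0 := by
    intro h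
    rw [h, norm_zero] at hlow
    linarith
  obtain ⟨X, hX⟩ : ∃ X : F, X = k / (2 * z ^ 2) := ⟨_, rfl⟩
  have hXz : 2 * z ^ 2 * X = k := by
    rw [hX]
    field_simp
  have hX0 : X ≠ 0 := by
    intro h
    rw [h, mul_zero] at hXz
    exact hs0 hXz.symm
  have heq : (X / z) ^ 2 = X * (X - d * ea F) * (X - d * eb F) := by
    have hz4 : 4 * z ^ 4 ≠ 0 := by
      have h4 : (4 : F) ≠ 0 := by
        have : (4 : F) = 2 * 2 := by norm_num
        rw [this]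
        exact mul_ne_zero h2 h2
      exact mul_ne_zero h4 (pow_ne_zero _ hz)
    have h5 : X ^ 2 - d * (ea F + eb F) * X + d ^ 2 * (ea F * eb F) = X / z ^ 2 := by
      rw [eq_div_iff (pow_ne_zero _ hz)]
      apply mul_left_cancel₀ (show (4 : F) * z ^ 2 ≠ 0 by
        intro h
        apply hz4
        linear_combination z ^ 2 * h)
      have h6 : (2 * z ^ 2 * X - (1 + d * (ea F + eb F) * z ^ 2)) ^ 2 = s ^ 2 := by
        rw [hXz, hk]
        ring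
      linear_combination h6 + hs
    have h7 : (X / z) ^ 2 = X * (X / z ^ 2) := by
      field_simp
    rw [h7, ← h5]
    ring
  have hns : (W d).Nonsingular X (X / z) := (W_nonsingular d X (X / z) h2 hd).2 heq
  refine ⟨Point.some X (X / z) hns, Or.inr ?_, ?_⟩
  · show N < ‖X / d‖
    have h8 : ‖(2 : F)‖ * ‖z‖ ^ 2 * ‖X‖ = ‖k‖ := by
      rw [← hXz, norm_mul, norm_mul, norm_pow]
    have h9 : 1 / 2 < ‖z‖ ^ 2 * ‖X‖ := by
      by_contra hno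
      rw [not_lt] at hno
      have : ‖(2 : F)‖ * (‖z‖ ^ 2 * ‖X‖) ≤ ‖(2 : F)‖ * (1 / 2) :=
        mul_le_mul_of_nonneg_left hno h2n.le
      linarith
    have hXn : 0 < ‖X‖ := norm_pos_iff.2 hX0
    rw [norm_div, lt_div_iff₀ hdn]
    have hNN : N ≤ |N| := le_abs_self N
    have hA : 0 ≤ |N| := abs_nonneg N
    -- multiply the smallness by the norm of X
    have h10 : 2 * ‖d‖ * (|N| + 1) * ‖z‖ ^ 2 * ‖X‖ < 1 * ‖X‖ := mul_lt_mul_of_pos_right hN hXn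
    have h11 : 2 * ‖d‖ * (|N| + 1) * (1 / 2) < 2 * ‖d‖ * (|N| + 1) * (‖z‖ ^ 2 * ‖X‖) :=
      mul_lt_mul_of_pos_left h9 (by positivity)
    have h12 : N * ‖d‖ ≤ |N| * ‖d‖ := mul_le_mul_of_nonneg_right hNN hdn.le
    nlinarith
  · show X / (X / z) = z
    field_simp

/-- row INF -/
theorem inf : InfStmt := by
  intro F _ hF d hd N
  have h2 : (2 : F) ≠ 0 := hF.two
  have : Gd F := hF.gd
  obtain ⟨-, ⟨x, hx0, hx1⟩, hsq⟩ := hF
  have h2n : 0 < ‖(2 : F)‖ := norm_pos_iff.2 h2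
  obtain ⟨δ, hδ, hr⟩ := hsq (‖(2 : F)‖ / 4) (by positivity)
  have ht : Tendsto (fun n : ℕ => x ^ n) atTop (𝓝 0) :=
    tendsto_pow_atTop_nhds_zero_of_norm_lt_one hx1
  have e1 : Tendsto (fun n : ℕ => ‖(1 + d * (ea F + eb F) * (x ^ n) ^ 2) ^ 2 -
      4 * d ^ 2 * (ea F * eb F) * (x ^ n) ^ 4 - 1‖) atTop (𝓝 0) := by
    have hc : Continuous (fun z : F => ‖(1 + d * (ea F + eb F) * z ^ 2) ^ 2 -
      4 * d ^ 2 * (ea F * eb F) * z ^ 4 - 1‖) := by fun_prop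
    have h := (hc.tendsto 0).comp ht
    have h0 : ‖(1 + d * (ea F + eb F) * (0 : F) ^ 2) ^ 2 -
        4 * d ^ 2 * (ea F * eb F) * (0 : F) ^ 4 - 1‖ = 0 := by
      rw [norm_eq_zero]
      ring
    rw [h0] at h
    exact h
  have e3 : Tendsto (fun n : ℕ => ‖d * (ea F + eb F) * (x ^ n) ^ 2‖) atTop (𝓝 0) := by
    have hc : Continuous (fun z : F => ‖d * (ea F + eb F) * z ^ 2‖) := by fun_prop
    have h := (hc.tendsto 0).comp ht
    have h0 : ‖d * (ea F + eb F) * (0 : F) ^ 2‖ = 0 := by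
      rw [norm_eq_zero]
      ring
    rw [h0] at h
    exact h
  have e2 : Tendsto (fun n : ℕ => 2 * ‖d‖ * (|N| + 1) * ‖x ^ n‖ ^ 2) atTop (𝓝 0) := by
    have hc : Continuous (fun z : F => 2 * ‖d‖ * (|N| + 1) * ‖z‖ ^ 2) := by fun_prop
    have h := (hc.tendsto 0).comp ht
    have h0 : 2 * ‖d‖ * (|N| + 1) * ‖(0 : F)‖ ^ 2 = 0 := by
      rw [norm_zero, zero_pow (by norm_num), mul_zero]
    rw [h0] at h
    exact h
  obtain ⟨n0, hn0⟩ := eventually_atTop.1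
    ((e1.eventually (gt_mem_nhds hδ)).and ((e2.eventually (gt_mem_nhds one_pos)).and
      (e3.eventually (gt_mem_nhds (show 0 < ‖(2 : F)‖ / 4 by positivity)))))
  have hx : x ≠ 0 := norm_pos_iff.1 hx0
  have hex : ∀ n : ℕ, ∃ p : Pt d, Big N p ∧ cz p = x ^ (n + n0) := by
    intro n
    obtain ⟨h1, h3, h5⟩ := hn0 (n + n0) (by omega)
    obtain ⟨s, hs, hs1⟩ := hr ((1 + d * (ea F + eb F) * (x ^ (n + n0)) ^ 2) ^ 2 -
      4 * d ^ 2 * (ea F * eb F) * (x ^ (n + n0)) ^ 4) h1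
    exact point_aux h2 hd N (pow_ne_zero _ hx) hs hs1 h5 h3
  choose f hf1 hf2 using hex
  refine Set.infinite_of_injective_forall_mem (f := f) ?_ hf1
  intro m n hmn
  have h1 : x ^ (m + n0) = x ^ (n + n0) := by rw [← hf2, ← hf2, hmn]
  have h3 : ‖x‖ ^ (m + n0) = ‖x‖ ^ (n + n0) := by rw [← norm_pow, ← norm_pow, h1]
  have h4 := (pow_right_injective₀ hx0 hx1.ne) h3
  omega

end Pool.Agent.WAR.H6
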