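import Pool.Agent.WAR.StmtsM

set_option autoImplicit false

/-!
# WAR (MP_ff4683_nt), row APO: approximation at the odd places
-/

namespace Pool.Agent.WAR.H75

open Classical WeierstrassCurve.Affine Pool.Agent.WAR

variable [Par]

theorem apo (hapg : ApgStmt) (hdgn : DgnStmt) (hzlv : ZlvStmt) (hmzz : MzzStmt)
    (hnrm : NrmStmt) : ApoStmt := by
  intro F _ ϖ hloc u hu
  obtain ⟨hU, hx, ht, hm⟩ := hu
  obtain ⟨d, P, Q, hd, rfl⟩ := hnrm F ϖ hloc u hU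
  have hd0 : d ≠ 0 := by
    rintro rfl
    have h := hloc.uni
    rcases hd with hd | hd
    · simp at hd
    · rw [norm_zero] at hd
      unfold qn at hd
      linarith
  have hP : Big 1 P := Or.inr hx
  have hQ : Big 1 Q := Or.inr ht
  obtain ⟨m1, m2, m3, m4⟩ := hmzz F ϖ hloc d hd0 P Q
  obtain ⟨hP0, hQ0⟩ := m1 hU
  obtain ⟨n1, n2, n3, n4, n5⟩ := m2 hP0 hP hQ0 hQ
  have hle : ‖zs Q‖ ≤ ‖zs P‖ := by
    rw [n4, norm_div, div_le_one (norm_pos_iff.2 n1)] at hm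
    exact hm
  have h1 : ¬ ϖ ∣ 1 := fun h => hloc.prime.not_isUnit (isUnit_of_dvd_one h)
  apply hapg F ϖ hloc d hd0 P Q hU
  intro ρ hρ
  obtain ⟨a, -, ha⟩ := hdgn F ϖ hloc d hd0 P Q 1 ρ hP hQ hle h1 hρ
  obtain ⟨z1, z2, z3, z4, z5, z6, z7, z8⟩ := hzlv F ϖ hloc d hd0
  obtain ⟨N, hN⟩ := z7 ρ hρ
  refine ⟨a, N, fun k hk => ?_⟩
  have e : sm k P - Q = sm (k - a) P - (Q - sm a P) := by
    have h : sm k P = sm (k - a) P + sm a P := by
      simp only [sm_def]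
      rw [← add_zsmul]
      congr 1
      ring
    rw [h]
    abel
  rw [e]
  exact (z1 ρ _ _ (hN (k - a) P hP hk) ha).2.2

end Pool.Agent.WAR.H75
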