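import Pool.Agent.WAR.StmtsL

/-!
# WAR, row ZSL: `z(a P) = a z(P)` up to a small error (port of `Helper52_WAP/ZSL.lean`)
-/

set_option autoImplicit false

namespace Pool.Agent.WAR.H77

open Classical WeierstrassCurve.Affine
open Pool.Agent.WAR

variable [Par]

theorem zs_neg {F : Type} [Field F] {d : F} (P : Pt d) : zs (-P) = -zs P := by
  rcases P with _ | ⟨X, Y, h⟩
  · show ((0 : F) - d * cc F) / 0 = -(((0 : F) - d * cc F) / 0)
    simp
  · show (X - d * cc F) / (W d).negY X Y = -((X - d * cc F) / Y)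
    rw [W_negY, div_neg]

theorem cX_neg {F : Type} [Field F] {d : F} (P : Pt d) : cX (-P) = cX P := by
  rcases P with _ | ⟨X, Y, h⟩
  · rfl
  · rfl

theorem big_neg {F : Type} [NormedField F] {d : F} {P : Pt d} (h : Big 1 P) : Big 1 (-P) := by
  rcases h with rfl | h
  · left
    exact neg_zero
  · right
    rw [cX_neg]
    exact h

section main
variable {F : Type} [NormedField F] {ϖ : ℤ}

theorem small (hzeq : ZeqStmt) (hL : IsLoc F ϖ) {d : F} (hd : d ≠ 0) {P : Pt d} (hP : Big 1 P) :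
    ‖d‖ * ‖zs P‖ ^ 2 ≤ 1 := by
  rcases P with _ | ⟨X, Y, h⟩
  · have h1 : zs (WeierstrassCurve.Affine.Point.zero : Pt d) = 0 := zs_zero
    rw [h1, norm_zero]
    norm_num
  · rcases hP with hP | hP
    · exact absurd hP (WeierstrassCurve.Affine.Point.some_ne_zero h)
    · have h1 : 1 < ‖X / d‖ := hP
      rw [norm_div, lt_div_iff₀ (norm_pos_iff.2 hd), one_mul] at h1
      obtain ⟨-, -, -, h5, h6, -⟩ := hzeq F ϖ hL d X Y hd h h1
      rw [zs_some]
      linarith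

omit [Par] in
theorem err_le {D z : ℝ} (hD : 0 ≤ D) (hz : 0 ≤ z) (h : D * z ^ 2 ≤ 1) : D ^ 2 * z ^ 5 ≤ z := by
  have h0 : 0 ≤ D * z ^ 2 := by positivity
  have h1 : (D * z ^ 2) ^ 2 ≤ 1 := by nlinarith
  have h2 : D ^ 2 * z ^ 5 = (D * z ^ 2) ^ 2 * z := by ring
  rw [h2]
  nlinarith

theorem int_le (hL : IsLoc F ϖ) (n : ℤ) : ‖(n : F)‖ ≤ 1 := hL.int n

theorem nat_case (hzeq : ZeqStmt) (hzal : ZalStmt) (hL : IsLoc F ϖ) {d : F} (hd : d ≠ 0)
    {P : Pt d} (hP : Big 1 P) (n : ℕ) :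
    Big 1 (n • P) ∧ ‖zs (n • P) - (n : F) * zs P‖ ≤ ‖d‖ ^ 2 * ‖zs P‖ ^ 5 := by
  have he := err_le (norm_nonneg d) (norm_nonneg (zs P)) (small hzeq hL hd hP)
  induction n with
  | zero =>
    rw [zero_smul]
    refine ⟨Or.inl rfl, ?_⟩
    rw [zs_zero, Nat.cast_zero, zero_mul, sub_zero, norm_zero]
    positivity
  | succ n ih =>
    obtain ⟨h1, h2⟩ := ih
    have h3 : ‖zs (n • P)‖ ≤ ‖zs P‖ := by
      have h4 : zs (n • P) = (zs (n • P) - (n : F) * zs P) + (n : F) * zs P := by ring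
      rw [h4]
      refine (hL.ultra _ _).trans (max_le (h2.trans he) ?_)
      rw [norm_mul]
      have h5 := int_le hL (n : ℤ)
      rw [Int.cast_natCast] at h5
      have h6 := norm_nonneg (zs P)
      nlinarith
    obtain ⟨h7, h8⟩ := hzal F ϖ hL d hd (n • P) P h1 hP
    rw [max_eq_right h3] at h8
    rw [succ_nsmul]
    refine ⟨h7, ?_⟩
    have h9 : zs (n • P + P) - ((n + 1 : ℕ) : F) * zs P =
        (zs (n • P + P) - zs (n • P) - zs P) + (zs (n • P) - (n : F) * zs P) := by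
      push_cast
      ring
    rw [h9]
    exact (hL.ultra _ _).trans (max_le h8 h2)

theorem int_case (hzeq : ZeqStmt) (hzal : ZalStmt) (hL : IsLoc F ϖ) {d : F} (hd : d ≠ 0)
    {P : Pt d} (hP : Big 1 P) (n : ℤ) :
    Big 1 (n • P) ∧ ‖zs (n • P) - (n : F) * zs P‖ ≤ ‖d‖ ^ 2 * ‖zs P‖ ^ 5 := by
  obtain ⟨m, rfl | rfl⟩ := Int.eq_nat_or_neg n
  · rw [natCast_zsmul, Int.cast_natCast]
    exact nat_case hzeq hzal hL hd hP m
  · obtain ⟨h1, h2⟩ := nat_case hzeq hzal hL hd hP m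
    rw [neg_smul, natCast_zsmul]
    refine ⟨big_neg h1, ?_⟩
    rw [zs_neg]
    push_cast
    have h3 : -zs (m • P) - -(m : F) * zs P = -(zs (m • P) - (m : F) * zs P) := by ring
    rw [h3, norm_neg]
    exact h2

end main

/-- **ZSL** -/
theorem zsl (hzeq : ZeqStmt) (hzal : ZalStmt) : ZslStmt := by
  intro F _ ϖ hL d hd a P hP
  rw [sm_def, am_apply]
  exact int_case hzeq hzal hL hd hP a

end Pool.Agent.WAR.H77
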