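import Pool.Agent.WAR.StmtsT

/-!
Row DNS of table waq (squad WAR, MP_ff4683_nt).
-/

set_option autoImplicit false

namespace Pool.Agent.WAR.H89

open Pool.Agent.WAR
open Classical

variable [Par]

theorem onU_ne {F : Type} [Field F] {x t y : F} (h : OnU (x, t, y)) :
    y ^ 2 = cub x * cub t ∧ y ≠ 0 ∧ t ≠ 0 ∧ t - ea F ≠ 0 ∧ t - eb F ≠ 0 := by
  obtain ⟨h1, h2⟩ := h
  simp only at h1 h2
  have h3 : cub x * cub t ≠ 0 := by
    rw [← h1]; exact pow_ne_zero 2 h2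
  have h4 : t * (t - ea F) * (t - eb F) ≠ 0 := (mul_ne_zero_iff.1 h3).2
  have h5 := mul_ne_zero_iff.1 h4
  have h6 := mul_ne_zero_iff.1 h5.1
  exact ⟨h1, h2, h6.1, h6.2, h5.2⟩

theorem dns : DnsStmt := by
  intro F _ _ h2 l hl z hz
  obtain ⟨x, t, y⟩ := z
  obtain ⟨h1, hy, ht, ht1, ht2⟩ := onU_ne hz
  have ha : ea F ≠ 0 := Gd.a0
  have hb : eb F ≠ 0 := Gd.b0
  have hab : ea F - eb F ≠ 0 := sub_ne_zero.2 Gd.ab
  have hba : eb F - ea F ≠ 0 := sub_ne_zero.2 (Ne.symm Gd.ab)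
  rcases hl with rfl | rfl | rfl | rfl
  · refine ⟨swf (x, t, y), hz, ⟨?_, hy⟩, rfl⟩
    show y ^ 2 = cub t * cub x
    rw [h1]; ring
  · refine ⟨t0f (x, t, y), hz, ⟨?_, ?_⟩, rfl⟩
    · show (-(ea F * eb F) * y / t ^ 2) ^ 2 = cub x * cub (ea F * eb F / t)
      have e1 : cub (ea F * eb F / t) = (ea F * eb F) ^ 2 * cub t / t ^ 4 := by
        unfold cub
        field_simp
        ring
      rw [e1, div_pow, mul_pow, h1]
      field_simp
    · show -(ea F * eb F) * y / t ^ 2 ≠ 0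
      exact div_ne_zero (mul_ne_zero (neg_ne_zero.2 (mul_ne_zero ha hb)) hy) (pow_ne_zero 2 ht)
  · refine ⟨tpf (x, t, y), hz, ⟨?_, ?_⟩, rfl⟩
    · show (-(ea F * (ea F - eb F)) * y / (t - ea F) ^ 2) ^ 2 =
        cub x * cub (ea F * (t - eb F) / (t - ea F))
      have e1 : cub (ea F * (t - eb F) / (t - ea F)) =
          (ea F * (ea F - eb F)) ^ 2 * cub t / (t - ea F) ^ 4 := by
        unfold cub
        field_simp
        ring
      rw [e1, div_pow, mul_pow, h1]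
      field_simp
    · show -(ea F * (ea F - eb F)) * y / (t - ea F) ^ 2 ≠ 0
      exact div_ne_zero (mul_ne_zero (neg_ne_zero.2 (mul_ne_zero ha hab)) hy) (pow_ne_zero 2 ht1)
  · refine ⟨tmf (x, t, y), hz, ⟨?_, ?_⟩, rfl⟩
    · show (-(eb F * (eb F - ea F)) * y / (t - eb F) ^ 2) ^ 2 =
        cub x * cub (eb F * (t - ea F) / (t - eb F))
      have e1 : cub (eb F * (t - ea F) / (t - eb F)) =
          (eb F * (eb F - ea F)) ^ 2 * cub t / (t - eb F) ^ 4 := by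
        unfold cub
        field_simp
        ring
      rw [e1, div_pow, mul_pow, h1]
      field_simp
    · show -(eb F * (eb F - ea F)) * y / (t - eb F) ^ 2 ≠ 0
      exact div_ne_zero (mul_ne_zero (neg_ne_zero.2 (mul_ne_zero hb hba)) hy) (pow_ne_zero 2 ht2)

end Pool.Agent.WAR.H89
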