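import Pool.Agent.WAR.Exports
import Pool.Agent.Helper32_WAR.H90_JLoc
import Pool.Agent.Helper32_WAR.H90_JDen

/-! JCO -/

namespace Pool.Agent.WAR.H90

variable [Par]

theorem jco : JcoStmt := fun F _ _ h ρ hρ => by
  have := (locSq_of_isLoc h).gd
  exact jco_gen ρ hρ

end Pool.Agent.WAR.H90
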