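import Pool.Agent.WAR.StmtsR2
import Pool.Agent.WAR.StmtsT

set_option autoImplicit false

namespace Pool.Agent.WAR.H95

open Pool.Agent.WAR Pool.Agent.WAR.R Pool.Agent.WAR.G Classical

attribute [local instance 10000] decR

variable [Par]

/-- `ck k τ` in any frame -/
theorem ck_kum {F : Type} [Field F] [Gd F] (h2 : (2 : F) ≠ 0) {d : F} (hd : d ≠ 0) {P : Pt d}
    (hy : yn P ≠ 0) (k : ℤ) : ck k (xn P) = kum d P (sm k P) := by
  have hU : OnU (kum d P P) := onU_kum hd hy hy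
  have h3 := actf_kum h2 hU 1 0 k 0
  rw [one_sm, zero_sm, add_zero, add_zero] at h3
  rw [← h3]
  unfold actf
  rw [one_sm, zero_sm, add_zero, add_zero]
  have e : (kum d P P).1 = xn P := by rw [kum_def]
  unfold ck frP
  rw [e]

/-- the diagonal point -/
theorem diag {F : Type} [Field F] [Gd F] (h2 : (2 : F) ≠ 0) {τ : F} (hτ : cub τ ≠ 0) :
    kum (cub τ) (mkPt (cub τ) (τ * cub τ) (cub τ ^ 2)) (mkPt (cub τ) (τ * cub τ) (cub τ ^ 2)) =
      (τ, τ, cub τ) := by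
  have h := G.isP_mk (d := cub τ) (x := τ) (y := 1) h2 hτ (by ring)
  have e : mkPt (cub τ) (cub τ * τ) (cub τ ^ 2 * 1) = mkPt (cub τ) (τ * cub τ) (cub τ ^ 2) := by
    rw [mul_one, mul_comm]
  rw [e] at h
  rw [kum_eq hτ, h.xn_eq hτ, h.yn_eq hτ, mul_one, mul_one]

theorem onU_diag {F : Type} [Field F] {τ : F} (hτ : cub τ ≠ 0) : OnU (τ, τ, cub τ) :=
  ⟨by show cub τ ^ 2 = cub τ * cub τ; ring, hτ⟩

theorem act_diag {F : Type} [Field F] [Gd F]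
    (h2 : (2 : F) ≠ 0) {τ : F} (hτ : cub τ ≠ 0) (k : ℤ) :
    actf 1 0 (k - 1) 1 (τ, τ, cub τ) = ck k τ := by
  have h1 := actf_kum h2 (d := cub τ) (P := mkPt (cub τ) (τ * cub τ) (cub τ ^ 2))
    (Q := mkPt (cub τ) (τ * cub τ) (cub τ ^ 2)) (by
      rw [diag h2 hτ]
      exact onU_diag hτ) 1 0 (k - 1) 1
  rw [diag h2 hτ] at h1
  rw [h1, G.one_sm, G.zero_sm, add_zero]
  unfold ck
  congr 1
  have h3 := G.add_sm (k - 1) 1 (mkPt (cub τ) (τ * cub τ) (cub τ ^ 2))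
  rw [sub_add_cancel, G.one_sm] at h3
  exact h3.symm

theorem isRe_R : IsRe ℝ := ⟨RingEquiv.refl ℝ, fun _ => rfl⟩

theorem rfi (rck : RckStmt) (kuc : KucStmt) (con : ConStmt) (hG : GoodF ℝ) : RfiStmt := by
  intro d hd P0 Q0 hty hU V hV hzV k0 m hm
  have h2 : (2 : ℝ) ≠ 0 := two_ne_zero
  obtain ⟨N, hN⟩ := kuc ℝ hG d hd P0 Q0 hU V hV hzV
  obtain ⟨k, P, hk, hP, hQ⟩ := rck d hd P0 Q0 hty N k0 m hm
  have h1 := hN _ _ hP hQ
  rw [add_sub_cancel, add_sub_cancel] at h1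
  obtain ⟨-, hyP, -⟩ := yn_ne_of_onU h1.2
  rw [← ck_kum h2 hd hyP k] at h1
  obtain ⟨hckV, hckU⟩ := h1
  generalize xn P = τ₀ at *
  have hτ₀ : cub τ₀ ≠ 0 := by
    intro h
    apply hckU.2
    show cY _ * cY _ / cub τ₀ ^ 3 = 0
    rw [h]
    simp
  have hstep : Step (.act 1 0 (k - 1) 1) (τ₀, τ₀, cub τ₀) (ck k τ₀) :=
    ⟨onU_diag hτ₀, hckU, by ring, (act_diag h2 hτ₀ k).symm⟩
  obtain ⟨O, hO, hzO, hOV⟩ := con ℝ (Or.inr isRe_R) _ _ _ hstep V hV hckV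
  have hcub : Continuous (fun τ : ℝ => cub τ) := by
    unfold cub
    fun_prop
  refine ⟨k, {τ | cub τ ≠ 0} ∩ (fun τ : ℝ => (τ, τ, cub τ)) ⁻¹' O, hk, ?_, ⟨τ₀, hτ₀, hzO⟩, ?_⟩
  · apply IsOpen.inter
    · exact isOpen_ne_fun hcub continuous_const
    · exact hO.preimage (by fun_prop)
  · rintro τ ⟨h1, h3⟩
    obtain ⟨z2, hz2, hst⟩ := hOV _ h3 (onU_diag h1)
    have h4 : z2 = ck k τ := by
      rw [← act_diag h2 h1 k]
      exact hst.2.2.2
    rw [← h4]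
    exact ⟨hz2, hst.2.1⟩

theorem rxd (rfi : RfiStmt) (rco : RcoStmt) (con : ConStmt) (den : DenStmt) (inv : InvStmt) :
    RxdStmt := by
  intro V hV hex b hb
  have h2 : (2 : ℝ) ≠ 0 := two_ne_zero
  obtain ⟨z', hz'V, z'', hst⟩ := den ℝ (Or.inr isRe_R) (.act 1 (-b) 0 1)
    (by show (1 : ℤ) * 1 - -b * 0 = 1; ring) V hV hex
  have hz'U : OnU z' := hst.1
  have hd := onU_cub1 hz'U
  have hfr := kum_fr h2 hz'U
  by_cases H : IdC (frP z') → IdC (frQ z')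
  · refine ⟨[], Or.inl rfl, ?_⟩
    intro k0 m hm
    obtain ⟨k, T, hk, hT, hTn, h⟩ := rfi (cub z'.1) hd (frP z') (frQ z') H (by rw [hfr]; exact hz'U)
      V hV (by rw [hfr]; exact hz'V) k0 m hm
    exact ⟨k, T, hk, hT, hTn, fun τ hτ => ⟨ck k τ, (h τ hτ).1, (h τ hτ).2, rfl⟩⟩
  · have H1 : IdC (frP z') := by
      by_contra h
      exact H (fun h' => absurd h' h)
    have H2 : ¬ IdC (frQ z') := fun h => H (fun _ => h)
    refine ⟨[.act 1 b 0 1], Or.inr rfl, ?_⟩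
    have hinv := inv ℝ h2 _ _ _ hst
    have hl : Letter.inv (.act 1 (-b) 0 1) = .act 1 b 0 1 := by
      simp [Letter.inv]
    rw [hl] at hinv
    obtain ⟨W, hW, hzW, hWV⟩ := con ℝ (Or.inr isRe_R) _ _ _ hinv V hV hz'V
    obtain ⟨c1, c2, c3, c4, c5, c6⟩ := rco (cub z'.1) hd
    have hz'' : z'' = kum (cub z'.1) (sm 1 (frP z') + sm (-b) (frQ z'))
        (sm 0 (frP z') + sm 1 (frQ z')) := hst.2.2.2
    have hU'' : OnU z'' := hst.2.1
    have hn : ¬ IdC (sm 1 (frP z') + sm (-b) (frQ z')) := by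
      intro h
      rw [one_sm] at h
      have h3 : IdC (sm (-b) (frQ z')) := by
        have := c2 _ _ h (c6 _ H1)
        rwa [add_comm (frP z'), add_neg_cancel_right] at this
      have h4 : IdC (sm (-b - 1) (frQ z')) := c5 _ _ (by
        obtain ⟨r, hr⟩ := hb
        exact ⟨-r - 1, by rw [hr]; ring⟩)
      apply H2
      have h5 := c2 _ _ h3 (c6 _ h4)
      rw [sub_sm, one_sm] at h5
      have h6 : sm (-b) (frQ z') + -(sm (-b) (frQ z') - frQ z') = frQ z' := by abel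
      rwa [h6] at h5
    intro k0 m hm
    obtain ⟨k, T, hk, hT, hTn, h⟩ := rfi (cub z'.1) hd _ _ (fun h => absurd h hn)
      (by rw [← hz'']; exact hU'') W hW (by rw [← hz'']; exact hzW) k0 m hm
    refine ⟨k, T, hk, hT, hTn, fun τ hτ => ?_⟩
    obtain ⟨w, hw, hs⟩ := hWV _ (h τ hτ).1 (h τ hτ).2
    exact ⟨w, hw, w, hs, hs.2.1, rfl⟩

end Pool.Agent.WAR.H95
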