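import Pool.Agent.Helper32_WAR.H95_RGRmain
import Pool.Agent.WAR.StmtsT

set_option autoImplicit false

namespace Pool.Agent.WAR.H95

open Pool.Agent.WAR Pool.Agent.WAR.R

variable [Par]

theorem rgr (adn : AdnStmt) (zad : ZadStmt) (hG : GoodF ℝ) : RgrStmt := by
  intro d hd
  exact rgr_core hd (adn ℝ hG d hd) (zad ℝ hG d hd)

end Pool.Agent.WAR.H95
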