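import Pool.Agent.WAR.StmtsL

/-!
# WAR, row ZLV: levels in the kernel of reduction
-/

set_option autoImplicit false

namespace Pool.Agent.WAR.H27

open Classical WeierstrassCurve.Affine

section
variable [Par] {F : Type} [NormedField F] {ϖ : ℤ}

theorem qn_lt (hL : IsLoc F ϖ) : qn F ϖ < 1 := (hL.lt_one ϖ).mpr dvd_rfl

theorem qn_pos (hL : IsLoc F ϖ) : 0 < qn F ϖ := hL.uni

theorem big_neg {d : F} {P : Pt d} (h : Big 1 P) : Big 1 (-P) := by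
  rcases h with h | h
  · left
    rw [h]
    rfl
  · right
    rcases P with _ | ⟨X, Y, hn⟩
    · exact h
    · exact h

theorem zs_neg {d : F} (P : Pt d) : zs (-P) = -zs P := by
  rcases P with _ | ⟨X, Y, hn⟩
  · show ((0 : F) - d * cc F) / 0 = -(((0 : F) - d * cc F) / 0)
    simp
  · show (X - d * cc F) / (W d).negY X Y = -((X - d * cc F) / Y)
    rw [W_negY, div_neg]

theorem sm_zero' {d : F} (a : ℤ) : sm a (0 : Pt d) = 0 := by
  rw [sm_def, smul_zero]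

theorem sm_mul' {d : F} (a b : ℤ) (P : Pt d) : sm (a * b) P = sm a (sm b P) :=
  by rw [sm_def, sm_def, sm_def, mul_smul]

theorem sm_one' {d : F} (P : Pt d) : sm 1 P = P := by
  rw [sm_def, one_smul]

/-- the level bound and the nonvanishing of `z` -/
theorem lev (zeq : ZeqStmt) (hL : IsLoc F ϖ) {d : F} (hd : d ≠ 0) {P : Pt d} (hP : P ≠ 0)
    (hB : Big 1 P) : ‖d‖ * ‖zs P‖ ^ 2 ≤ qn F ϖ ∧ zs P ≠ 0 := by
  rcases P with _ | ⟨X, Y, hn⟩
  · exact absurd rfl hP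
  · have h1 : 1 < ‖X / d‖ := by
      rcases hB with h | h
      · exact absurd h hP
      · exact h
    have hdn : 0 < ‖d‖ := norm_pos_iff.mpr hd
    have h2 : ‖d‖ < ‖X‖ := by
      rw [norm_div, lt_div_iff₀ hdn, one_mul] at h1
      exact h1
    obtain ⟨h3, h4, h5, h6, h7, h8⟩ := zeq F ϖ hL d X Y hd hn h2
    refine ⟨h6, ?_⟩
    intro h9
    have h10 : (X - d * cc F) / Y = 0 := h9
    rw [h10] at h4
    simp at h4

theorem err (zeq : ZeqStmt) (hL : IsLoc F ϖ) {d : F} (hd : d ≠ 0) {P : Pt d}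
    (hB : Big 1 P) : ‖d‖ ^ 2 * ‖zs P‖ ^ 5 ≤ qn F ϖ ^ 2 * ‖zs P‖ := by
  by_cases hP : P = 0
  · rw [hP, zs_zero]
    simp
  · obtain ⟨h1, h2⟩ := lev zeq hL hd hP hB
    have h3 : 0 ≤ ‖d‖ * ‖zs P‖ ^ 2 := by positivity
    have h4 : (‖d‖ * ‖zs P‖ ^ 2) ^ 2 ≤ qn F ϖ ^ 2 := pow_le_pow_left₀ h3 h1 2
    have h5 := mul_le_mul_of_nonneg_right h4 (norm_nonneg (zs P))
    calc ‖d‖ ^ 2 * ‖zs P‖ ^ 5 = (‖d‖ * ‖zs P‖ ^ 2) ^ 2 * ‖zs P‖ := by ring
      _ ≤ _ := h5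

theorem ultra_sub (hL : IsLoc F ϖ) (x y : F) : ‖x‖ ≤ max ‖x - y‖ ‖y‖ := by
  have h := hL.ultra (x - y) y
  rwa [sub_add_cancel] at h

/-- equality in the ultrametric inequality -/
theorem ultra_eq (hL : IsLoc F ϖ) {x y : F} (h : ‖x - y‖ < ‖y‖) : ‖x‖ = ‖y‖ := by
  apply le_antisymm
  · exact (ultra_sub hL x y).trans (max_le h.le le_rfl)
  · have h1 := ultra_sub hL y x
    rw [norm_sub_rev] at h1
    rcases le_max_iff.mp h1 with h2 | h2
    · exact absurd h2 (not_le.mpr h)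
    · exact h2

theorem qsq (hL : IsLoc F ϖ) : qn F ϖ ^ 2 < qn F ϖ := by
  have h1 := qn_lt hL
  have h2 := qn_pos hL
  nlinarith

theorem sm_le (zeq : ZeqStmt) (zsl : ZslStmt) (hL : IsLoc F ϖ) {d : F} (hd : d ≠ 0)
    (a : ℤ) {P : Pt d} (hB : Big 1 P) : ‖zs (sm a P)‖ ≤ ‖zs P‖ := by
  obtain ⟨h1, h2⟩ := zsl F ϖ hL d hd a P hB
  have h3 := ultra_sub hL (zs (sm a P)) (am F a * zs P)
  refine h3.trans (max_le ?_ ?_)
  · refine h2.trans ((err zeq hL hd hB).trans ?_)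
    have h4 := qsq hL
    have h5 := qn_lt hL
    have h6 : qn F ϖ ^ 2 ≤ 1 := by linarith
    calc qn F ϖ ^ 2 * ‖zs P‖ ≤ 1 * ‖zs P‖ := mul_le_mul_of_nonneg_right h6 (norm_nonneg _)
      _ = _ := one_mul _
  · rw [norm_mul]
    calc ‖am F a‖ * ‖zs P‖ ≤ 1 * ‖zs P‖ :=
          mul_le_mul_of_nonneg_right (hL.int a) (norm_nonneg _)
      _ = _ := one_mul _

theorem sm_eq (zeq : ZeqStmt) (zsl : ZslStmt) (hL : IsLoc F ϖ) {d : F} (hd : d ≠ 0)
    (a : ℤ) (ha : qn F ϖ ≤ ‖am F a‖) {P : Pt d} (hB : Big 1 P) :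
    ‖zs (sm a P)‖ = ‖am F a‖ * ‖zs P‖ := by
  by_cases hP : P = 0
  · rw [hP, sm_zero', zs_zero]
    simp
  · obtain ⟨h1, h2⟩ := zsl F ϖ hL d hd a P hB
    obtain ⟨h3, h4⟩ := lev zeq hL hd hP hB
    have h5 : 0 < ‖zs P‖ := norm_pos_iff.mpr h4
    rw [← norm_mul]
    apply ultra_eq hL
    refine lt_of_le_of_lt (h2.trans (err zeq hL hd hB)) ?_
    rw [norm_mul]
    exact mul_lt_mul_of_pos_right (lt_of_lt_of_le (qsq hL) ha) h5

theorem sm_pow (zeq : ZeqStmt) (zsl : ZslStmt) (hL : IsLoc F ϖ) {d : F} (hd : d ≠ 0)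
    (k : ℕ) : ∀ {P : Pt d}, Big 1 P → ‖zs (sm (ϖ ^ k) P)‖ = qn F ϖ ^ k * ‖zs P‖ := by
  induction k with
  | zero =>
    intro P hB
    rw [pow_zero, sm_one', pow_zero, one_mul]
  | succ k ih =>
    intro P hB
    have h1 : Big 1 (sm ϖ P) := (zsl F ϖ hL d hd ϖ P hB).1
    rw [pow_succ, sm_mul', ih h1, sm_eq zeq zsl hL hd ϖ le_rfl hB, pow_succ, mul_assoc]
    rfl

end

/-- ZLV -/
theorem zlv [Par] (zeq : ZeqStmt) (zal : ZalStmt) (zsl : ZslStmt) : ZlvStmt := by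
  intro F _ ϖ hL d hd
  have hadd : ∀ (r : ℝ) (P Q : Pt d), Lev r P → Lev r Q → Lev r (P + Q) := by
    intro r P Q hP hQ
    obtain ⟨h1, h2⟩ := zal F ϖ hL d hd P Q hP.1 hQ.1
    refine ⟨h1, ?_⟩
    have h3 := ultra_sub hL (zs (P + Q)) (zs P + zs Q)
    have h4 : zs (P + Q) - (zs P + zs Q) = zs (P + Q) - zs P - zs Q := by ring
    rw [h4] at h3
    have h5 : ‖zs P + zs Q‖ ≤ r := (hL.ultra _ _).trans (max_le hP.2 hQ.2)
    refine h3.trans (max_le (h2.trans ?_) h5)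
    have h6 := qsq hL
    have h7 := qn_lt hL
    have h8 : qn F ϖ ^ 2 ≤ 1 := by linarith
    have key : ∀ R : Pt d, Lev r R → ‖d‖ ^ 2 * ‖zs R‖ ^ 5 ≤ r := by
      intro R hR
      refine (err zeq hL hd hR.1).trans (le_trans ?_ hR.2)
      calc qn F ϖ ^ 2 * ‖zs R‖ ≤ 1 * ‖zs R‖ := mul_le_mul_of_nonneg_right h8 (norm_nonneg _)
        _ = _ := one_mul _
    rcases max_choice ‖zs P‖ ‖zs Q‖ with h | h
    · rw [h]
      exact key P hP
    · rw [h]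
      exact key Q hQ
  have hneg : ∀ (r : ℝ) (P : Pt d), Lev r P → Lev r (-P) := by
    intro r P hP
    refine ⟨big_neg hP.1, ?_⟩
    rw [zs_neg, norm_neg]
    exact hP.2
  have hsm : ∀ (r : ℝ) (a : ℤ) (P : Pt d), Lev r P → Lev r (sm a P) := by
    intro r a P hP
    exact ⟨(zsl F ϖ hL d hd a P hP.1).1, (sm_le zeq zsl hL hd a hP.1).trans hP.2⟩
  have h6 : ∀ (k : ℕ) (a : ℤ) (P : Pt d), Big 1 P → ϖ ^ k ∣ a →
      ‖zs (sm a P)‖ ≤ qn F ϖ ^ k * ‖zs P‖ := by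
    rintro k a P hB ⟨b, rfl⟩
    have h1 : Big 1 (sm b P) := (zsl F ϖ hL d hd b P hB).1
    rw [sm_mul', sm_pow zeq zsl hL hd k h1]
    exact mul_le_mul_of_nonneg_left (sm_le zeq zsl hL hd b hB) (pow_nonneg (qn_pos hL).le _)
  refine ⟨?_, hsm, ?_, ?_, ?_, h6, ?_, ?_⟩
  · intro r P Q hP hQ
    refine ⟨hadd r P Q hP hQ, hneg r P hP, ?_⟩
    rw [sub_eq_add_neg]
    exact hadd r P (-Q) hP (hneg r Q hQ)
  · intro P hB
    constructor
    · intro h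
      by_contra hP
      exact (lev zeq hL hd hP hB).2 h
    · intro h
      rw [h, zs_zero]
  · intro a P hB ha
    have h1 : ‖am F a‖ = 1 :=
      le_antisymm (hL.int a) (not_lt.mp (fun h => ha ((hL.lt_one a).mp h)))
    rw [sm_eq zeq zsl hL hd a (by rw [h1]; exact (qn_lt hL).le) hB, h1, one_mul]
  · intro P hB
    exact sm_eq zeq zsl hL hd ϖ le_rfl hB
  · intro r hr
    have hdn : 0 < ‖d‖ := norm_pos_iff.mpr hd
    have hbd : ∀ P : Pt d, Big 1 P → ‖zs P‖ ≤ max 1 (1 / ‖d‖) := by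
      intro P hB
      by_cases hP : P = 0
      · rw [hP, zs_zero, norm_zero]
        exact le_trans zero_le_one (le_max_left _ _)
      · obtain ⟨h1, h2⟩ := lev zeq hL hd hP hB
        by_cases h3 : ‖zs P‖ ≤ 1
        · exact h3.trans (le_max_left _ _)
        · rw [not_le] at h3
          refine le_trans ?_ (le_max_right _ _)
          have h4 : ‖d‖ * ‖zs P‖ ^ 2 ≤ 1 := h1.trans (qn_lt hL).le
          rw [le_div_iff₀ hdn]
          nlinarith [mul_pos hdn (lt_trans zero_lt_one h3)]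
    have hB0 : 0 < max 1 (1 / ‖d‖) := lt_of_lt_of_le zero_lt_one (le_max_left _ _)
    obtain ⟨k, hk⟩ := exists_pow_lt_of_lt_one (div_pos hr hB0) (qn_lt hL)
    refine ⟨k, ?_⟩
    intro a P hB ha
    refine ⟨(zsl F ϖ hL d hd a P hB).1, ?_⟩
    refine (h6 k a P hB ha).trans ?_
    calc qn F ϖ ^ k * ‖zs P‖ ≤ (r / max 1 (1 / ‖d‖)) * max 1 (1 / ‖d‖) :=
          mul_le_mul hk.le (hbd P hB) (norm_nonneg _) (div_pos hr hB0).le
      _ = r := div_mul_cancel₀ _ hB0.ne'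
  · intro P hP hB
    exact (lev zeq hL hd hP hB).1

end Pool.Agent.WAR.H27
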