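import Pool.Agent.WAR.StmtsI

/-!
# WAR row RBS (helper40): a matrix acting on a pair of points of the formal group
-/

namespace Pool.Agent.WAR.H40

open Classical

variable [Par]

theorem rbs (sap : SapStmt) (mcn : McnStmt) : RbsStmt := by
  intro ι F _ ϖ S q hF hqS hle a b c e z w hz1 hz2 hs
  obtain ⟨hzU, hwU, hdet, -⟩ := id hs
  refine ⟨hzU, hwU, ?_⟩
  intro B hB hwB u O hO
  obtain ⟨N, hN⟩ := mcn (F q) (ϖ q) (hF.1 q) a b c e hdet z w hz1 hz2 hs B hB hwB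
  obtain ⟨a', b', c', e', hdet', h1, h2, h3, h4, hS⟩ := sap ι F ϖ S (ϖ q) (fun v _ => hF.1 v)
    (hF.1 q).prime (hF.1 q).odd (fun v hv => hF.2 v q (fun h => hqS (h ▸ hv))) hle u O hO
    a b c e hdet N
  have hrun : ∀ {K : Type} [Field K] (x y : K × K × K), Step (.act a' b' c' e') x y →
      Run [.act a' b' c' e'] x y := fun x y h => ⟨y, h, h.2.1, rfl⟩
  refine ⟨[.act a' b' c' e'], ?_, ?_, ?_⟩
  · intro l hl
    rw [List.mem_singleton] at hl
    rw [hl]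
    exact hdet'
  · intro v hv
    obtain ⟨y, hy, hsy⟩ := hS v hv
    exact ⟨u v, (hO v hv).2.2, y, hy, hrun _ _ hsy⟩
  · obtain ⟨y, hy, hsy⟩ := hN a' b' c' e' hdet' h1 h2 h3 h4
    exact ⟨y, hy, hrun _ _ hsy⟩

end Pool.Agent.WAR.H40
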