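import Pool.Agent.WAR.StmtsI

/-!
# WAR row RJG (helper40): from the corner to the curve `Q = O`
-/

namespace Pool.Agent.WAR.H40

open Classical

variable [Par]

theorem nearE_mono {F : Type} [NormedField F] {m0 : F} {r s : ℝ} (hr : 0 < r) (h : r ≤ s)
    {z : F × F × F} (hz : NearE m0 r z) : NearE m0 s z := by
  obtain ⟨h1, h2, h3, h4⟩ := hz
  have h5 : 1 / s ≤ 1 / r := one_div_le_one_div_of_le hr h
  exact ⟨h1, lt_of_le_of_lt h5 h2, lt_of_le_of_lt h5 h3, lt_of_lt_of_le h4 h⟩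

theorem rjg (apx : ApxStmt) (mee : MeeStmt) (jco : JcoStmt) (jne : JneStmt) (rbs : RbsStmt)
    (rcj : RcjStmt) (inv : InvStmt) : RjgStmt := by
  intro ι F _ ϖ S q hF hqS hle x1 r hr hx1
  have hq := hF.1 q
  haveI : Gd (F q) := hq.gd
  obtain ⟨r2, hr2, hjne⟩ := jne (F q) (ϖ q) hq x1 r hr hx1
  have hm1 : ea (F q) * eb (F q) / ((ea (F q) - eb (F q)) * x1) ≠ 0 :=
    div_ne_zero (mul_ne_zero (ea_ne _) (eb_ne _)) (mul_ne_zero (eab_ne _) hx1.1)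
  obtain ⟨a, b, c, e, hdet, ha, hc, happ⟩ := apx (F q) (ϖ q) hq _ (r2 / 2) hm1 (half_pos hr2)
  obtain ⟨r3, hr3, hmee⟩ := mee (F q) (ϖ q) hq a b c e (r2 / 2) hdet ha hc (half_pos hr2)
  have hmin : 0 < min r3 1 := lt_min hr3 one_pos
  obtain ⟨r', hr', hjco⟩ := jco (F q) (ϖ q) hq (min r3 1) hmin
  refine ⟨r', hr', fun z hz => ?_⟩
  obtain ⟨z2, hs1, hn2⟩ := hjco z hz
  obtain ⟨z3, hs2, hn3⟩ := hmee z2 (nearE_mono hmin (min_le_left _ _) hn2)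
  have hn3' : NearE (ea (F q) * eb (F q) / ((ea (F q) - eb (F q)) * x1)) r2 z3 := by
    obtain ⟨h1, h2, h3, h4⟩ := hn3
    have h5 : 1 / r2 ≤ 1 / (r2 / 2) := one_div_le_one_div_of_le (half_pos hr2) (by linarith)
    refine ⟨h1, lt_of_le_of_lt h5 h2, lt_of_le_of_lt h5 h3, ?_⟩
    have h6 := norm_add_le (mz z3 - am (F q) c / am (F q) a)
      (am (F q) c / am (F q) a - ea (F q) * eb (F q) / ((ea (F q) - eb (F q)) * x1))
    rw [sub_add_sub_cancel] at h6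
    linarith
  obtain ⟨w, hs3, hnw⟩ := hjne z3 hn3'
  have hbig : 1 ≤ 1 / min r3 1 := by
    rw [le_div_iff₀ hmin, one_mul]
    exact min_le_right _ _
  have hRR : RR F S q z2 z3 := rbs ι F ϖ S q hF hqS hle a b c e z2 z3
    (lt_of_le_of_lt hbig hn2.2.1) (lt_of_le_of_lt hbig hn2.2.2.1) hs2
  have hinv : Step .jj z2 z := inv (F q) hq.two_ne .jj z z2 hs1
  refine ⟨w, hnw, rcj ι F ϖ S q hF.1 [.jj] z2 z3 z w hRR ⟨z, hinv, hinv.2.1, rfl⟩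
    ⟨w, hs3, hs3.2.1, rfl⟩⟩

end Pool.Agent.WAR.H40
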