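import Pool.Agent.WAR.StmtsR

/-!
# WAR, row RCO: the two components
-/

set_option autoImplicit false

namespace Pool.Agent.WAR.H88

open Pool.Agent.WAR Pool.Agent.WAR.R Pool.Agent.WAR.G

theorem two_ne : (2 : ℝ) ≠ 0 := by norm_num

theorem egg {E1 E E3 X Y : ℝ} (h1 : E1 < E) (hX : X < E3)
    (hY : Y ^ 2 = (X - E1) * (X - E) * (X - E3)) : E1 ≤ X ∧ X ≤ E := by
  have h0 : 0 ≤ (X - E1) * (X - E) * (X - E3) := by rw [← hY]; positivity
  have h4 : X - E3 < 0 := by linarith
  have h5 : (X - E1) * (X - E) ≤ 0 := by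
    by_contra hc
    rw [not_le] at hc
    have := mul_neg_of_pos_of_neg hc h4
    linarith
  constructor
  · by_contra hc
    rw [not_le] at hc
    have := mul_pos_of_neg_of_neg (show X - E1 < 0 by linarith) (show X - E < 0 by linarith)
    linarith
  · by_contra hc
    rw [not_le] at hc
    have := mul_pos (show 0 < X - E1 by linarith) (show 0 < X - E by linarith)
    linarith

/-- the algebra of the duplication -/
theorem dbl_alg {d a b x y : ℝ} (hd : d ≠ 0) (hy : y ≠ 0)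
    (he : d * y ^ 2 = x * (x - a) * (x - b)) :
    0 ≤ d * ((x ^ 2 - a * b) ^ 2 / (4 * (x * (x - a) * (x - b)))) ∧
      d * a ≤ d * ((x ^ 2 - a * b) ^ 2 / (4 * (x * (x - a) * (x - b)))) ∧
      d * b ≤ d * ((x ^ 2 - a * b) ^ 2 / (4 * (x * (x - a) * (x - b)))) := by
  have e0 : d * ((x ^ 2 - a * b) ^ 2 / (4 * (x * (x - a) * (x - b)))) =
      (x ^ 2 - a * b) ^ 2 / (4 * y ^ 2) := by
    rw [← he]
    field_simp
  have e1 : (x ^ 2 - a * b) ^ 2 / (4 * y ^ 2) =
      d * a + (x ^ 2 - 2 * a * x + a * b) ^ 2 / (4 * y ^ 2) := by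
    rw [eq_comm, ← sub_eq_zero]
    field_simp
    linear_combination 4 * a * he
  have e2 : (x ^ 2 - a * b) ^ 2 / (4 * y ^ 2) =
      d * b + (x ^ 2 - 2 * b * x + a * b) ^ 2 / (4 * y ^ 2) := by
    rw [eq_comm, ← sub_eq_zero]
    field_simp
    linear_combination 4 * b * he
  rw [e0]
  refine ⟨by positivity, ?_, ?_⟩
  · rw [e1]
    have : 0 ≤ (x ^ 2 - 2 * a * x + a * b) ^ 2 / (4 * y ^ 2) := by positivity
    linarith
  · rw [e2]
    have : 0 ≤ (x ^ 2 - 2 * b * x + a * b) ^ 2 / (4 * y ^ 2) := by positivity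
    linarith

attribute [local instance 10000] Pool.Agent.WAR.R.decR

variable [Par]

theorem cX_isP {d x y : ℝ} {P : Pt d} (h : IsP P x y) : cX P = d * x := by
  obtain ⟨h, rfl⟩ := h
  rfl

/-- doubles are in the identity component -/
theorem idc_dbl {d : ℝ} (hd : d ≠ 0) (P : Pt d) : IdC (sm 2 P) := by
  rw [two_sm]
  by_cases hP : P = 0
  · left
    rw [hP, add_zero]
  have h := isP_self hd hP
  generalize xn P = x at h
  generalize yn P = y at h
  by_cases hy : y = 0
  · left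
    rw [hy] at h
    exact h.add_same (h.congr rfl (by ring))
  right
  have h1 := h.dbl two_ne hd hy
  rw [cX_isP h1]
  have he := h.eqn hd
  unfold cub at he ⊢
  obtain ⟨h2, h3, h4⟩ := dbl_alg hd hy he
  exact max_le h2 (max_le h3 h4)

/-- translation by the middle point of order two -/
theorem mid {d : ℝ} (hd : d ≠ 0) (e e' e'' : ℝ) (hc : ∀ x : ℝ, cub x = (x - e) * (x - e') * (x - e''))
    (hadd : ∀ (P : Pt d) (x y : ℝ), IsP P x y → x ≠ e →
      ∃ y', IsP (P + tor d e) (e + (e - e') * (e - e'') / (x - e)) y')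
    (h1 : d * e' < d * e) (h3 : d * e < d * e'') (hr : rt3 d = d * e'') :
    ∃ T : Pt d, T + T = 0 ∧ ∀ P : Pt d, ¬ IdC P → IdC (P + T) := by
  have he : cub e = 0 := by rw [hc]; ring
  refine ⟨tor d e, tor_add_self two_ne hd he, ?_⟩
  intro P hP
  unfold IdC at hP
  rw [not_or, not_le] at hP
  obtain ⟨hP0, hPX⟩ := hP
  have h := isP_self hd hP0
  generalize xn P = x at h
  generalize yn P = y at h
  rw [cX_isP h, hr] at hPX
  have hq := h.eqn hd
  by_cases hx : x = e
  · left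
    have hy : y = 0 := by
      rw [hx, he] at hq
      have := (mul_eq_zero.mp hq).resolve_left hd
      exact (pow_eq_zero_iff two_ne_zero).mp this
    rw [hx, hy] at h
    exact h.add_same ((isP_tor two_ne hd he).congr rfl (by ring))
  right
  obtain ⟨y', hy'⟩ := hadd P x y h hx
  rw [cX_isP hy', hr]
  obtain ⟨h4, h5⟩ := egg (X := d * x) (Y := d ^ 2 * y) h1 hPX (by
    rw [hc] at hq
    linear_combination d ^ 3 * hq)
  have h6 : d * x < d * e := lt_of_le_of_ne h5 fun h7 => hx (mul_left_cancel₀ hd h7)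
  have hxe : x - e ≠ 0 := sub_ne_zero.mpr hx
  have h7 : d * (e + (e - e') * (e - e'') / (x - e)) =
      d * e + (d * e - d * e') * (d * e'' - d * e) / (d * e - d * x) := by
    have h8 : d * e - d * x ≠ 0 := by linarith
    have h9 : e - x ≠ 0 := fun h0 => hxe (by linarith)
    have h10 : d * e - d * x = -(d * (x - e)) := by ring
    rw [h10]
    field_simp
    ring
  rw [h7]
  have h8 : 0 < d * e - d * x := by linarith
  have h9 : d * e'' - d * e ≤ (d * e - d * e') * (d * e'' - d * e) / (d * e - d * x) := by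
    rw [le_div_iff₀ h8]
    have h10 : 0 < d * e'' - d * e := by linarith
    nlinarith
  linarith

theorem exists_mid {d : ℝ} (hd : d ≠ 0) :
    ∃ T : Pt d, T + T = 0 ∧ ∀ P : Pt d, ¬ IdC P → IdC (P + T) := by
  have ha : d * ea ℝ ≠ 0 := mul_ne_zero hd (ea_ne ℝ)
  have hb : d * eb ℝ ≠ 0 := mul_ne_zero hd (eb_ne ℝ)
  have hab : d * ea ℝ ≠ d * eb ℝ := fun h => ea_ne_eb ℝ (mul_left_cancel₀ hd h)
  have t0 : ∀ (P : Pt d) (x y : ℝ), IsP P x y → x ≠ 0 →
      ∃ y', IsP (P + tor d 0) (0 + (0 - ea ℝ) * (0 - eb ℝ) / (x - 0)) y' := fun P x y h hx =>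
    ⟨_, (h.add_tor0 two_ne hd hx).congr (by ring) rfl⟩
  have t1 : ∀ (P : Pt d) (x y : ℝ), IsP P x y → x ≠ ea ℝ →
      ∃ y', IsP (P + tor d (ea ℝ)) (ea ℝ + (ea ℝ - 0) * (ea ℝ - eb ℝ) / (x - ea ℝ)) y' :=
    fun P x y h hx => ⟨_, (h.add_tor1 two_ne hd hx).congr (by
      have : x - ea ℝ ≠ 0 := sub_ne_zero.mpr hx
      field_simp
      ring) rfl⟩
  have t2 : ∀ (P : Pt d) (x y : ℝ), IsP P x y → x ≠ eb ℝ →
      ∃ y', IsP (P + tor d (eb ℝ)) (eb ℝ + (eb ℝ - 0) * (eb ℝ - ea ℝ) / (x - eb ℝ)) y' :=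
    fun P x y h hx => ⟨_, (h.add_torm two_ne hd hx).congr (by
      have : x - eb ℝ ≠ 0 := sub_ne_zero.mpr hx
      field_simp
      ring) rfl⟩
  rcases lt_or_gt_of_ne ha with h1 | h1 <;> rcases lt_or_gt_of_ne hb with h2 | h2 <;>
    rcases lt_or_gt_of_ne hab with h3 | h3
  · -- da < db < 0
    refine mid hd (eb ℝ) (ea ℝ) 0 (fun x => by unfold cub; ring) ?_ h3 (by linarith) ?_
    · intro P x y h hx
      obtain ⟨y', h'⟩ := t2 P x y h hx
      exact ⟨y', h'.congr (by ring) rfl⟩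
    · rw [mul_zero]
      exact max_eq_left (max_le h1.le h2.le)
  · refine mid hd (ea ℝ) (eb ℝ) 0 (fun x => by unfold cub; ring) ?_ h3 (by linarith) ?_
    · intro P x y h hx
      obtain ⟨y', h'⟩ := t1 P x y h hx
      exact ⟨y', h'.congr (by ring) rfl⟩
    · rw [mul_zero]
      exact max_eq_left (max_le h1.le h2.le)
  · -- da < 0 < db
    refine mid hd 0 (ea ℝ) (eb ℝ) (fun x => by unfold cub; ring) t0 (by linarith) (by linarith) ?_
    unfold rt3
    rw [max_eq_right h3.le, max_eq_right h2.le]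
  · linarith
  · linarith
  · -- db < 0 < da
    refine mid hd 0 (eb ℝ) (ea ℝ) (fun x => by unfold cub; ring) ?_ (by linarith) (by linarith) ?_
    · intro P x y h hx
      obtain ⟨y', h'⟩ := t0 P x y h hx
      exact ⟨y', h'.congr (by ring) rfl⟩
    · unfold rt3
      rw [max_eq_left h3.le, max_eq_right h1.le]
  · -- 0 < da < db
    refine mid hd (ea ℝ) 0 (eb ℝ) (fun x => by unfold cub; ring) t1 (by linarith) h3 ?_
    unfold rt3
    rw [max_eq_right h3.le, max_eq_right h2.le]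
  · refine mid hd (eb ℝ) 0 (ea ℝ) (fun x => by unfold cub; ring) t2 (by linarith) h3 ?_
    unfold rt3
    rw [max_eq_left h3.le, max_eq_right h1.le]

/-- row RCO -/
theorem rco (rhv : RhvStmt) : RcoStmt := by
  intro d hd
  have hdbl := idc_dbl hd
  have hhalf : ∀ P : Pt d, IdC P → ∃ A : Pt d, P = sm 2 A := by
    intro P hP
    obtain ⟨m, Q, hm, hQ, _⟩ := rhv d hd P hP 0
    obtain ⟨k, rfl⟩ := Nat.exists_eq_add_of_le' hm
    refine ⟨sm (2 ^ k) Q, ?_⟩
    rw [← mul_sm, ← hQ]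
    congr 1
    ring
  have hadd : ∀ P Q : Pt d, IdC P → IdC Q → IdC (P + Q) := by
    intro P Q hP hQ
    obtain ⟨A, rfl⟩ := hhalf P hP
    obtain ⟨B, rfl⟩ := hhalf Q hQ
    rw [← sm_add]
    exact hdbl _
  refine ⟨hdbl, hadd, ?_, ?_, ?_, ?_⟩
  · intro P Q hP hQ
    obtain ⟨T, hT, hTI⟩ := exists_mid hd
    have h1 := hadd _ _ (hTI P hP) (hTI Q hQ)
    have h2 : P + T + (Q + T) = P + Q := by
      calc P + T + (Q + T) = P + Q + (T + T) := by abel
        _ = P + Q := by rw [hT, add_zero]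
    rw [h2] at h1
    exact h1
  · refine ⟨|ea ℝ| + |eb ℝ|, ?_⟩
    intro p hp
    rcases hp with hp | hp
    · exact Or.inl hp
    by_cases hp0 : p = 0
    · exact Or.inl hp0
    right
    have h := isP_self hd hp0
    generalize xn p = x at h
    generalize yn p = y at h
    rw [cX_isP h] at hp ⊢
    have hq := h.eqn hd
    have hd' : 0 < |d| := abs_pos.mpr hd
    rw [Real.norm_eq_abs, mul_div_assoc, ← mul_div_assoc, mul_div_cancel_left₀ _ hd] at hp
    have h1 : |d * ea ℝ| + |d * eb ℝ| < |d * x| := by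
      rw [abs_mul, abs_mul, abs_mul, ← mul_add]
      exact mul_lt_mul_of_pos_left hp hd'
    have ha1 := abs_le.mp (le_refl |d * ea ℝ|)
    have hb1 := abs_le.mp (le_refl |d * eb ℝ|)
    have ha0 := abs_nonneg (d * ea ℝ)
    have hb0 := abs_nonneg (d * eb ℝ)
    have h2 : 0 ≤ d * x := by
      by_contra hneg
      rw [not_le] at hneg
      rw [abs_of_neg hneg] at h1
      have h3 : d * x * (d * x - d * ea ℝ) * (d * x - d * eb ℝ) < 0 := by
        have h4 : 0 < d * x * (d * x - d * ea ℝ) :=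
          mul_pos_of_neg_of_neg hneg (by linarith [ha1.1, ha1.2])
        exact mul_neg_of_pos_of_neg h4 (by linarith [hb1.1, hb1.2])
      have h5 : d * x * (d * x - d * ea ℝ) * (d * x - d * eb ℝ) = (d ^ 2 * y) ^ 2 := by
        unfold cub at hq
        linear_combination (-d ^ 3) * hq
      have h6 : 0 ≤ (d ^ 2 * y) ^ 2 := by positivity
      linarith
    rw [abs_of_nonneg h2] at h1
    refine max_le (by linarith) (max_le ?_ ?_)
    · linarith [ha1.2]
    · linarith [hb1.2]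
  · rintro P a ⟨r, rfl⟩
    rw [← two_mul, mul_sm]
    exact hdbl _
  · intro P hP
    by_cases hP0 : P = 0
    · left
      rw [hP0, neg_zero]
    rcases hP with hP | hP
    · exact absurd hP hP0
    right
    have h := isP_self hd hP0
    rw [cX_isP h.neg]
    rwa [cX_isP h] at hP

end Pool.Agent.WAR.H88
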