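import Mathlib.Tactic

/-!
The birational involution `j` of the surface `X : y ^ 2 = f(x) * f(t)`, `f(x) = x (x - a) (x - b)`,
over a field.

With `w = y / ((x - a) * (x - b) * (t - b))` the surface is fibred by the curves
`w ^ 2 * (x - a) * (x - b) * (t - b) = x * t * (t - a)` of bidegree `(2, 2)`; the hyperbolas
`x * (t - α) = δ * (δ - α)` with `δ = - b * w / (1 - w)` pass through the two points `(δ, δ)` and
`(0, ∞)` of the fibre and cut out the pairs of conjugate points of `j`.
-/

namespace Pool.Agent.Helper90_WAR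

variable {F : Type*} [Field F]

/-- the affine surface -/
def OnX (a b x t y : F) : Prop :=
  y ^ 2 = (x * (x - a) * (x - b)) * (t * (t - a) * (t - b))

/-- the data of the involution in relational form: `(x, t, y)` is sent to `(x', t', y')` -/
structure JRel (a b x t y w δ α x' t' y' : F) : Prop where
  hw : w * ((x - a) * (x - b) * (t - b)) = y
  hδ : δ * (1 - w) = - b * w
  hα : α * (x - δ) = x * t - δ ^ 2
  hx : x' * (w ^ 2 * (α - b) * x) = (δ - α) * (δ * (δ - α) - a * b * w ^ 2)
  ht : (t' - α) * x' = δ * (δ - α)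
  hy : y' = w * ((x' - a) * (x' - b)) * (t' - b)

variable {a b : F}

/-- fibre equation -/
theorem fibre_of_onX {x t y w : F} (hX : OnX a b x t y)
    (hw : w * ((x - a) * (x - b) * (t - b)) = y)
    (h1 : (x - a) * (x - b) ≠ 0) (h2 : t - b ≠ 0) :
    w ^ 2 * ((x - a) * (x - b)) * (t - b) = x * t * (t - a) := by
  have h3 : (x - a) * (x - b) * (t - b) ≠ 0 := mul_ne_zero h1 h2
  apply mul_right_cancel₀ h3
  unfold OnX at hX
  subst hw
  linear_combination hX

theorem onX_of_fibre {x t w : F}
    (h : w ^ 2 * ((x - a) * (x - b)) * (t - b) = x * t * (t - a)) :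
    OnX a b x t (w * ((x - a) * (x - b)) * (t - b)) := by
  unfold OnX
  linear_combination (x - a) * (x - b) * (t - b) * h

/-- the third root of a cubic with two known different roots -/
theorem third_root {a b c d r s u : F} (hrs : r ≠ s) (hr0 : r ≠ 0) (hs0 : s ≠ 0)
    (h1 : a * r ^ 3 + b * r ^ 2 + c * r + d = 0)
    (h2 : a * s ^ 3 + b * s ^ 2 + c * s + d = 0)
    (h3 : a * (r * s * u) = - d) :
    a * u ^ 3 + b * u ^ 2 + c * u + d = 0 := by
  have hsub : r - s ≠ 0 := sub_ne_zero.2 hrs
  have e1 : a * (r ^ 2 + r * s + s ^ 2) + b * (r + s) + c = 0 := by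
    apply mul_left_cancel₀ hsub
    linear_combination h1 - h2
  have e2 : d = r * s * (a * (r + s) + b) := by
    linear_combination h1 - r * e1
  have e3 : a * u + (a * (r + s) + b) = 0 := by
    apply mul_left_cancel₀ (mul_ne_zero hr0 hs0)
    linear_combination h3 - e2
  linear_combination (u - r) * (u - s) * e3 + u * e1 + e2

/-- the image lies on the fibre -/
theorem fibre_image {x t y w δ α x' t' y' : F} (h : JRel a b x t y w δ α x' t' y')
    (hX : OnX a b x t y) (h1 : (x - a) * (x - b) ≠ 0) (h2 : t - b ≠ 0) (hx0 : x ≠ 0)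
    (hδ0 : δ ≠ 0) (hxδ : x ≠ δ) (hx'0 : x' ≠ 0) :
    w ^ 2 * ((x' - a) * (x' - b)) * (t' - b) = x' * t' * (t' - a) := by
  have hf := fibre_of_onX hX h.hw h1 h2
  have hδ' : δ = w * (δ - b) := by linear_combination h.hδ
  have hxt : x * t = α * x + δ * (δ - α) := by linear_combination (-1) * h.hα
  -- the cubic
  have c1 : (- w ^ 2 * (α - b)) * x ^ 3
      + (α * (α - a) - w ^ 2 * (δ * (δ - α)) + w ^ 2 * (a + b) * (α - b)) * x ^ 2
      + (δ * (δ - α) * (2 * α - a) - w ^ 2 * (a * b * (α - b) - (a + b) * (δ * (δ - α)))) * x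
      + δ * (δ - α) * (δ * (δ - α) - a * b * w ^ 2) = 0 := by
    have e : (x * t) * (x * t - a * x) - w ^ 2 * ((x - a) * (x - b)) * (x * t - b * x) = 0 := by
      linear_combination (- x) * hf
    rw [hxt] at e
    linear_combination e
  have c2 : (- w ^ 2 * (α - b)) * δ ^ 3
      + (α * (α - a) - w ^ 2 * (δ * (δ - α)) + w ^ 2 * (a + b) * (α - b)) * δ ^ 2
      + (δ * (δ - α) * (2 * α - a) - w ^ 2 * (a * b * (α - b) - (a + b) * (δ * (δ - α)))) * δ
      + δ * (δ - α) * (δ * (δ - α) - a * b * w ^ 2) = 0 := by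
    have e : (δ * δ) * (δ * δ - a * δ) - w ^ 2 * ((δ - a) * (δ - b)) * (δ * δ - b * δ) = 0 := by
      linear_combination (δ * (δ - a) * (δ + w * (δ - b))) * hδ'
    linear_combination e
  have c3 : (- w ^ 2 * (α - b)) * (x * δ * x')
      = - (δ * (δ - α) * (δ * (δ - α) - a * b * w ^ 2)) := by
    linear_combination (- δ) * h.hx
  have c4 := third_root hxδ hx0 hδ0 c1 c2 c3
  have hxt' : x' * t' = α * x' + δ * (δ - α) := by linear_combination h.ht
  apply mul_left_cancel₀ hx'0
  have e : (x' * t') * (x' * t' - a * x') - w ^ 2 * ((x' - a) * (x' - b)) * (x' * t' - b * x')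
      = 0 := by
    rw [hxt']
    linear_combination c4
  linear_combination (-1) * e

/-- (J1) the image lies on the surface -/
theorem onX_image {x t y w δ α x' t' y' : F} (h : JRel a b x t y w δ α x' t' y')
    (hX : OnX a b x t y) (h1 : (x - a) * (x - b) ≠ 0) (h2 : t - b ≠ 0) (hx0 : x ≠ 0)
    (hδ0 : δ ≠ 0) (hxδ : x ≠ δ) (hx'0 : x' ≠ 0) : OnX a b x' t' y' := by
  rw [h.hy]
  exact onX_of_fibre (fibre_image h hX h1 h2 hx0 hδ0 hxδ hx'0)

/-- (J2) the relation is symmetric -/
theorem JRel.symm {x t y w δ α x' t' y' : F} (h : JRel a b x t y w δ α x' t' y') :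
    JRel a b x' t' y' w δ α x t y where
  hw := by rw [h.hy]; ring
  hδ := h.hδ
  hα := by linear_combination (-1) * h.ht
  hx := by linear_combination h.hx
  ht := by linear_combination (-1) * h.hα
  hy := by rw [← h.hw]; ring

end Pool.Agent.Helper90_WAR
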