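import Pool.Agent.Helper32_WAR.H90_JPolyG
import Pool.Agent.Helper32_WAR.H90_JD

/-!
Outside the roots of `PJ t` a point of `U` is in the domain of `j`.
-/

namespace Pool.Agent.WAR.H90

open Polynomial Pool.Agent.Helper90_WAR

variable [Par] {F : Type} [Field F]

theorem jD_of_PJ [Gd F] {z : F × F × F} (hU : OnU z)
    (h : (PJ (ea F) (eb F) z.2.1).eval z.1 ≠ 0) : jD z := by
  obtain ⟨x, t, y⟩ := z
  obtain ⟨hx, hx1, ht, ht1, ht2, _, _, _⟩ := onU_facts hU
  have hb := eb_ne F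
  simp only at h hx hx1 ht ht1 ht2
  unfold PJ at h
  simp only [eval_mul, mul_ne_zero_iff] at h
  obtain ⟨⟨⟨⟨⟨⟨⟨⟨⟨⟨g1, g2⟩, g3⟩, g4⟩, g5⟩, g6⟩, g7a⟩, g7b⟩, g7e⟩, g7c⟩, g7d⟩ := h
  simp only [P1, P2, P3, P4, P5, P6, P7a, P7b, P7e, P7c, P7d, eval_add, eval_sub, eval_mul,
    eval_pow, eval_X, eval_C, eval_ofNat, eval_MM, eval_NN] at g1 g2 g3 g4 g5 g6 g7a g7b g7e g7c g7d
  have hw0 := jw_ne hU
  have hwM : jw (x, t, y) * ((x - ea F) * (x - eb F) * (t - eb F)) = y := by
    unfold jw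
    exact div_mul_cancel₀ _ (mul_ne_zero hx1 ht2)
  have hf : (jw (x, t, y)) ^ 2 * ((x - ea F) * (x - eb F)) * (t - eb F) = x * t * (t - ea F) :=
    fibre_of_onX (onU_onX hU) hwM hx1 ht2
  have hW : (jw (x, t, y)) ^ 2 * ((x - ea F) * (x - eb F) * (t - eb F)) = x * (t * (t - ea F)) := by
    linear_combination hf
  have w1 : jw (x, t, y) ≠ 1 := fun h => g1 (bad1 hW h)
  have hδ : jd (x, t, y) * (1 - jw (x, t, y)) = - eb F * jw (x, t, y) := by
    unfold jd
    exact div_mul_cancel₀ _ (sub_ne_zero.2 w1.symm)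
  have xd : x ≠ jd (x, t, y) := by
    intro h
    apply g2
    refine bad2 hW ?_
    linear_combination hδ + (1 - jw (x, t, y)) * h
  have hα : ja (x, t, y) * (x - jd (x, t, y)) = x * t - jd (x, t, y) ^ 2 := by
    unfold ja
    exact div_mul_cancel₀ _ (sub_ne_zero.2 xd)
  have a1 : ja (x, t, y) ≠ eb F := by
    intro h
    rw [h] at hα
    exact g3 (bad3 hW hδ hα)
  have da : jd (x, t, y) ≠ ja (x, t, y) := by
    intro h
    apply g4
    rw [← h] at hα
    have e : jd (x, t, y) = t := by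
      apply mul_left_cancel₀ hx
      linear_combination hα
    rw [e] at hδ
    exact bad4 hW hδ
  have g : jd (x, t, y) * (jd (x, t, y) - ja (x, t, y)) - ea F * eb F * jw (x, t, y) ^ 2 ≠ 0 :=
    fun h => g5 (bad5 hb hW hw0 hδ hα h)
  have hq := qj_zero hf hδ hα xd
  have hxx : jx (x, t, y) * (jw (x, t, y) ^ 2 * (ja (x, t, y) - eb F) * x) =
      (jd (x, t, y) - ja (x, t, y)) *
        (jd (x, t, y) * (jd (x, t, y) - ja (x, t, y)) - ea F * eb F * jw (x, t, y) ^ 2) := by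
    unfold jx
    exact div_mul_cancel₀ _ (mul_ne_zero (mul_ne_zero (pow_ne_zero 2 hw0) (sub_ne_zero.2 a1)) hx)
  have hq' := qj_zero' hq hx hxx
  have hd0 := jd_ne hU w1
  refine ⟨hU, w1, xd, a1, da, g, ?_, ?_⟩
  · intro h
    rw [h, qj_delta hδ] at hq'
    exact g6 (bad6 hW hδ hα ((mul_eq_zero.1 hq').resolve_left hd0))
  · intro h'
    rcases mul_eq_zero.1 h' with h3 | h3
    · have e1 : jx (x, t, y) = ea F := by linear_combination h3
      rw [e1] at hq'
      have := qj_a (a := ea F) (α := ja (x, t, y)) hδ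
      rw [hq', mul_zero] at this
      rcases mul_eq_zero.1 this with h4 | h4
      · exact g7a (bad7a hW hδ hα h4)
      · rcases bad7b hW hδ hα h4 with h5 | h5
        · exact g7b h5
        · exact g7e h5
    · have e1 : jx (x, t, y) = eb F := by linear_combination h3
      rw [e1] at hq'
      have := qj_b (a := ea F) (α := ja (x, t, y)) hδ
      rw [hq', mul_zero] at this
      rcases mul_eq_zero.1 this with h4 | h4
      · exact g7c (bad7c hb hW hδ hα h4)
      · exact g7d (bad7d hb hW hδ hα h4)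

end Pool.Agent.WAR.H90
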