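import Pool.Agent.WAR.StmtsR
import Pool.Agent.Helper32_WAR.H95_RHV

set_option autoImplicit false

namespace Pool.Agent.WAR.H95

open Pool.Agent.WAR Pool.Agent.WAR.R Pool.Agent.WAR.G

attribute [local instance 10000] decR

variable [Par]

/-- the bound `A` -/
noncomputable def bA : ℝ := 20 * (|ea ℝ| + |eb ℝ|) + 1

theorem bA_one : 1 ≤ bA := by
  unfold bA
  have := abs_nonneg (ea ℝ)
  have := abs_nonneg (eb ℝ)
  linarith

theorem norm_cXd {d : ℝ} (P : Pt d) : ‖cX P / d‖ = |xn P| := rfl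

/-- sizes of the coordinates near the origin -/
theorem sizes {d : ℝ} (hd : d ≠ 0) {P : Pt d} (hP : P ≠ 0) (h : bA < ‖cX P / d‖) :
    0 < cX P ∧ cz P ≠ 0 ∧ 4 / 5 ≤ cX P * cz P ^ 2 ∧ cX P * cz P ^ 2 ≤ 5 / 4 := by
  rw [norm_cXd] at h
  have hI := isP_self hd hP
  have heq := hI.eqn hd
  have hX : cX P = d * xn P := by
    unfold xn
    field_simp
  have hz : cz P = xn P / (d * yn P) := hI.zc_eq hd
  generalize xn P = x at *
  generalize yn P = y at *
  have h1 := bA_one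
  have hx0 : x ≠ 0 := by
    rintro rfl
    rw [abs_zero] at h
    linarith
  have ha := abs_nonneg (ea ℝ)
  have hb := abs_nonneg (eb ℝ)
  have hxx : |x| ^ 2 = x ^ 2 := sq_abs x
  have hx2 : 0 < x ^ 2 := by positivity
  set S := |ea ℝ| + |eb ℝ| with hS
  have hS0 : 0 ≤ S := add_nonneg ha hb
  have hSx : 20 * S ≤ |x| := by
    unfold bA at h
    linarith
  have k1 : |(ea ℝ + eb ℝ) * x| ≤ x ^ 2 / 20 := by
    rw [abs_mul]
    have : |ea ℝ + eb ℝ| ≤ S := abs_add_le _ _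
    calc |ea ℝ + eb ℝ| * |x| ≤ S * |x| := mul_le_mul_of_nonneg_right this (abs_nonneg x)
      _ ≤ |x| / 20 * |x| := mul_le_mul_of_nonneg_right (by linarith) (abs_nonneg x)
      _ = |x| ^ 2 / 20 := by ring
      _ = x ^ 2 / 20 := by rw [hxx]
  have k2 : |ea ℝ * eb ℝ| ≤ x ^ 2 / 400 := by
    rw [abs_mul]
    calc |ea ℝ| * |eb ℝ| ≤ S * S := mul_le_mul (by linarith) (by linarith) hb hS0
      _ ≤ (|x| / 20) * (|x| / 20) := mul_le_mul (by linarith) (by linarith) hS0 (by positivity)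
      _ = |x| ^ 2 / 400 := by ring
      _ = x ^ 2 / 400 := by rw [hxx]
  obtain ⟨k3, k4⟩ := abs_le.1 k1
  obtain ⟨k5, k6⟩ := abs_le.1 k2
  set G : ℝ := (x - ea ℝ) * (x - eb ℝ) with hG
  have hGe : G = x ^ 2 - (ea ℝ + eb ℝ) * x + ea ℝ * eb ℝ := by
    rw [hG]
    ring
  have g1 : 4 / 5 * x ^ 2 ≤ G := by
    rw [hGe]
    nlinarith
  have g2 : G ≤ 5 / 4 * x ^ 2 := by
    rw [hGe]
    nlinarith
  have hGpos : 0 < G := by nlinarith
  have hc : d * y ^ 2 = x * G := by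
    rw [heq, hG]
    unfold cub
    ring
  have hy : y ≠ 0 := by
    rintro rfl
    have : x * G = 0 := by linear_combination -hc
    rcases mul_eq_zero.1 this with h' | h'
    · exact hx0 h'
    · exact hGpos.ne' h'
  have hdx : 0 < d * x := by
    have h3 : 0 < d ^ 2 * y ^ 2 := by positivity
    have h4 : d ^ 2 * y ^ 2 = d * x * G := by linear_combination d * hc
    rw [h4] at h3
    exact (mul_pos_iff_of_pos_right hGpos).1 h3
  have hxz : d * x * (x / (d * y)) ^ 2 = x ^ 2 / G := by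
    have : (x / (d * y)) ^ 2 = x ^ 2 / (d * (d * y ^ 2)) := by
      rw [div_pow]
      congr 1
      ring
    rw [this, hc]
    field_simp
  rw [hX, hz]
  refine ⟨hdx, div_ne_zero hx0 (mul_ne_zero hd hy), ?_, ?_⟩
  · rw [hxz, le_div_iff₀ hGpos]
    linarith
  · rw [hxz, div_le_iff₀ hGpos]
    linarith

end Pool.Agent.WAR.H95
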