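import Pool.Agent.Helper32_WAR.H95_RGRcore

set_option autoImplicit false

namespace Pool.Agent.WAR.H95

open Pool.Agent.WAR Pool.Agent.WAR.R Pool.Agent.WAR.G

attribute [local instance 10000] decR

variable [Par]

theorem cz_neg' {d : ℝ} (P : Pt d) : cz (-P) = -cz P := zc_neg P

theorem big_neg {d : ℝ} {N : ℝ} {P : Pt d} (h : Big N P) : Big N (-P) := by
  rcases h with rfl | h
  · left
    simp
  · right
    rw [norm_cXd] at h ⊢
    rwa [xn_neg]

theorem big_mono {d : ℝ} {N N' : ℝ} {P : Pt d} (hN : N' ≤ N) (h : Big N P) : Big N' P := by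
  rcases h with rfl | h
  · exact Or.inl rfl
  · exact Or.inr (lt_of_le_of_lt hN h)

theorem cz_zero' {d : ℝ} : cz (0 : Pt d) = 0 := zc_zero

theorem rgr_core {d : ℝ} (hd : d ≠ 0)
    (adn : ∀ N : ℝ, ∃ N' : ℝ, ∀ p q : Pt d, Big N' p → Big N' q → Big N (p + q))
    (zad : ∀ ε : ℝ, 0 < ε → ∃ N : ℝ, ∀ p q : Pt d, Big N p → Big N q →
      ‖cz (p + q) - cz p - cz q‖ ≤ ε * max ‖cz p‖ ‖cz q‖) :
    ∃ N0 : ℝ, ∀ e Q : Pt d, e ≠ 0 → Big N0 e → Big N0 Q →
      ∃ a : ℤ, Big (‖cX e / d‖ / 2) (Q - sm a e) := by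
  obtain ⟨N1, h1⟩ := zad (1 / 20) (by norm_num)
  obtain ⟨N2, h2⟩ := adn bA
  set N3 : ℝ := max bA (max N1 N2) with hN3
  have hA1 := bA_one
  have hA3 : bA ≤ N3 := le_max_left _ _
  have hN13 : N1 ≤ N3 := le_trans (le_max_left _ _) (le_max_right _ _)
  have hN23 : N2 ≤ N3 := le_trans (le_max_right _ _) (le_max_right _ _)
  have hD : 0 < |d| := abs_pos.2 hd
  set ζ : ℝ := 1 / (7 * (|d| * N3 + 1)) with hζ
  have hDN : 0 < |d| * N3 := mul_pos hD (by linarith)
  have hζ0 : 0 < ζ := by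
    rw [hζ]
    positivity
  have hζ1 : 5 * ζ ^ 2 * (|d| * N3) < 4 / 5 := by
    rw [hζ]
    generalize |d| * N3 = t at *
    rw [div_pow, one_pow]
    have : 5 * (1 / (7 * (t + 1)) ^ 2) * t = 5 * t / (7 * (t + 1)) ^ 2 := by ring
    rw [this, div_lt_iff₀ (by positivity)]
    nlinarith
  -- small points are in Big N3
  have small : ∀ P : Pt d, Big bA P → |cz P| ≤ 2.2 * ζ → Big N3 P := by
    intro P hP hz
    by_cases h0 : P = 0
    · exact Or.inl h0
    rcases hP with h | hP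
    · exact absurd h h0
    obtain ⟨s1, s2, s3, s4⟩ := sizes hd h0 hP
    right
    rw [norm_div, Real.norm_eq_abs, Real.norm_eq_abs, lt_div_iff₀ hD, abs_of_pos s1]
    have hz2 : cz P ^ 2 ≤ 5 * ζ ^ 2 := by
      have := mul_self_le_mul_self (abs_nonneg _) hz
      have h4 : |cz P| * |cz P| = cz P ^ 2 := by rw [abs_mul_abs_self]; ring
      rw [h4] at this
      nlinarith [sq_nonneg ζ]
    have h5 : 4 / 5 ≤ cX P * (5 * ζ ^ 2) := le_trans s3 (mul_le_mul_of_nonneg_left hz2 s1.le)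
    by_contra hcon
    push Not at hcon
    have : cX P * (5 * ζ ^ 2) ≤ N3 * |d| * (5 * ζ ^ 2) :=
      mul_le_mul_of_nonneg_right hcon (by positivity)
    nlinarith
  have addsm : ∀ P Q : Pt d, Big bA P → |cz P| ≤ 2.2 * ζ → Big bA Q → |cz Q| ≤ 2.2 * ζ →
      Big bA (P + Q) ∧ |cz (P + Q) - cz P - cz Q| ≤ 1 / 20 * max |cz P| |cz Q| := by
    intro P Q hP hzP hQ hzQ
    have k1 := small P hP hzP
    have k2 := small Q hQ hzQ
    exact ⟨h2 P Q (big_mono hN23 k1) (big_mono hN23 k2),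
      h1 P Q (big_mono hN13 k1) (big_mono hN13 k2)⟩
  -- N0
  refine ⟨max bA (5 / (4 * |d| * ζ ^ 2)), ?_⟩
  intro e Q0 he0 he hQ0
  have toS : ∀ P : Pt d, Big (max bA (5 / (4 * |d| * ζ ^ 2))) P → Big bA P ∧ |cz P| ≤ ζ := by
    intro P hP
    have hP1 := big_mono (le_max_left _ _) hP
    refine ⟨hP1, ?_⟩
    by_cases h0 : P = 0
    · rw [h0, cz_zero', abs_zero]
      exact hζ0.le
    rcases hP1 with h | hP1
    · exact absurd h h0
    rcases big_mono (le_max_right _ _) hP with h | hP2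
    · exact absurd h h0
    obtain ⟨s1, s2, s3, s4⟩ := sizes hd h0 hP1
    rw [norm_div, Real.norm_eq_abs, Real.norm_eq_abs, lt_div_iff₀ hD, abs_of_pos s1] at hP2
    have h5 : 5 / (4 * |d| * ζ ^ 2) * |d| = 5 / (4 * ζ ^ 2) := by
      field_simp
    rw [h5, div_lt_iff₀ (by positivity)] at hP2
    have h6 : cz P ^ 2 < ζ ^ 2 := by
      by_contra hcon
      push Not at hcon
      have : cX P * (4 * ζ ^ 2) ≤ 4 * (cX P * cz P ^ 2) := by nlinarith
      linarith
    exact (abs_lt_of_sq_lt_sq h6 hζ0.le).le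
  obtain ⟨heA, heζ⟩ := toS e he
  obtain ⟨hQA, hQζ⟩ := toS Q0 hQ0
  have hesz := sizes hd he0 (heA.resolve_left he0)
  obtain ⟨e1, e2, e3, e4⟩ := hesz
  have hρ : 0 < |cz e| := abs_pos.2 e2
  -- doubling
  have dbl : ∀ P : Pt d, Big bA P → |cz P| ≤ ζ →
      Big bA (sm 2 P) ∧ |cz (sm 2 P) - 2 * cz P| ≤ 1 / 20 * |cz P| := by
    intro P hP hz
    have hz' : |cz P| ≤ 2.2 * ζ := by nlinarith
    obtain ⟨k1, k2⟩ := addsm P P hP hz' hP hz'
    rw [two_sm]
    refine ⟨k1, ?_⟩
    rw [max_self] at k2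
    have : cz (P + P) - 2 * cz P = cz (P + P) - cz P - cz P := by ring
    rwa [this]
  have grow : ∀ P : Pt d, Big bA P → |cz P| ≤ ζ →
      Big bA (sm 2 P) ∧ 1.95 * |cz P| ≤ |cz (sm 2 P)| ∧ |cz (sm 2 P)| ≤ 2.05 * |cz P| := by
    intro P hP hz
    obtain ⟨k1, k2⟩ := dbl P hP hz
    refine ⟨k1, ?_, ?_⟩
    · have : |2 * cz P| ≤ |cz (sm 2 P)| + |cz (sm 2 P) - 2 * cz P| := by
        have := abs_sub_abs_le_abs_sub (2 * cz P) (cz (sm 2 P))
        rw [abs_sub_comm] at this
        linarith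
      rw [abs_mul, abs_two] at this
      linarith
    · have : |cz (sm 2 P)| ≤ |cz (sm 2 P) - 2 * cz P| + |2 * cz P| := by
        have := abs_add_le (cz (sm 2 P) - 2 * cz P) (2 * cz P)
        rwa [sub_add_cancel] at this
      rw [abs_mul, abs_two] at this
      linarith
  -- approximation by a power of 2
  have pow2 : ∀ Q : Pt d, |cz Q| ≤ ζ → |cz e| < |cz Q| → ∃ j : ℕ,
      Big bA (sm (2 ^ j) e) ∧ |cz (sm (2 ^ j) e)| ≤ |cz Q| ∧ |cz Q| ≤ 2.05 * |cz (sm (2 ^ j) e)| := by
    intro Q hQ hlt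
    have step : ∀ j : ℕ, (∀ i < j, |cz (sm (2 ^ i) e)| ≤ |cz Q|) →
        Big bA (sm (2 ^ j) e) ∧ (1.95 : ℝ) ^ j * |cz e| ≤ |cz (sm (2 ^ j) e)| := by
      intro j
      induction j with
      | zero =>
        intro _
        rw [pow_zero, one_sm, pow_zero, one_mul]
        exact ⟨heA, le_refl _⟩
      | succ j ih =>
        intro hj
        obtain ⟨i1, i2⟩ := ih (fun i hi => hj i (Nat.lt_succ_of_lt hi))
        obtain ⟨g1, g2, g3⟩ := grow _ i1 (le_trans (hj j (Nat.lt_succ_self j)) hQ)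
        have hs : sm (2 ^ (j + 1)) e = sm 2 (sm (2 ^ j) e) := by
          rw [← mul_sm, pow_succ, mul_comm]
        rw [hs]
        refine ⟨g1, le_trans ?_ g2⟩
        rw [pow_succ]
        nlinarith
    have hex : ∃ j : ℕ, |cz Q| < |cz (sm (2 ^ j) e)| := by
      by_contra hcon
      push Not at hcon
      obtain ⟨j, hj⟩ := pow_unbounded_of_one_lt (|cz Q| / |cz e|) (show (1 : ℝ) < 1.95 by norm_num)
      obtain ⟨_, k2⟩ := step j (fun i _ => hcon i)
      rw [div_lt_iff₀ hρ] at hj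
      exact absurd (hcon j) (not_le.2 (lt_of_lt_of_le hj k2))
    classical
    have hf := Nat.find_spec hex
    have hm := fun m (h : m < Nat.find hex) => not_lt.1 (Nat.find_min hex h)
    have hne : Nat.find hex ≠ 0 := by
      intro h0
      rw [h0, pow_zero, one_sm] at hf
      linarith
    obtain ⟨j, hj⟩ := Nat.exists_eq_succ_of_ne_zero hne
    refine ⟨j, (step j (fun i hi => hm i (by rw [hj]; exact Nat.lt_succ_of_lt hi))).1,
      hm j (by rw [hj]; exact Nat.lt_succ_self j), ?_⟩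
    have b1 := (step j (fun i hi => hm i (by rw [hj]; exact Nat.lt_succ_of_lt hi))).1
    obtain ⟨g1, g2, g3⟩ := grow _ b1 (le_trans (hm j (by rw [hj]; exact Nat.lt_succ_self j)) hQ)
    have hs : sm (2 ^ (j + 1)) e = sm 2 (sm (2 ^ j) e) := by
      rw [← mul_sm, pow_succ, mul_comm]
    rw [hj, Nat.succ_eq_add_one, hs] at hf
    linarith
  -- the claim
  have claim : ∀ n : ℕ, ∀ Q : Pt d, Big bA Q → |cz Q| ≤ ζ → |cz Q| ≤ |cz e| * (5 / 4) ^ n →
      ∃ a : ℤ, Big bA (Q - sm a e) ∧ |cz (Q - sm a e)| ≤ |cz e| := by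
    intro n
    induction n with
    | zero =>
      intro Q hQ _ h
      refine ⟨0, ?_, ?_⟩
      · rw [zero_sm, sub_zero]
        exact hQ
      · rw [zero_sm, sub_zero]
        simpa using h
    | succ n ih =>
      intro Q hQ hζQ h
      by_cases hle : |cz Q| ≤ |cz e|
      · refine ⟨0, ?_, ?_⟩
        · rw [zero_sm, sub_zero]
          exact hQ
        · rw [zero_sm, sub_zero]
          exact hle
      push Not at hle
      obtain ⟨j, j1, j2, j3⟩ := pow2 Q hζQ hle
      -- choose the sign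
      obtain ⟨c, R, hcR, hRA, hRz, hsgn⟩ : ∃ (c : ℤ) (R : Pt d), R = sm c e ∧ Big bA R ∧
          |cz R| = |cz (sm (2 ^ j) e)| ∧ 0 ≤ cz R * cz Q := by
        rcases le_total 0 (cz (sm (2 ^ j) e) * cz Q) with hs | hs
        · exact ⟨2 ^ j, _, rfl, j1, rfl, hs⟩
        · refine ⟨-2 ^ j, -sm (2 ^ j) e, ?_, big_neg j1, ?_, ?_⟩
          · rw [neg_sm]
          · rw [cz_neg', abs_neg]
          · rw [cz_neg']
            linarith
      have hRζ : |cz R| ≤ 2.2 * ζ := by
        rw [hRz]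
        nlinarith
      obtain ⟨k1, k2⟩ := addsm Q (-R) hQ (by nlinarith) (big_neg hRA)
        (by rw [cz_neg', abs_neg]; exact hRζ)
      rw [cz_neg', abs_neg, max_eq_left (by rw [hRz]; exact j2)] at k2
      have hsub : |cz Q - cz R| ≤ |cz Q| - |cz R| := by
        rcases le_total 0 (cz Q) with hq | hq
        · have hr : 0 ≤ cz R := by
            by_contra hcon
            push Not at hcon
            have hq0 : cz Q ≠ 0 := by
              intro h0
              rw [h0, abs_zero] at hle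
              linarith
            have := mul_neg_of_neg_of_pos hcon (lt_of_le_of_ne hq (Ne.symm hq0))
            linarith
          rw [abs_of_nonneg hq, abs_of_nonneg hr] at *
          rw [abs_of_nonneg]
          linarith
        · have hr : cz R ≤ 0 := by
            by_contra hcon
            push Not at hcon
            have hq0 : cz Q ≠ 0 := by
              intro h0
              rw [h0, abs_zero] at hle
              linarith
            have := mul_neg_of_pos_of_neg hcon (lt_of_le_of_ne hq hq0)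
            linarith
          have h6 : |cz R| ≤ |cz Q| := by
            rw [hRz]
            exact j2
          rw [abs_of_nonpos hq, abs_of_nonpos hr] at *
          rw [abs_of_nonpos]
          · linarith
          · linarith
      have hQ' : |cz (Q - R)| ≤ 4 / 5 * |cz Q| := by
        have h7 : |cz (Q - R)| ≤ |cz (Q + -R) - cz Q - -cz R| + |cz Q - cz R| := by
          have := abs_add_le (cz (Q + -R) - cz Q - -cz R) (cz Q - cz R)
          have h8 : cz (Q + -R) - cz Q - -cz R + (cz Q - cz R) = cz (Q - R) := by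
            rw [sub_eq_add_neg Q R]
            ring
          rwa [h8] at this
        rw [← hRz] at j3
        nlinarith
      have hA' : Big bA (Q - R) := by
        rw [sub_eq_add_neg]
        exact k1
      obtain ⟨a, a1, a2⟩ := ih (Q - R) hA' (by nlinarith [abs_nonneg (cz Q)]) (by
        rw [pow_succ] at h
        nlinarith)
      refine ⟨c + a, ?_, ?_⟩
      · rw [add_sm, ← hcR, ← sub_sub]
        exact a1
      · rw [add_sm, ← hcR, ← sub_sub]
        exact a2
  obtain ⟨n, hn⟩ := pow_unbounded_of_one_lt (|cz Q0| / |cz e|) (show (1 : ℝ) < 5 / 4 by norm_num)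
  rw [div_lt_iff₀ hρ] at hn
  obtain ⟨a, a1, a2⟩ := claim n Q0 hQA hQζ (by linarith)
  refine ⟨a, ?_⟩
  by_cases h0 : Q0 - sm a e = 0
  · exact Or.inl h0
  obtain ⟨r1, r2, r3, r4⟩ := sizes hd h0 (a1.resolve_left h0)
  right
  rw [norm_div, norm_div, Real.norm_eq_abs, Real.norm_eq_abs, Real.norm_eq_abs, abs_of_pos e1,
    abs_of_pos r1, div_div, div_lt_div_iff₀ (by positivity) hD]
  generalize cX (Q0 - sm a e) = X at *
  generalize cz (Q0 - sm a e) = z at *
  have hz2 : z ^ 2 ≤ cz e ^ 2 := sq_le_sq.2 a2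
  have hze : 0 < cz e ^ 2 := by positivity
  have m1 : 4 / 5 ≤ X * cz e ^ 2 := le_trans r3 (mul_le_mul_of_nonneg_left hz2 r1.le)
  have m2 : cX e < X * 2 := by
    by_contra hcon
    push Not at hcon
    nlinarith
  nlinarith

end Pool.Agent.WAR.H95
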