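import Pool.Agent.Helper32_WAR.H95_RFI
import Pool.Agent.Helper32_WAR.H95_RGR
import Pool.Agent.Helper32_WAR.H95_RHV
import Pool.Agent.Helper32_WAR.H88_RCO
import Pool.Agent.Helper32_WAR.H49_RSM
import Pool.Agent.Helper32_WAR.H62_RTF
import Pool.Agent.Helper32_WAR.H10_RNT
import Pool.Agent.Helper32_WAR.H77_RGE
import Pool.Agent.Helper32_WAR.H41_RCK
import Pool.Agent.Helper32_WAR.H70_GDF
import Pool.Agent.Helper32_WAR.H21_ADN
import Pool.Agent.Helper32_WAR.H27_SMN
import Pool.Agent.Helper32_WAR.H32_TRX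
import Pool.Agent.Helper32_WAR.H42_KUC
import Pool.Agent.Helper32_WAR.H16_ZSM

/-! # WAR: assembly of the real place (helper95) -/

set_option autoImplicit false

namespace Pool.Agent.WAR.H95

open Pool.Agent.WAR Pool.Agent.WAR.R

variable [Par]

/-- the real place, from the exports of the other parts -/
theorem rxd_full (gdf : GdfStmt) (adn : AdnStmt) (smn : SmnStmt) (trx : TrxStmt) (dif : DifStmt)
    (kuc : KucStmt) (zad : ZadStmt) (zsm : ZsmStmt) (con : ConStmt) (den : DenStmt)
    (inv : InvStmt) : RxdStmt := by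
  have hG : GoodF ℝ := gdf ℝ (Or.inr isRe_R)
  have hrhv : RhvStmt := rhv
  have hrco : RcoStmt := H88.rco hrhv
  have hrsm : RsmStmt := H49.rsm adn dif hG
  have hrtf : RtfStmt := H62.rtf hrsm zsm hG
  have hrnt : RntStmt := H10.rnt hrtf
  have hrgr : RgrStmt := rgr adn zad hG
  have hrge : RgeStmt := H77R.rge hrgr hrhv hrsm smn hG
  have hrck : RckStmt := H41.rck hrco hrge hrnt
  have hrfi : RfiStmt := rfi hrck kuc con hG
  exact rxd hrfi hrco con den inv

end Pool.Agent.WAR.H95
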