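import Pool.Agent.Helper90_WAR.PRJ
import Pool.Agent.Helper32_WAR.Main

/-!
# The final statement on the projective surface (squad WAR)

The statement of `Pool/Agent/Helper90_WAR/PRJ.lean` with the larger local sets `UnX` (pairs whose
reduction generates a cyclic group modulo the 2-torsion) in place of the curves `CvX`.
-/

set_option autoImplicit false

namespace Pool.Agent.WAR.H32F

open Filter Topology Classical Pool.Agent.WAR.H90

variable [Par]

attribute [local instance] primesFact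

/-- the points of the projective surface given by points with `UnP` -/
def UnX (F : Type) [NormedField F] : Set (XP Par.a Par.b F) := XU.incl '' {z : XU F | UnP z.1}

theorem unX_subset (F : Type) [NormedField F] : UnX F ⊆ OmX F := by
  rintro _ ⟨z, hz, rfl⟩
  exact ⟨z, omP_of_unP z.2 hz, rfl⟩

theorem closure_unX_of_cyc {F : Type} [NormedField F] [CompleteSpace F] {ϖ : ℤ} (hF : IsLoc F ϖ)
    (hc : Cyc ϖ.natAbs) (x : XP Par.a Par.b F) : x ∈ closure (UnX F) := by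
  have h1 : UnX F = Set.range (XU.incl (F := F)) := by
    apply Set.eq_of_subset_of_subset
    · rintro _ ⟨z, _, rfl⟩
      exact ⟨z, rfl⟩
    · rintro _ ⟨z, rfl⟩
      exact ⟨z, H2.A_cyu F ϖ hF hc z.1 z.2, rfl⟩
  rw [h1]
  exact denseRange_incl (locSq_of_isLoc hF) x

/-- the closure of the rational points in the product of the `p`-adic points, `p ∈ S`, and
the real points contains all points whose component at `p` is in the closure of `OmX`. -/
theorem prjOm (S : Set Nat.Primes) (hS : ∀ p ∈ S, GoodP (p : ℕ))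
    (x : ∀ p : S, XP Par.a Par.b ℚ_[(p.1 : ℕ)]) (xR : XP Par.a Par.b ℝ)
    (h1 : ∀ p : S, x p ∈ closure (OmX ℚ_[(p.1 : ℕ)])) :
    ((x, xR) : (∀ p : S, XP Par.a Par.b ℚ_[(p.1 : ℕ)]) × XP Par.a Par.b ℝ) ∈
      closure (Set.range (fun z : XP Par.a Par.b ℚ =>
      (((fun p : S => XP.map (algebraMap ℚ ℚ_[(p.1 : ℕ)]) z), XP.map (algebraMap ℚ ℝ) z) :
        (∀ p : S, XP Par.a Par.b ℚ_[(p.1 : ℕ)]) × XP Par.a Par.b ℝ))) := by
  have hre : LocSq ℝ := locSq_of_isRe ⟨RingEquiv.refl ℝ, fun _ => rfl⟩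
  have h2 : xR ∈ closure (Set.range (XU.incl (F := ℝ))) := denseRange_incl hre xR
  have h3 : ((x, xR) : (∀ p : S, XP Par.a Par.b ℚ_[(p.1 : ℕ)]) × XP Par.a Par.b ℝ) ∈
      closure ((Set.pi Set.univ (fun p : S => OmX ℚ_[(p.1 : ℕ)])) ×ˢ
        (Set.range (XU.incl (F := ℝ)))) := by
    rw [closure_prod_eq, closure_pi_set]
    exact ⟨fun p _ => h1 p, h2⟩
  refine closure_minimal ?_ isClosed_closure h3
  rintro ⟨y, yR⟩ ⟨hy, hyR⟩
  have hy' : ∀ p : S, ∃ z : XU ℚ_[(p.1 : ℕ)], OmP z.1 ∧ XU.incl z = y p := by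
    intro p
    obtain ⟨z, hz, h⟩ := hy p (Set.mem_univ p)
    exact ⟨z, hz, h⟩
  choose z hz hzy using hy'
  obtain ⟨zR, hzR⟩ := hyR
  have hb := H2.A_bfi S hS z zR hz
  have hc : Continuous (Prod.map (Pi.map (fun p : S => XU.incl (F := ℚ_[(p.1 : ℕ)])))
      (XU.incl (F := ℝ))) :=
    (Continuous.piMap (fun p => cont_incl)).prodMap cont_incl
  have h4 : Prod.map (Pi.map (fun p : S => XU.incl (F := ℚ_[(p.1 : ℕ)])))
      (XU.incl (F := ℝ)) (z, zR) = (y, yR) := by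
    refine Prod.ext ?_ ?_
    · funext p
      exact hzy p
    · exact hzR
  rw [← h4]
  have h5 := image_closure_subset_closure_image hc ⟨_, hb, rfl⟩
  refine closure_mono ?_ h5
  rintro _ ⟨_, ⟨w, rfl⟩, rfl⟩
  refine ⟨XU.incl w, ?_⟩
  refine Prod.ext ?_ ?_
  · funext p
    exact XU_incl_map _ w
  · exact XU_incl_map _ w

/-- The same with `UnX`, or no condition at the primes with `Cyc`. -/
theorem prjUn (S : Set Nat.Primes) (hS : ∀ p ∈ S, GoodP (p : ℕ))
    (x : ∀ p : S, XP Par.a Par.b ℚ_[(p.1 : ℕ)]) (xR : XP Par.a Par.b ℝ)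
    (hx : ∀ p : S, Cyc (p.1 : ℕ) ∨ x p ∈ closure (UnX ℚ_[(p.1 : ℕ)])) :
    ((x, xR) : (∀ p : S, XP Par.a Par.b ℚ_[(p.1 : ℕ)]) × XP Par.a Par.b ℝ) ∈
      closure (Set.range (fun z : XP Par.a Par.b ℚ =>
      (((fun p : S => XP.map (algebraMap ℚ ℚ_[(p.1 : ℕ)]) z), XP.map (algebraMap ℚ ℝ) z) :
        (∀ p : S, XP Par.a Par.b ℚ_[(p.1 : ℕ)]) × XP Par.a Par.b ℝ))) := by
  refine prjOm S hS x xR fun p => ?_
  refine closure_mono (unX_subset _) ?_
  rcases hx p with h | h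
  · refine closure_unX_of_cyc (H2.A_blo (p.1 : ℕ) (hS p.1 p.2)) ?_ (x p)
    rw [Int.natAbs_natCast]
    exact h
  · exact h

end Pool.Agent.WAR.H32F
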